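import Mathlib

/-! Monochromatic copies of members of a family of graphs, and tilings by them. -/

namespace Pool.Agent.H21.Tile

open Finset Classical

variable {α : Type*} {k : ℕ} (F : (r : ℕ) → SimpleGraph (Fin r)) (col : α → α → Fin k)

/-- `S` is the vertex set of a monochromatic copy of a member of the family `F`. -/
def MonoSet (S : Finset α) : Prop :=
  ∃ (c : Fin k) (r : ℕ) (f : Fin r → α), Function.Injective f ∧ univ.image f = S ∧
    ∀ a b, (F r).Adj a b → col (f a) (f b) = c

/-- `S` can be partitioned into at most `m` vertex sets of monochromatic copies. -/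
def Tiles (S : Finset α) (m : ℕ) : Prop :=
  ∃ P : Finset (Finset α), P.card ≤ m ∧ (∀ p ∈ P, p.Nonempty ∧ MonoSet F col p) ∧
    (∀ p ∈ P, ∀ p' ∈ P, p ≠ p' → Disjoint p p') ∧ P.biUnion id = S

variable {F col}

lemma Tiles.mono {S : Finset α} {m m' : ℕ} (h : Tiles F col S m) (hm : m ≤ m') :
    Tiles F col S m' := by
  obtain ⟨P, h1, h2⟩ := h
  exact ⟨P, h1.trans hm, h2⟩

lemma Tiles.empty : Tiles F col ∅ 0 := ⟨∅, by simp, by simp, by simp, by simp⟩

lemma Tiles.single {S : Finset α} (h : MonoSet F col S) : Tiles F col S 1 := by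
  by_cases hS : S = ∅
  · rw [hS]; exact Tiles.empty.mono (by omega)
  · exact ⟨{S}, by simp, by
      intro p hp
      rw [mem_singleton] at hp
      subst hp
      exact ⟨nonempty_iff_ne_empty.mpr hS, h⟩, by
      intro p hp p' hp' hne
      rw [mem_singleton] at hp hp'
      exact absurd (hp.trans hp'.symm) hne, by simp⟩

lemma Tiles.union {S S' : Finset α} {m m' : ℕ} (h : Tiles F col S m) (h' : Tiles F col S' m')
    (hd : Disjoint S S') : Tiles F col (S ∪ S') (m + m') := by
  obtain ⟨P, h1, h2, h3, h4⟩ := h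
  obtain ⟨P', h1', h2', h3', h4'⟩ := h'
  have hsub : ∀ p ∈ P, p ⊆ S := by
    intro p hp; rw [← h4]; exact subset_biUnion_of_mem id hp
  have hsub' : ∀ p ∈ P', p ⊆ S' := by
    intro p hp; rw [← h4']; exact subset_biUnion_of_mem id hp
  refine ⟨P ∪ P', (card_union_le _ _).trans (add_le_add h1 h1'), ?_, ?_, ?_⟩
  · intro p hp
    rw [mem_union] at hp
    rcases hp with hp | hp
    · exact h2 p hp
    · exact h2' p hp
  · intro p hp p' hp' hne
    rw [mem_union] at hp hp'
    rcases hp with hp | hp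
    · rcases hp' with hp' | hp'
      · exact h3 p hp p' hp' hne
      · exact disjoint_of_subset_left (hsub p hp) (disjoint_of_subset_right (hsub' p' hp') hd)
    · rcases hp' with hp' | hp'
      · exact (disjoint_of_subset_left (hsub p' hp') (disjoint_of_subset_right (hsub' p hp) hd)).symm
      · exact h3' p hp p' hp' hne
  · rw [union_biUnion, h4, h4']

/-- The hypothesis that monochromatic copies of linear size exist. -/
def LinRam (F : (r : ℕ) → SimpleGraph (Fin r)) (col : α → α → Fin k) (K : ℕ) : Prop :=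
  ∀ (S : Finset α) (b : ℕ), 0 < b → K * b ≤ S.card → ∃ p ⊆ S, p.card = b ∧ MonoSet F col p

lemma monoSet_singleton (x : α) : MonoSet F col {x} := by
  refine ⟨col x x, 1, fun _ => x, fun a b _ => Subsingleton.elim a b, ?_, ?_⟩
  · ext y; simp [eq_comm]
  · intro a b hab
    exact absurd (Subsingleton.elim a b) hab.ne

/-- One greedy step removes a proportion `1/(2K)`. -/
lemma greedy_step {K : ℕ} (hK : 0 < K) (hR : LinRam F col K) (S : Finset α) (hS : S.Nonempty) :
    ∃ p ⊆ S, MonoSet F col p ∧ ((S \ p).card : ℝ) ≤ (1 - 1 / (2 * K)) * S.card := by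
  have hKR : (1:ℝ) ≤ K := by exact_mod_cast hK
  have hSpos : 0 < S.card := card_pos.mpr hS
  have hSR : (0:ℝ) < S.card := by exact_mod_cast hSpos
  by_cases hc : K ≤ S.card
  · obtain ⟨p, hp, hpc, hpm⟩ := hR S (S.card / K) (Nat.div_pos hc hK) (Nat.mul_div_le _ _)
    refine ⟨p, hp, hpm, ?_⟩
    rw [card_sdiff_of_subset hp, hpc, Nat.cast_sub (Nat.div_le_self _ _)]
    have h1 : S.card < K * (S.card / K) + K := by
      have := Nat.mod_lt S.card hK
      have h2 := Nat.div_add_mod S.card K
      omega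
    have h3 : 1 ≤ S.card / K := Nat.div_pos hc hK
    have h4 : S.card ≤ 2 * K * (S.card / K) := by nlinarith
    have h5 : (S.card : ℝ) ≤ 2 * K * ((S.card / K : ℕ) : ℝ) := by exact_mod_cast h4
    have h6 : (S.card : ℝ) / (2 * K) ≤ ((S.card / K : ℕ) : ℝ) := by
      rw [div_le_iff₀ (by positivity)]; linarith
    have h7 : (1 - 1 / (2 * K)) * (S.card : ℝ) = S.card - S.card / (2 * K) := by ring
    linarith
  · push Not at hc
    obtain ⟨x, hx⟩ := hS
    refine ⟨{x}, by simpa using hx, monoSet_singleton x, ?_⟩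
    rw [card_sdiff_of_subset (by simpa using hx), card_singleton, Nat.cast_sub (by omega)]
    have h1 : (S.card : ℝ) ≤ K := by exact_mod_cast hc.le
    have h7 : (1 - 1 / (2 * K)) * (S.card : ℝ) = S.card - S.card / (2 * K) := by ring
    rw [h7]
    have h8 : (S.card : ℝ) / (2 * K) ≤ 1 := by
      rw [div_le_one (by positivity)]; linarith
    push_cast
    linarith

lemma greedy_cover {K : ℕ} (hK : 0 < K) (hR : LinRam F col K) (m : ℕ) : ∀ S : Finset α,
    ∃ L ⊆ S, Tiles F col (S \ L) m ∧ (L.card : ℝ) ≤ (1 - 1 / (2 * K)) ^ m * S.card := by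
  have hKR : (1:ℝ) ≤ K := by exact_mod_cast hK
  have h0 : (0:ℝ) ≤ 1 - 1 / (2 * K) := by
    have : (1:ℝ) / (2 * K) ≤ 1 := by
      rw [div_le_one (by positivity)]; linarith
    linarith
  induction m with
  | zero =>
    intro S
    exact ⟨S, le_rfl, by rw [sdiff_self]; exact Tiles.empty, by simp⟩
  | succ m ih =>
    intro S
    by_cases hS : S = ∅
    · subst hS
      exact ⟨∅, le_rfl, Tiles.empty.mono (by omega), by simp⟩
    obtain ⟨p, hp, hpm, hpc⟩ := greedy_step hK hR S (nonempty_iff_ne_empty.mpr hS)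
    obtain ⟨L, hL, hLt, hLc⟩ := ih (S \ p)
    refine ⟨L, hL.trans sdiff_subset, ?_, ?_⟩
    · have h1 : S \ L = p ∪ ((S \ p) \ L) := by
        ext x
        simp only [mem_sdiff, mem_union]
        constructor
        · rintro ⟨h2, h3⟩
          by_cases hxp : x ∈ p
          · exact Or.inl hxp
          · exact Or.inr ⟨⟨h2, hxp⟩, h3⟩
        · rintro (h2 | ⟨⟨h2, h3⟩, h4⟩)
          · exact ⟨hp h2, fun h => (mem_sdiff.mp (hL h)).2 h2⟩
          · exact ⟨h2, h4⟩
      rw [h1, add_comm m 1]
      apply (Tiles.single hpm).union hLt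
      rw [disjoint_left]
      intro x hx hx2
      exact (mem_sdiff.mp (mem_sdiff.mp hx2).1).2 hx
    · refine hLc.trans ?_
      calc (1 - 1 / (2 * (K:ℝ))) ^ m * (S \ p).card ≤
            (1 - 1 / (2 * K)) ^ m * ((1 - 1 / (2 * K)) * S.card) := by gcongr
        _ = _ := by ring

lemma greedy_small {K : ℕ} (hK : 0 < K) (hR : LinRam F col K) (m : ℕ) (S : Finset α)
    (hm : (1 - 1 / (2 * (K:ℝ))) ^ m * S.card < 1) : Tiles F col S m := by
  obtain ⟨L, hL, hLt, hLc⟩ := greedy_cover hK hR m S
  have : L = ∅ := by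
    rw [← card_eq_zero]
    have h1 : (L.card : ℝ) < 1 := lt_of_le_of_lt hLc hm
    exact_mod_cast Nat.lt_one_iff.mp (by exact_mod_cast h1)
  rw [this, sdiff_empty] at hLt
  exact hLt

end Pool.Agent.H21.Tile
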