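import Pool.Agent.H21.Tile.Greedy
import Pool.Agent.H21.Tile.Defs

/-! Absorbing a small set of vertices into a monochromatic copy. -/

namespace Pool.Agent.H21.Tile

open Finset Classical

/-- spread sets of vertices -/
lemma exists_spread {X : Type*} [Fintype X] (H : SimpleGraph X) (Δ : ℕ)
    (hdeg : ∀ x, (univ.filter (H.Adj x)).card ≤ Δ) (ℓ : ℕ)
    (hX : (Δ * Δ + Δ + 1) * ℓ ≤ Fintype.card X) :
    ∃ P : Finset X, P.card = ℓ ∧ ∀ p ∈ P, ∀ p' ∈ P, p ≠ p' → ¬ H.Adj p p' ∧
      ∀ x, ¬ (H.Adj x p ∧ H.Adj x p') := by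
  induction ℓ with
  | zero => exact ⟨∅, by simp, by simp⟩
  | succ ℓ ih =>
    obtain ⟨P, hPc, hP⟩ := ih (le_trans (by nlinarith) hX)
    set Z : X → Finset X := fun p => insert p (univ.filter (H.Adj p) ∪
      (univ.filter (H.Adj p)).biUnion (fun y => univ.filter (H.Adj y))) with hZ
    have hZc : ∀ p, (Z p).card ≤ Δ * Δ + Δ + 1 := by
      intro p
      refine (card_insert_le _ _).trans ?_
      have h1 := card_union_le (univ.filter (H.Adj p))
        ((univ.filter (H.Adj p)).biUnion (fun y => univ.filter (H.Adj y)))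
      have h2 : ((univ.filter (H.Adj p)).biUnion (fun y => univ.filter (H.Adj y))).card ≤ Δ * Δ := by
        refine card_biUnion_le.trans ?_
        refine (sum_le_sum fun y _ => hdeg y).trans ?_
        rw [sum_const, smul_eq_mul]
        exact Nat.mul_le_mul_right _ (hdeg p)
      have h3 := hdeg p
      omega
    have hU : (P.biUnion Z).card < Fintype.card X := by
      refine lt_of_le_of_lt (card_biUnion_le.trans (sum_le_sum fun p _ => hZc p)) ?_
      rw [sum_const, smul_eq_mul, hPc]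
      nlinarith
    obtain ⟨x, hx⟩ : ∃ x, x ∉ P.biUnion Z := by
      by_contra hcon
      push Not at hcon
      have : P.biUnion Z = univ := eq_univ_of_forall hcon
      rw [this, card_univ] at hU
      exact lt_irrefl _ hU
    have hx1 : ∀ p ∈ P, x ≠ p ∧ ¬ H.Adj p x ∧ ∀ y, ¬ (H.Adj p y ∧ H.Adj y x) := by
      intro p hp
      have h1 : x ∉ Z p := fun h => hx (mem_biUnion.mpr ⟨p, hp, h⟩)
      rw [hZ] at h1
      simp only [mem_insert, mem_union, mem_filter, mem_univ, true_and, mem_biUnion, not_or,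
        not_exists, not_and] at h1
      exact ⟨h1.1, h1.2.1, fun y hy => h1.2.2 y hy.1 hy.2⟩
    refine ⟨insert x P, ?_, ?_⟩
    · rw [card_insert_of_notMem (fun h => (hx1 x h).1 rfl), hPc]
    · intro p hp p' hp' hne
      rw [mem_insert] at hp hp'
      rcases hp with rfl | hp
      · rcases hp' with rfl | hp'
        · exact absurd rfl hne
        · have h1 := hx1 p' hp'
          exact ⟨fun h => h1.2.1 h.symm, fun y hy => h1.2.2 y ⟨hy.2.symm, hy.1⟩⟩
      · rcases hp' with rfl | hp'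
        · have h1 := hx1 p hp
          exact ⟨h1.2.1, fun y hy => h1.2.2 y ⟨hy.1.symm, hy.2⟩⟩
        · exact hP p hp p' hp' hne

theorem absorb {α : Type*} [Nonempty α] {k q Δ : ℕ} (F : (r : ℕ) → SimpleGraph (Fin r))
    (hdeg : ∀ r x, (univ.filter ((F r).Adj x)).card ≤ Δ)
    (hcol : ∀ r, ∃ f : Fin r → Fin q, ∀ x y, (F r).Adj x y → f x ≠ f y)
    (col : α → α → Fin k) (hsymm : ∀ a b, col a b = col b a) (c : Fin k)
    (A : Fin q → Finset α)
    (ε γ δ : ℝ) (hε0 : 0 ≤ ε) (hγ : 0 < γ) (hγ1 : γ ≤ 1) (hδ : 0 < δ) (hδ1 : δ ≤ 1)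
    (hεγ : ε ≤ δ * γ ^ Δ) (hreg : LowReg (fun a b => col a b = c) A ε γ)
    (L U : Finset α) (hLA : ∀ i, Disjoint L (A i))
    (hL : ∀ v ∈ L, ∀ i, δ * (A i).card ≤ (((A i).filter (fun w => col v w = c)).card : ℝ))
    (hsize : ∀ i, ((U ∩ A i).card : ℝ) + (Δ * Δ + Δ + 1) * L.card + Δ * (ε * (A i).card)
      ≤ δ * γ ^ Δ * (A i).card) :
    ∃ Y : Finset α, (Y ⊆ univ.biUnion A) ∧ Disjoint Y U ∧ Y.card ≤ (Δ * Δ + Δ) * L.card ∧
      MonoSet F col (L ∪ Y) := by
  obtain ⟨b, hb⟩ : ∃ b : ℕ, b = (Δ * Δ + Δ + 1) * L.card := ⟨_, rfl⟩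
  obtain ⟨f, hf⟩ := hcol b
  obtain ⟨P, hPc, hP⟩ := exists_spread (F b) Δ (hdeg b) L.card (by rw [Fintype.card_fin, hb])
  -- bijection `P → L`
  obtain ⟨ψ, hψ1, hψ2, hψ3⟩ : ∃ ψ : Fin b → α, (∀ p ∈ P, ψ p ∈ L) ∧ Set.InjOn ψ P ∧
      P.image ψ = L := by
    have e := P.equivOfCardEq hPc
    obtain ⟨a⟩ := ‹Nonempty α›
    refine ⟨fun p => if h : p ∈ P then (e ⟨p, h⟩ : α) else a, ?_, ?_, ?_⟩
    · intro p hp
      simp only [hp, dite_true]
      exact (e ⟨p, hp⟩).2
    · intro x hx y hy hxy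
      rw [mem_coe] at hx hy
      simp only [hx, hy, dite_true] at hxy
      have := e.injective (Subtype.ext hxy)
      simpa using this
    · ext y
      rw [mem_image]
      constructor
      · rintro ⟨p, hp, rfl⟩
        simp only [hp, dite_true]
        exact (e ⟨p, hp⟩).2
      · intro hy
        refine ⟨(e.symm ⟨y, hy⟩ : Fin b), (e.symm ⟨y, hy⟩).2, ?_⟩
        simp
  set C0 : Fin b → Finset α := fun x => (A (f x)).filter
    (fun w => ∀ p ∈ P, (F b).Adj x p → col (ψ p) w = c) with hC0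
  have hC0' : ∀ x, δ * (A (f x)).card ≤ ((C0 x).card : ℝ) := by
    intro x
    by_cases hex : ∃ p ∈ P, (F b).Adj x p
    · obtain ⟨p, hp, hxp⟩ := hex
      refine (hL (ψ p) (hψ1 p hp) (f x)).trans ?_
      apply Nat.cast_le.mpr
      apply card_le_card
      intro w hw
      rw [mem_filter] at hw
      rw [hC0, mem_filter]
      refine ⟨hw.1, fun p' hp' hxp' => ?_⟩
      by_cases hpp : p = p'
      · rw [← hpp]; exact hw.2
      · exact absurd ⟨hxp, hxp'⟩ ((hP p hp p' hp' hpp).2 x)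
    · push Not at hex
      have : C0 x = A (f x) := by
        rw [hC0]
        apply filter_true_of_mem
        intro w _ p hp hxp
        exact absurd hxp (hex p hp)
      rw [this]
      have : (0:ℝ) ≤ (A (f x)).card := Nat.cast_nonneg _
      nlinarith
  obtain ⟨S, hS⟩ : ∃ S : Finset (Fin b), S = univ \ P := ⟨_, rfl⟩
  have hSP : ∀ x, x ∈ S ↔ x ∉ P := fun x => by simp [hS]
  have hSb : S.card ≤ b := by
    have := card_le_univ S
    rwa [Fintype.card_fin] at this
  have hSc : S.card + P.card = b := by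
    have h1 := card_sdiff_add_card_eq_card (subset_univ P)
    rw [← hS, card_univ, Fintype.card_fin] at h1
    exact h1
  obtain ⟨φ, hφ1, hφ2, hφ3, -⟩ := greedy_embed (fun a b => col a b = c)
    (fun a b h => by rw [hsymm]; exact h) A ε γ δ hγ hγ1 hδ hreg (F b) Δ (hdeg b) f hf
    C0 (fun x => filter_subset _ _) hC0' hε0 hεγ U S (by
      intro x _
      refine le_trans ?_ (hsize (f x))
      have : (S.card : ℝ) ≤ (Δ * Δ + Δ + 1) * L.card := by
        have h1 : S.card ≤ (Δ * Δ + Δ + 1) * L.card := hSb.trans hb.le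
        exact_mod_cast h1
      linarith)
  have hφA : ∀ x ∈ S, φ x ∈ A (f x) := fun x hx => (mem_filter.mp (hφ1 x hx).1).1
  have hφL : ∀ x ∈ S, φ x ∉ L := fun x hx h => disjoint_left.mp (hLA (f x)) h (hφA x hx)
  refine ⟨S.image φ, ?_, ?_, ?_, c, b, fun x => if x ∈ P then ψ x else φ x, ?_, ?_, ?_⟩
  · intro y hy
    rw [mem_image] at hy
    obtain ⟨x, hx, rfl⟩ := hy
    exact mem_biUnion.mpr ⟨f x, mem_univ _, hφA x hx⟩
  · rw [disjoint_left]
    intro y hy
    rw [mem_image] at hy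
    obtain ⟨x, hx, rfl⟩ := hy
    exact (hφ1 x hx).2
  · refine card_image_le.trans ?_
    have h1 : (Δ * Δ + Δ + 1) * L.card = (Δ * Δ + Δ) * L.card + L.card := by ring
    omega
  · intro x y hxy
    simp only at hxy
    by_cases hx : x ∈ P
    · by_cases hy : y ∈ P
      · rw [if_pos hx, if_pos hy] at hxy; exact hψ2 hx hy hxy
      · rw [if_pos hx, if_neg hy] at hxy
        exact absurd (hxy ▸ hψ1 x hx) (hφL y ((hSP y).mpr hy))
    · by_cases hy : y ∈ P
      · rw [if_neg hx, if_pos hy] at hxy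
        exact absurd (hxy ▸ hψ1 y hy) (hφL x ((hSP x).mpr hx))
      · rw [if_neg hx, if_neg hy] at hxy
        exact hφ2 (mem_coe.mpr ((hSP x).mpr hx)) (mem_coe.mpr ((hSP y).mpr hy)) hxy
  · ext y
    rw [mem_image, mem_union, mem_image]
    constructor
    · rintro ⟨x, _, rfl⟩
      by_cases hx : x ∈ P
      · rw [if_pos hx]; exact Or.inl (hψ1 x hx)
      · rw [if_neg hx]; exact Or.inr ⟨x, (hSP x).mpr hx, rfl⟩
    · rintro (hy | ⟨x, hx, rfl⟩)
      · rw [← hψ3, mem_image] at hy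
        obtain ⟨x, hx, rfl⟩ := hy
        exact ⟨x, mem_univ _, if_pos hx⟩
      · exact ⟨x, mem_univ _, if_neg ((hSP x).mp hx)⟩
  · intro x y hxy
    beta_reduce
    by_cases hx : x ∈ P
    · by_cases hy : y ∈ P
      · exact absurd hxy (hP x hx y hy hxy.ne).1
      · rw [if_pos hx, if_neg hy]
        have := (mem_filter.mp (hφ1 y ((hSP y).mpr hy)).1).2
        exact this x hx hxy.symm
    · by_cases hy : y ∈ P
      · rw [if_neg hx, if_pos hy, hsymm]
        have := (mem_filter.mp (hφ1 x ((hSP x).mpr hx)).1).2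
        exact this y hy hxy
      · rw [if_neg hx, if_neg hy]
        exact hφ3 x ((hSP x).mpr hx) y ((hSP y).mpr hy) hxy

end Pool.Agent.H21.Tile
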