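import Mathlib

/-! Bounds of the form `2 ^ (2 ^ (C q) D)`. -/

namespace Pool.Agent.H21.Tile

open Finset

/-- `f` is at most `2 ^ (2 ^ (C q) D)`. -/
def EB (f : ℕ → ℕ → ℝ) : Prop :=
  ∃ C : ℕ, ∀ q D : ℕ, 1 ≤ q → 1 ≤ D → f q D ≤ 2 ^ (2 ^ (C * q) * D)

lemma EB.mono {f g : ℕ → ℕ → ℝ} (hg : EB g) (h : ∀ q D, 1 ≤ q → 1 ≤ D → f q D ≤ g q D) : EB f := by
  obtain ⟨C, hC⟩ := hg
  exact ⟨C, fun q D hq hD => (h q D hq hD).trans (hC q D hq hD)⟩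

lemma exp_le {C C' q D : ℕ} (h : C ≤ C') : (2:ℝ) ^ (2 ^ (C * q) * D) ≤ 2 ^ (2 ^ (C' * q) * D) := by
  apply pow_le_pow_right₀ (by norm_num)
  apply Nat.mul_le_mul_right
  exact Nat.pow_le_pow_right (by norm_num) (Nat.mul_le_mul_right _ h)

lemma exp_succ {C q D : ℕ} (hq : 1 ≤ q) :
    2 * (2 ^ (C * q) * D) ≤ 2 ^ ((C + 1) * q) * D := by
  rw [add_mul, one_mul, pow_add]
  have h1 : 2 ≤ 2 ^ q := by
    calc 2 = 2 ^ 1 := by norm_num
      _ ≤ 2 ^ q := Nat.pow_le_pow_right (by norm_num) hq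
  calc 2 * (2 ^ (C * q) * D) = 2 ^ (C * q) * 2 * D := by ring
    _ ≤ 2 ^ (C * q) * 2 ^ q * D := by gcongr

lemma EB.const (c : ℝ) : EB (fun _ _ => c) := by
  obtain ⟨n, hn⟩ := pow_unbounded_of_one_lt c (by norm_num : (1:ℝ) < 2)
  refine ⟨n, fun q D hq hD => hn.le.trans ?_⟩
  apply pow_le_pow_right₀ (by norm_num)
  have h1 : n ≤ 2 ^ (n * q) := by
    calc n ≤ n * q := Nat.le_mul_of_pos_right _ hq
      _ ≤ 2 ^ (n * q) := Nat.lt_two_pow_self.le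
  exact h1.trans (Nat.le_mul_of_pos_right _ hD)

lemma EB.mul {f g : ℕ → ℕ → ℝ} (hf : EB f) (hg : EB g)
    (hg0 : ∀ q D, 1 ≤ q → 1 ≤ D → 0 ≤ g q D) : EB (fun q D => f q D * g q D) := by
  obtain ⟨C, hC⟩ := hf
  obtain ⟨C', hC'⟩ := hg
  refine ⟨C + C' + 1, fun q D hq hD => ?_⟩
  have h1 := (hC q D hq hD).trans (exp_le (q := q) (D := D) (show C ≤ C + C' by omega))
  have h2 := (hC' q D hq hD).trans (exp_le (q := q) (D := D) (show C' ≤ C + C' by omega))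
  calc f q D * g q D ≤ 2 ^ (2 ^ ((C + C') * q) * D) * 2 ^ (2 ^ ((C + C') * q) * D) :=
        mul_le_mul h1 h2 (hg0 q D hq hD) (by positivity)
    _ = 2 ^ (2 * (2 ^ ((C + C') * q) * D)) := by rw [← pow_add]; congr 1; ring
    _ ≤ _ := pow_le_pow_right₀ (by norm_num) (exp_succ hq)

lemma EB.add {f g : ℕ → ℕ → ℝ} (hf : EB f) (hg : EB g) : EB (fun q D => f q D + g q D) := by
  obtain ⟨C, hC⟩ := hf
  obtain ⟨C', hC'⟩ := hg
  refine ⟨C + C' + 1, fun q D hq hD => ?_⟩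
  have h1 := (hC q D hq hD).trans (exp_le (q := q) (D := D) (show C ≤ C + C' by omega))
  have h2 := (hC' q D hq hD).trans (exp_le (q := q) (D := D) (show C' ≤ C + C' by omega))
  have h3 : 1 ≤ 2 ^ ((C + C') * q) * D := Nat.mul_pos (by positivity) hD
  calc f q D + g q D ≤ 2 ^ (2 ^ ((C + C') * q) * D) + 2 ^ (2 ^ ((C + C') * q) * D) := by linarith
    _ = 2 ^ (2 ^ ((C + C') * q) * D + 1) := by rw [pow_succ]; ring
    _ ≤ 2 ^ (2 * (2 ^ ((C + C') * q) * D)) := by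
        apply pow_le_pow_right₀ (by norm_num)
        omega
    _ ≤ _ := pow_le_pow_right₀ (by norm_num) (exp_succ hq)

lemma EB.pow {f : ℕ → ℕ → ℝ} (hf : EB f) (hf0 : ∀ q D, 1 ≤ q → 1 ≤ D → 0 ≤ f q D) (n : ℕ → ℕ)
    (hn : ∃ c, ∀ q, 1 ≤ q → n q ≤ 2 ^ (c * q)) :
    EB (fun q D => f q D ^ n q) := by
  obtain ⟨C, hC⟩ := hf
  obtain ⟨c, hc⟩ := hn
  refine ⟨C + c, fun q D hq hD => ?_⟩
  calc f q D ^ n q ≤ (2 ^ (2 ^ (C * q) * D)) ^ n q :=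
        pow_le_pow_left₀ (hf0 q D hq hD) (hC q D hq hD) _
    _ = 2 ^ (2 ^ (C * q) * D * n q) := by rw [← pow_mul]
    _ ≤ 2 ^ (2 ^ ((C + c) * q) * D) := by
        apply pow_le_pow_right₀ (by norm_num)
        rw [add_mul, pow_add]
        calc 2 ^ (C * q) * D * n q ≤ 2 ^ (C * q) * D * 2 ^ (c * q) := by
              have := hc q hq; gcongr
          _ = _ := by ring

lemma EB.cpow {c : ℕ → ℝ} (hc : EB (fun q _ => c q)) (hc0 : ∀ q, 1 ≤ q → 0 ≤ c q) :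
    EB (fun q D => c q ^ D) := by
  obtain ⟨C, hC⟩ := hc
  refine ⟨C, fun q D hq _ => ?_⟩
  have h := hC q 1 hq le_rfl
  rw [mul_one] at h
  calc c q ^ D ≤ (2 ^ (2 ^ (C * q))) ^ D := pow_le_pow_left₀ (hc0 q hq) h D
    _ = 2 ^ (2 ^ (C * q) * D) := by rw [← pow_mul]

lemma EB.id : EB (fun _ D => (D : ℝ)) := by
  refine ⟨0, fun q D _ _ => ?_⟩
  rw [zero_mul, pow_zero, one_mul]
  have : D ≤ 2 ^ D := Nat.lt_two_pow_self.le
  change (D : ℝ) ≤ 2 ^ D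
  exact_mod_cast this

lemma EB.ofNat {n : ℕ → ℕ} (hn : ∃ c, ∀ q, 1 ≤ q → n q ≤ 2 ^ (c * q)) :
    EB (fun q _ => (n q : ℝ)) := by
  obtain ⟨c, hc⟩ := hn
  refine ⟨c, fun q D hq hD => ?_⟩
  have h1 : n q ≤ 2 ^ (2 ^ (c * q) * D) := by
    refine (hc q hq).trans ?_
    apply Nat.pow_le_pow_right (by norm_num)
    exact Nat.lt_two_pow_self.le.trans (Nat.le_mul_of_pos_right _ hD)
  change (n q : ℝ) ≤ _
  exact_mod_cast h1

lemma EB.ceil {f : ℕ → ℕ → ℝ} (hf : EB f) (hf0 : ∀ q D, 1 ≤ q → 1 ≤ D → 0 ≤ f q D) :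
    EB (fun q D => (⌈f q D⌉₊ : ℝ)) :=
  (hf.add (EB.const 1)).mono fun q D hq hD => (Nat.ceil_lt_add_one (hf0 q D hq hD)).le

/-- `x` is positive, at most one, and its inverse is at most the exponential of an `EB` function. -/
def LB (x : ℕ → ℕ → ℝ) : Prop :=
  (∀ q D, 1 ≤ q → 1 ≤ D → 0 < x q D) ∧ (∀ q D, 1 ≤ q → 1 ≤ D → x q D ≤ 1) ∧
    EB (fun q D => - Real.log (x q D))

lemma LB.neglog_nonneg {x : ℕ → ℕ → ℝ} (hx : LB x) (q D : ℕ) (hq : 1 ≤ q) (hD : 1 ≤ D) :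
    0 ≤ - Real.log (x q D) := by
  have := Real.log_nonpos (hx.1 q D hq hD).le (hx.2.1 q D hq hD)
  linarith

lemma LB.mul {x y : ℕ → ℕ → ℝ} (hx : LB x) (hy : LB y) : LB (fun q D => x q D * y q D) := by
  refine ⟨fun q D hq hD => mul_pos (hx.1 q D hq hD) (hy.1 q D hq hD),
    fun q D hq hD => mul_le_one₀ (hx.2.1 q D hq hD) (hy.1 q D hq hD).le (hy.2.1 q D hq hD), ?_⟩
  refine (hx.2.2.add hy.2.2).mono fun q D hq hD => ?_
  rw [Real.log_mul (hx.1 q D hq hD).ne' (hy.1 q D hq hD).ne']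
  linarith

lemma LB.pow {x : ℕ → ℕ → ℝ} (hx : LB x) {n : ℕ → ℕ → ℕ} (hn : EB (fun q D => (n q D : ℝ))) :
    LB (fun q D => x q D ^ n q D) := by
  refine ⟨fun q D hq hD => pow_pos (hx.1 q D hq hD) _,
    fun q D hq hD => pow_le_one₀ (hx.1 q D hq hD).le (hx.2.1 q D hq hD), ?_⟩
  refine (hn.mul hx.2.2 hx.neglog_nonneg).mono fun q D hq hD => ?_
  rw [Real.log_pow]
  linarith

lemma LB.inv {f : ℕ → ℕ → ℝ} (hf : EB f) (hf1 : ∀ q D, 1 ≤ q → 1 ≤ D → 1 ≤ f q D) :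
    LB (fun q D => 1 / f q D) := by
  refine ⟨fun q D hq hD => by have := hf1 q D hq hD; positivity,
    fun q D hq hD => by
      rw [div_le_one (by have := hf1 q D hq hD; positivity)]; exact hf1 q D hq hD, ?_⟩
  refine hf.mono fun q D hq hD => ?_
  have h1 := hf1 q D hq hD
  beta_reduce
  rw [one_div, Real.log_inv, neg_neg]
  have := Real.log_le_sub_one_of_pos (show 0 < f q D by linarith)
  linarith

lemma LB.const {c : ℝ} (hc : 0 < c) (hc1 : c ≤ 1) : LB (fun _ _ => c) :=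
  ⟨fun _ _ _ _ => hc, fun _ _ _ _ => hc1, EB.const _⟩

lemma LB.div {x f : ℕ → ℕ → ℝ} (hx : LB x) (hf : EB f)
    (hf1 : ∀ q D, 1 ≤ q → 1 ≤ D → 1 ≤ f q D) : LB (fun q D => x q D / f q D) := by
  have := hx.mul (LB.inv hf hf1)
  simpa [div_eq_mul_inv] using this

lemma LB.cpow {c : ℕ → ℝ} (h : EB (fun q _ => 1 / c q)) (hc0 : ∀ q, 1 ≤ q → 0 < c q)
    (hc1 : ∀ q, 1 ≤ q → c q ≤ 1) : LB (fun q D => c q ^ D) := by
  have h1 : EB (fun q D => (1 / c q) ^ D) :=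
    EB.cpow h (fun q hq => by have := hc0 q hq; positivity)
  have h2 := LB.inv h1 (fun q D hq _ => one_le_pow₀ (by
    rw [le_div_iff₀ (hc0 q hq)]; have := hc1 q hq; linarith))
  have h3 : (fun q D : ℕ => 1 / (1 / c q) ^ D) = fun q D => c q ^ D := by
    funext q D; rw [← one_div_pow, one_div_one_div]
  rwa [h3] at h2

/-- a power of `1 - 1/(2K)` is small -/
lemma pow_small (K : ℝ) (hK : 1 ≤ K) (x : ℝ) (hx : 0 < x) (m : ℕ)
    (hm : 2 * K * (- Real.log x) ≤ m) : (1 - 1 / (2 * K)) ^ m ≤ x := by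
  have h0 : 0 < 2 * K := by linarith
  have h1 : 1 - 1 / (2 * K) ≤ Real.exp (-(1 / (2 * K))) := by
    have := Real.add_one_le_exp (-(1 / (2 * K)))
    linarith
  have h2 : 0 ≤ 1 - 1 / (2 * K) := by
    have : 1 / (2 * K) ≤ 1 := by rw [div_le_one h0]; linarith
    linarith
  calc (1 - 1 / (2 * K)) ^ m ≤ Real.exp (-(1 / (2 * K))) ^ m := pow_le_pow_left₀ h2 h1 m
    _ = Real.exp (m * (-(1 / (2 * K)))) := by rw [← Real.exp_nat_mul]
    _ ≤ Real.exp (Real.log x) := by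
        apply Real.exp_le_exp.mpr
        have h3 : (m : ℝ) * (-(1 / (2 * K))) = - (m / (2 * K)) := by ring
        rw [h3]
        have h4 : - Real.log x ≤ m / (2 * K) := by
          rw [le_div_iff₀ h0]; linarith
        linarith
    _ = x := Real.exp_log hx

/-- Bernoulli: enough increments exceed one -/
lemma bernoulli_big (x D : ℝ) (hx : 0 < x) (hD : 0 < D) (m : ℕ) (hm : 1 / (D * x) ≤ m) :
    1 < (1 + x) ^ m * D := by
  have h1 : 1 + m * x ≤ (1 + x) ^ m := one_add_mul_le_pow (by linarith) m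
  have h2 : 1 / D ≤ m * x := by
    rw [div_le_iff₀ (by positivity)] at hm
    rw [div_le_iff₀ hD]
    nlinarith
  have h3 : 1 ≤ m * x * D := by
    rw [div_le_iff₀ hD] at h2; exact h2
  nlinarith

end Pool.Agent.H21.Tile
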