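import Mathlib

/-! Balanced lower regular pairs and robust perfect matchings. -/

namespace Pool.Agent.H21.Tile

open Finset Classical

/-- number of pairs in relation, as a real number -/
noncomputable def ed {α β : Type*} (rel : α → β → Prop) (S : Finset α) (T : Finset β) : ℝ :=
  ∑ x ∈ S, ((T.filter (rel x)).card : ℝ)

variable {α β : Type*}

lemma ed_comm (rel : α → β → Prop) (S : Finset α) (T : Finset β) :
    ed rel S T = ∑ y ∈ T, ((S.filter (fun x => rel x y)).card : ℝ) := by
  unfold ed
  have : ∑ x ∈ S, (T.filter (rel x)).card = ∑ y ∈ T, (S.filter (fun x => rel x y)).card := by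
    simp only [card_filter]
    exact sum_comm
  exact_mod_cast this

lemma ed_nonneg (rel : α → β → Prop) (S : Finset α) (T : Finset β) : 0 ≤ ed rel S T :=
  sum_nonneg fun _ _ => Nat.cast_nonneg _

lemma ed_le (rel : α → β → Prop) (S : Finset α) (T : Finset β) :
    ed rel S T ≤ S.card * T.card := by
  unfold ed
  rw [← nsmul_eq_mul, ← sum_const]
  exact sum_le_sum fun x _ => by exact_mod_cast card_le_card (filter_subset _ _)

/-- Averaging over subsets of given size. -/
lemma avg_subset (f : α → ℝ) (s : ℕ) : ∀ (n : ℕ) (S : Finset α), S.card = s + n →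
    ∃ S' ⊆ S, S'.card = s ∧ s * ∑ x ∈ S, f x ≤ S.card * ∑ x ∈ S', f x := by
  intro n
  induction n with
  | zero => intro S hS; exact ⟨S, le_rfl, by simpa using hS, by rw [hS]; simp⟩
  | succ n ih =>
    intro S hS
    have hne : S.Nonempty := by rw [← card_pos]; omega
    obtain ⟨x, hx, hmin⟩ := exists_min_image S f hne
    have hc : (S.erase x).card = s + n := by rw [card_erase_of_mem hx]; omega
    obtain ⟨S', h1, h2, h3⟩ := ih (S.erase x) hc
    refine ⟨S', h1.trans (erase_subset _ _), h2, ?_⟩
    have h4 : (S.card : ℝ) * f x ≤ ∑ y ∈ S, f y := by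
      rw [← nsmul_eq_mul, ← sum_const]; exact sum_le_sum fun y hy => hmin y hy
    have h5 : ∑ y ∈ S, f y = f x + ∑ y ∈ S.erase x, f y := (add_sum_erase _ _ hx).symm
    have h6 : ((S.erase x).card : ℝ) = S.card - 1 := by
      rw [hc, hS]; push_cast; ring
    have h7 : (S.card : ℝ) = s + n + 1 := by rw [hS]; push_cast; ring
    have hs0 : (0:ℝ) ≤ s := Nat.cast_nonneg _
    have hn0 : (0:ℝ) ≤ n := Nat.cast_nonneg _
    -- (|S|-1) * Σ_S f ≤ |S| * Σ_{S1} f
    have h8 : (s + n : ℝ) * ∑ y ∈ S, f y ≤ S.card * ∑ y ∈ S.erase x, f y := by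
      rw [h7] at h4 ⊢
      nlinarith
    rw [h6, h7] at h3
    have h9 : (s:ℝ) * ((s + n) * ∑ y ∈ S, f y) ≤ (S.card : ℝ) * ((s + n) * ∑ x ∈ S', f x) := by
      calc (s:ℝ) * ((s + n) * ∑ y ∈ S, f y) ≤ s * (S.card * ∑ y ∈ S.erase x, f y) := by gcongr
        _ = S.card * (s * ∑ y ∈ S.erase x, f y) := by ring
        _ ≤ S.card * ((s + n) * ∑ x ∈ S', f x) :=
            mul_le_mul_of_nonneg_left (by linarith) (Nat.cast_nonneg _)
    by_cases hzero : (s + n : ℝ) = 0
    · have hs : (s:ℝ) = 0 := by linarith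
      have hs' : s = 0 := by exact_mod_cast hs
      have : S' = ∅ := by rw [← card_eq_zero, h2, hs']
      rw [this, hs]; simp
    · have hpos : (0:ℝ) < s + n := lt_of_le_of_ne (by linarith) (Ne.symm hzero)
      have : (s + n : ℝ) * (s * ∑ y ∈ S, f y) ≤ (s + n) * (S.card * ∑ x ∈ S', f x) := by
        calc (s + n : ℝ) * (s * ∑ y ∈ S, f y) = s * ((s + n) * ∑ y ∈ S, f y) := by ring
          _ ≤ _ := h9
          _ = _ := by ring
      exact le_of_mul_le_mul_left this hpos

lemma avg_subset' (f : α → ℝ) (S : Finset α) {s : ℕ} (hs : s ≤ S.card) :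
    ∃ S' ⊆ S, S'.card = s ∧ s * ∑ x ∈ S, f x ≤ S.card * ∑ x ∈ S', f x :=
  avg_subset f s (S.card - s) S (by omega)

lemma avg_subset_le (f : α → ℝ) (S : Finset α) {s : ℕ} (hs : s ≤ S.card) :
    ∃ S' ⊆ S, S'.card = s ∧ S.card * ∑ x ∈ S', f x ≤ s * ∑ x ∈ S, f x := by
  obtain ⟨S', h1, h2, h3⟩ := avg_subset' (fun x => - f x) S hs
  refine ⟨S', h1, h2, ?_⟩
  simp only [sum_neg_distrib] at h3
  linarith

/-- Passing to a subrectangle of given sizes without losing density. -/
lemma avg_rect (rel : α → β → Prop) (S : Finset α) (T : Finset β) {s t : ℕ} (hs : s ≤ S.card)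
    (ht : t ≤ T.card) : ∃ S' ⊆ S, ∃ T' ⊆ T, S'.card = s ∧ T'.card = t ∧
      (s * t) * ed rel S T ≤ (S.card * T.card) * ed rel S' T' := by
  obtain ⟨S', h1, h2, h3⟩ := avg_subset' (fun x => ((T.filter (rel x)).card : ℝ)) S hs
  obtain ⟨T', h4, h5, h6⟩ := avg_subset' (fun y => ((S'.filter (fun x => rel x y)).card : ℝ)) T ht
  refine ⟨S', h1, T', h4, h2, h5, ?_⟩
  rw [← ed_comm, ← ed_comm] at h6
  change (s:ℝ) * ed rel S T ≤ S.card * ed rel S' T at h3
  have hs0 : (0:ℝ) ≤ s := Nat.cast_nonneg _
  calc (s * t : ℝ) * ed rel S T = t * (s * ed rel S T) := by ring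
    _ ≤ t * (S.card * ed rel S' T) := by gcongr
    _ = S.card * (t * ed rel S' T) := by ring
    _ ≤ S.card * (T.card * ed rel S' T') := by gcongr
    _ = _ := by ring

lemma avg_rect_le (rel : α → β → Prop) (S : Finset α) (T : Finset β) {s t : ℕ} (hs : s ≤ S.card)
    (ht : t ≤ T.card) : ∃ S' ⊆ S, ∃ T' ⊆ T, S'.card = s ∧ T'.card = t ∧
      (S.card * T.card) * ed rel S' T' ≤ (s * t) * ed rel S T := by
  obtain ⟨S', h1, h2, h3⟩ := avg_subset_le (fun x => ((T.filter (rel x)).card : ℝ)) S hs
  obtain ⟨T', h4, h5, h6⟩ := avg_subset_le (fun y => ((S'.filter (fun x => rel x y)).card : ℝ)) T ht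
  refine ⟨S', h1, T', h4, h2, h5, ?_⟩
  rw [← ed_comm, ← ed_comm] at h6
  change (S.card:ℝ) * ed rel S' T ≤ s * ed rel S T at h3
  calc (S.card * T.card : ℝ) * ed rel S' T' = S.card * (T.card * ed rel S' T') := by ring
    _ ≤ S.card * (t * ed rel S' T) := by gcongr
    _ = t * (S.card * ed rel S' T) := by ring
    _ ≤ t * (s * ed rel S T) := by gcongr
    _ = _ := by ring

lemma ed_union_right (rel : α → β → Prop) (S : Finset α) {T B : Finset β} (hB : B ⊆ T) :
    ed rel S T = ed rel S B + ed rel S (T \ B) := by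
  unfold ed
  rw [← sum_add_distrib]
  apply sum_congr rfl
  intro x _
  have h : T.filter (rel x) = B.filter (rel x) ∪ (T \ B).filter (rel x) := by
    rw [← filter_union, union_sdiff_of_subset hB]
  rw [h, card_union_of_disjoint]
  · push_cast; ring
  · exact disjoint_filter_filter disjoint_sdiff

lemma ed_union_left (rel : α → β → Prop) {S A : Finset α} (T : Finset β) (hA : A ⊆ S) :
    ed rel S T = ed rel A T + ed rel (S \ A) T := by
  unfold ed
  rw [add_comm, sum_sdiff hA]

/-- Balanced lower regular pair by density increment. -/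
theorem balreg (rel : α → β → Prop) (ε : ℝ) (hε : 0 < ε) (hε1 : ε ≤ 1 / 4) (m : ℕ) :
    ∀ (d : ℝ) (S : Finset α) (T : Finset β), 0 < d → S.Nonempty → S.card = T.card →
      1 < (1 + ε ^ 2 / 2) ^ m * d → d * (S.card * T.card) ≤ ed rel S T →
      ∃ S' ⊆ S, ∃ T' ⊆ T, S'.Nonempty ∧ S'.card = T'.card ∧ ε ^ m * S.card ≤ (S'.card : ℝ) ∧
        ∀ A ⊆ S', ∀ B ⊆ T', ε * S'.card ≤ (A.card : ℝ) → ε * T'.card ≤ (B.card : ℝ) →
          d / 2 * (A.card * B.card) ≤ ed rel A B := by
  induction m with
  | zero =>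
    intro d S T hd hS hST hdm hed
    exfalso
    have h1 := ed_le rel S T
    have h2 : (0:ℝ) < S.card := by exact_mod_cast card_pos.mpr hS
    have h3 : (0:ℝ) < T.card := by rw [← hST]; exact h2
    have h4 : (0:ℝ) < S.card * T.card := by positivity
    simp only [pow_zero, one_mul] at hdm
    nlinarith
  | succ m ih =>
    intro d S T hd hS hST hdm hed
    by_cases hreg : ∀ A ⊆ S, ∀ B ⊆ T, ε * S.card ≤ (A.card : ℝ) → ε * T.card ≤ (B.card : ℝ) →
          d / 2 * (A.card * B.card) ≤ ed rel A B
    · refine ⟨S, le_rfl, T, le_rfl, hS, hST, ?_, hreg⟩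
      have : ε ^ (m + 1) ≤ 1 := pow_le_one₀ hε.le (by linarith)
      have h2 : (0:ℝ) ≤ S.card := Nat.cast_nonneg _
      nlinarith
    · push Not at hreg
      obtain ⟨A, hA, B, hB, hAε, hBε, hAB⟩ := hreg
      set n := S.card with hn
      have hTn : T.card = n := hST.symm
      have hnpos : 0 < n := card_pos.mpr hS
      have hnR : (0:ℝ) < n := by exact_mod_cast hnpos
      set s := ⌈ε * n⌉₊ with hs
      have hsA : s ≤ A.card := Nat.ceil_le.mpr hAε
      have hsB : s ≤ B.card := Nat.ceil_le.mpr (by rw [hTn] at hBε; exact hBε)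
      have hsn : ε * n ≤ (s : ℝ) := Nat.le_ceil _
      have hspos : 0 < s := Nat.ceil_pos.mpr (by positivity)
      have hsR : (0:ℝ) < s := by exact_mod_cast hspos
      have hslt : (s : ℝ) < ε * n + 1 := Nat.ceil_lt_add_one (by positivity)
      obtain ⟨A1, hA1, B1, hB1, hA1c, hB1c, hAB1⟩ := avg_rect_le rel A B hsA hsB
      have hA1S := hA1.trans hA
      have hB1T := hB1.trans hB
      have hApos : (0:ℝ) < A.card := lt_of_lt_of_le hsR (by exact_mod_cast hsA)
      have hBpos : (0:ℝ) < B.card := lt_of_lt_of_le hsR (by exact_mod_cast hsB)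
      -- density of (A1,B1) is small
      have hsmall : ed rel A1 B1 < d / 2 * (s * s) := by
        have h1 : (A.card * B.card : ℝ) * ed rel A1 B1 < (A.card * B.card) * (d / 2 * (s * s)) := by
          calc (A.card * B.card : ℝ) * ed rel A1 B1 ≤ (s * s) * ed rel A B := hAB1
            _ < (s * s) * (d / 2 * (A.card * B.card)) := by
                apply mul_lt_mul_of_pos_left hAB (by positivity)
            _ = _ := by ring
        exact lt_of_mul_lt_mul_left h1 (by positivity)
      have hsle : s ≤ n := by rw [← hA1c]; exact card_le_card hA1S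
      have hc1 : ((S \ A1).card : ℝ) = n - s := by
        rw [card_sdiff_of_subset hA1S, hA1c, ← hn, Nat.cast_sub hsle]
      have hc2 : ((T \ B1).card : ℝ) = n - s := by
        rw [card_sdiff_of_subset hB1T, hB1c, hTn, Nat.cast_sub hsle]
      have hdec : ed rel S T = ed rel A1 B1 + ed rel A1 (T \ B1) + ed rel (S \ A1) T := by
        rw [ed_union_left rel T hA1S, ed_union_right rel A1 hB1T]
      rw [hTn] at hed
      -- one of the two other rectangles is denser
      set ξ := ε ^ 2 / 2 with hξ
      have hξ0 : 0 < ξ := by positivity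
      have hor : (1 + ξ) * d * (s * (n - s)) < ed rel A1 (T \ B1) ∨
          (1 + ξ) * d * ((n - s) * n) < ed rel (S \ A1) T := by
        by_contra hcon
        push Not at hcon
        obtain ⟨h1, h2⟩ := hcon
        have h3 : d * (n * n) < d / 2 * (s * s) + (1 + ξ) * d * (s * (n - s)) +
            (1 + ξ) * d * ((n - s) * n) := by linarith
        have h4 : (1 + ξ) * d * (s * (n - s)) + (1 + ξ) * d * ((n - s) * n) =
            d * (n * n) - d * (s * s) + ξ * d * (n * n - s * s) := by ring
        have h5 : ε ^ 2 * (n * n) ≤ (s * s : ℝ) := by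
          calc ε ^ 2 * (n * n) = (ε * n) * (ε * n) := by ring
            _ ≤ s * s := mul_self_le_mul_self (by positivity) hsn
        have h6 : ξ * d * (n * n - s * s) ≤ d / 2 * (s * s) := by
          rw [hξ]
          have h7 : ε ^ 2 / 2 * d * (n * n - s * s) = d / 2 * (ε ^ 2 * (n * n)) -
            ε ^ 2 / 2 * d * (s * s) := by ring
          have h8 : 0 ≤ ε ^ 2 / 2 * d * (s * s) := by positivity
          have h9 : d / 2 * (ε ^ 2 * (n * n)) ≤ d / 2 * (s * s) := by gcongr
          linarith
        linarith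
      -- then `n ≥ 2` and `s ≤ n - s`
      have hns : s < n := by
        by_contra hcon
        have hsn' : s = n := le_antisymm hsle (not_lt.mp hcon)
        have : (s:ℝ) = n := by exact_mod_cast hsn'
        have hT0 : T \ B1 = ∅ := by
          rw [← card_eq_zero]; have := hc2; rw [‹(s:ℝ) = n›] at this
          have : ((T \ B1).card : ℝ) = 0 := by linarith
          exact_mod_cast this
        have hS0 : S \ A1 = ∅ := by
          rw [← card_eq_zero]; have := hc1; rw [‹(s:ℝ) = n›] at this
          have : ((S \ A1).card : ℝ) = 0 := by linarith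
          exact_mod_cast this
        rcases hor with h | h
        · rw [hT0, this] at h; simp [ed] at h
        · rw [hS0, this] at h; simp [ed] at h
      have hs2 : s ≤ n - s := by
        have h1 : (s:ℝ) < n / 4 + 1 := by
          have : ε * n ≤ n / 4 := by nlinarith
          linarith
        have h2 : (4 * s : ℝ) < n + 4 := by linarith
        have h3 : 4 * s < n + 4 := by exact_mod_cast h2
        omega
      have hnsR : (0:ℝ) < n - s := by
        have : (s:ℝ) < n := by exact_mod_cast hns
        linarith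
      -- dense square of side `s`
      obtain ⟨S1, hS1, T1, hT1, hS1c, hT1c, hd1⟩ : ∃ S1 ⊆ S, ∃ T1 ⊆ T, S1.card = s ∧ T1.card = s ∧
          (1 + ξ) * d * (s * s) ≤ ed rel S1 T1 := by
        rcases hor with h | h
        · obtain ⟨S1, h1, T1, h2, h3, h4, h5⟩ := avg_rect rel A1 (T \ B1) (s := s) (t := s)
            (by rw [hA1c]) (by
              have : ((s:ℕ):ℝ) ≤ ((T \ B1).card : ℝ) := by
                rw [hc2]
                have : ((s:ℕ):ℝ) ≤ ((n - s : ℕ) : ℝ) := by exact_mod_cast hs2
                rwa [Nat.cast_sub hsle] at this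
              exact_mod_cast this)
          refine ⟨S1, h1.trans hA1S, T1, h2.trans sdiff_subset, h3, h4, ?_⟩
          rw [hA1c, hc2] at h5
          have h6 : (s * s : ℝ) * ((1 + ξ) * d * (s * (n - s))) ≤ (s * (n - s)) * ed rel S1 T1 :=
            le_trans (by gcongr) h5
          have h7 : (s * (n - s) : ℝ) * ((1 + ξ) * d * (s * s)) ≤ (s * (n - s)) * ed rel S1 T1 := by
            refine le_trans (le_of_eq ?_) h6
            ring
          exact le_of_mul_le_mul_left h7 (by positivity)
        · obtain ⟨S1, h1, T1, h2, h3, h4, h5⟩ := avg_rect rel (S \ A1) T (s := s) (t := s)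
            (by
              have : ((s:ℕ):ℝ) ≤ ((S \ A1).card : ℝ) := by
                rw [hc1]
                have : ((s:ℕ):ℝ) ≤ ((n - s : ℕ) : ℝ) := by exact_mod_cast hs2
                rwa [Nat.cast_sub hsle] at this
              exact_mod_cast this) (by rw [hTn]; exact hsle)
          refine ⟨S1, h1.trans sdiff_subset, T1, h2, h3, h4, ?_⟩
          rw [hc1, hTn] at h5
          have h6 : (s * s : ℝ) * ((1 + ξ) * d * ((n - s) * n)) ≤ ((n - s) * n) * ed rel S1 T1 :=
            le_trans (by gcongr) h5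
          have h7 : ((n - s) * n : ℝ) * ((1 + ξ) * d * (s * s)) ≤ ((n - s) * n) * ed rel S1 T1 := by
            refine le_trans (le_of_eq ?_) h6
            ring
          exact le_of_mul_le_mul_left h7 (by positivity)
      obtain ⟨S', h1, T', h2, h3, h4, h5, h6⟩ := ih ((1 + ξ) * d) S1 T1 (by positivity)
        (by rw [← card_pos, hS1c]; exact hspos) (by rw [hS1c, hT1c]) (by
          have : (1 + ξ) ^ m * ((1 + ξ) * d) = (1 + ξ) ^ (m + 1) * d := by ring
          rw [this]; exact hdm) (by rw [hS1c, hT1c]; exact hd1)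
      refine ⟨S', h1.trans hS1, T', h2.trans hT1, h3, h4, ?_, ?_⟩
      · refine le_trans ?_ h5
        rw [hS1c]
        calc ε ^ (m + 1) * n = ε ^ m * (ε * n) := by ring
          _ ≤ ε ^ m * s := by gcongr
      · intro A' hA' B' hB' hA'ε hB'ε
        refine le_trans ?_ (h6 A' hA' B' hB' hA'ε hB'ε)
        have h7 : d ≤ (1 + ξ) * d := by nlinarith
        have h8 : (0:ℝ) ≤ A'.card * B'.card := by positivity
        exact mul_le_mul_of_nonneg_right (by linarith) h8

end Pool.Agent.H21.Tile
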