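import Mathlib

/-! Dependent random choice, one step. -/

namespace Pool.Agent.H21.Tile

open Finset Classical

theorem drc_step {α : Type*} {k : ℕ} (col : α → α → Fin k) (U : Finset α) (hU : U.Nonempty)
    (Δ : ℕ) (hΔ : 0 < Δ) (ζ : ℝ) (hζ : 0 < ζ) :
    ∃ c : Fin k, ∃ U' ⊆ U, (U.card : ℝ) / (2 * (k : ℝ) ^ Δ) ≤ U'.card ∧
      (((Fintype.piFinset (fun _ : Fin Δ => U')).filter (fun x =>
        ((U.filter (fun w => ∀ i, col (x i) w = c)).card : ℝ) <
          ζ / (2 * (k : ℝ) ^ Δ) * U.card)).card : ℝ) ≤ ζ ^ Δ * (U'.card : ℝ) ^ Δ := by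
  obtain ⟨u0, hu0⟩ := hU
  have hkpos : 0 < k := Fin.pos (col u0 u0)
  have hk : (0:ℝ) < k := by exact_mod_cast hkpos
  set n : ℝ := (U.card : ℝ) with hn
  have hnpos : 0 < n := by rw [hn]; exact_mod_cast card_pos.mpr ⟨u0, hu0⟩
  set K : ℝ := (k : ℝ) ^ Δ with hK
  have hKpos : 0 < K := by positivity
  -- a popular colour
  obtain ⟨c, hc⟩ : ∃ c : Fin k, n * n / k ≤
      ∑ x ∈ U, ((U.filter (fun w => col x w = c)).card : ℝ) := by
    by_contra hcon
    push Not at hcon
    have h1 : ∑ c : Fin k, ∑ x ∈ U, ((U.filter (fun w => col x w = c)).card : ℝ) <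
        ∑ c : Fin k, n * n / k :=
      sum_lt_sum_of_nonempty ⟨col u0 u0, mem_univ _⟩ fun c _ => hcon c
    rw [sum_comm] at h1
    have h2 : ∀ x ∈ U, ∑ c : Fin k, ((U.filter (fun w => col x w = c)).card : ℝ) = n := by
      intro x _
      have : U.card = ∑ c : Fin k, (U.filter (fun w => col x w = c)).card :=
        card_eq_sum_card_fiberwise (fun _ _ => mem_univ _)
      rw [hn, this]; push_cast; rfl
    rw [sum_congr rfl h2, sum_const, sum_const, nsmul_eq_mul, nsmul_eq_mul, card_univ,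
      Fintype.card_fin, ← hn] at h1
    have : (k:ℝ) * (n * n / k) = n * n := by field_simp
    linarith
  set P := Fintype.piFinset (fun _ : Fin Δ => U) with hP
  have hPcard : (P.card : ℝ) = n ^ Δ := by
    rw [hP, Fintype.card_piFinset_const]; push_cast; rfl
  have hPne : P.Nonempty := ⟨fun _ => u0, by rw [hP, Fintype.mem_piFinset]; exact fun _ => hu0⟩
  set A : (Fin Δ → α) → Finset α := fun w => U.filter (fun x => ∀ i, col x (w i) = c) with hA
  set bad : (Fin Δ → α) → Prop := fun x =>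
    ((U.filter (fun w => ∀ i, col (x i) w = c)).card : ℝ) < ζ / (2 * K) * n with hbad
  -- first moment
  have h1 : ∑ w ∈ P, ((A w).card : ℝ) =
      ∑ x ∈ U, ((U.filter (fun w => col x w = c)).card : ℝ) ^ Δ := by
    have e1 : ∑ w ∈ P, (A w).card = ∑ x ∈ U, (P.filter (fun w => ∀ i, col x (w i) = c)).card := by
      simp only [hA, card_filter]
      exact sum_comm
    have e2 : ∀ x ∈ U, (P.filter (fun w => ∀ i, col x (w i) = c)).card =
        (U.filter (fun w => col x w = c)).card ^ Δ := by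
      intro x _
      rw [← Fintype.card_piFinset_const]
      congr 1
      ext w
      simp only [hP, mem_filter, Fintype.mem_piFinset]
      exact ⟨fun h i => ⟨h.1 i, h.2 i⟩, fun h => ⟨fun i => (h i).1, fun i => (h i).2⟩⟩
    rw [sum_congr rfl e2] at e1
    exact_mod_cast e1
  -- bad tuples
  have h2 : ∑ w ∈ P, ((((Fintype.piFinset (fun _ : Fin Δ => A w)).filter bad).card : ℕ) : ℝ) ≤
      n ^ Δ * (ζ / (2 * K) * n) ^ Δ := by
    have e1 : ∑ w ∈ P, ((Fintype.piFinset (fun _ : Fin Δ => A w)).filter bad).card =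
        ∑ w ∈ P, ((P.filter bad).filter (fun x => ∀ i j, col (x i) (w j) = c)).card := by
      apply sum_congr rfl
      intro w _
      congr 1
      ext x
      simp only [hP, hA, mem_filter, Fintype.mem_piFinset]
      exact ⟨fun h => ⟨⟨fun i => (h.1 i).1, h.2⟩, fun i => (h.1 i).2⟩,
        fun h => ⟨fun i => ⟨h.1.1 i, h.2 i⟩, h.1.2⟩⟩
    have e2 : ∑ w ∈ P, ((P.filter bad).filter (fun x => ∀ i j, col (x i) (w j) = c)).card =
        ∑ x ∈ P.filter bad, (P.filter (fun w => ∀ i j, col (x i) (w j) = c)).card := by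
      simp only [card_filter]
      rw [sum_comm]
    have e3 : ∀ x ∈ P.filter bad, (((P.filter (fun w => ∀ i j, col (x i) (w j) = c)).card : ℕ) : ℝ)
        ≤ (ζ / (2 * K) * n) ^ Δ := by
      intro x hx
      rw [mem_filter] at hx
      have : P.filter (fun w => ∀ i j, col (x i) (w j) = c) =
          Fintype.piFinset (fun _ : Fin Δ => U.filter (fun w => ∀ i, col (x i) w = c)) := by
        ext w
        simp only [hP, mem_filter, Fintype.mem_piFinset]
        exact ⟨fun h j => ⟨h.1 j, fun i => h.2 i j⟩, fun h => ⟨fun j => (h j).1, fun i j => (h j).2 i⟩⟩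
      rw [this, Fintype.card_piFinset_const]
      push_cast
      exact pow_le_pow_left₀ (Nat.cast_nonneg _) hx.2.le _
    have e4 : ∑ w ∈ P, ((((Fintype.piFinset (fun _ : Fin Δ => A w)).filter bad).card : ℕ) : ℝ) =
        ∑ x ∈ P.filter bad, (((P.filter (fun w => ∀ i j, col (x i) (w j) = c)).card : ℕ) : ℝ) := by
      exact_mod_cast e1.trans e2
    rw [e4]
    refine (sum_le_sum e3).trans ?_
    rw [sum_const, nsmul_eq_mul]
    have : ((P.filter bad).card : ℝ) ≤ n ^ Δ := by
      rw [← hPcard]; exact_mod_cast card_le_card (filter_subset _ _)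
    gcongr
  -- power means
  obtain ⟨e, rfl⟩ : ∃ e, Δ = e + 1 := ⟨Δ - 1, by omega⟩
  have h3 : n ^ (e + 2) / K ≤ ∑ w ∈ P, ((A w).card : ℝ) := by
    rw [h1]
    have e1 := pow_sum_div_card_le_sum_pow (s := U)
      (f := fun x => ((U.filter (fun w => col x w = c)).card : ℝ)) (fun _ _ => Nat.cast_nonneg _) e
    refine le_trans ?_ e1
    rw [← hn, le_div_iff₀ (by positivity)]
    calc n ^ (e + 2) / K * n ^ e = (n * n / k) ^ (e + 1) := by
          rw [hK, div_pow, ← mul_pow_sub_one (by omega : e + 1 ≠ 0)]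
          simp only [Nat.add_sub_cancel]
          rw [mul_pow, pow_succ (n) (e+1), pow_succ n e]
          field_simp
      _ ≤ _ := pow_le_pow_left₀ (by positivity) hc _
  have h4 : n ^ (2 * (e + 1)) / K ^ (e + 1) ≤ ∑ w ∈ P, ((A w).card : ℝ) ^ (e + 1) := by
    have e1 := pow_sum_div_card_le_sum_pow (s := P)
      (f := fun w => ((A w).card : ℝ)) (fun _ _ => Nat.cast_nonneg _) e
    refine le_trans ?_ e1
    rw [hPcard, le_div_iff₀ (by positivity)]
    calc n ^ (2 * (e + 1)) / K ^ (e + 1) * (n ^ (e + 1)) ^ e = (n ^ (e + 2) / K) ^ (e + 1) := by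
          rw [div_pow, ← pow_mul n (e + 2) (e + 1), ← pow_mul n (e + 1) e, div_mul_eq_mul_div,
            ← pow_add]
          congr 2
          ring
      _ ≤ _ := pow_le_pow_left₀ (by positivity) h3 _
  -- conclusion
  by_contra hcon
  push Not at hcon
  have h5 : ∀ w ∈ P, ((A w).card : ℝ) ^ (e + 1) <
      (((Fintype.piFinset (fun _ : Fin (e + 1) => A w)).filter bad).card : ℝ) / ζ ^ (e + 1) +
        (n / (2 * K)) ^ (e + 1) := by
    intro w hw
    by_cases hlt : n / (2 * K) ≤ ((A w).card : ℝ)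
    · have h6 := hcon c (A w) (filter_subset _ _) hlt
      have h7 : ((A w).card : ℝ) ^ (e + 1) <
          (((Fintype.piFinset (fun _ : Fin (e + 1) => A w)).filter bad).card : ℝ) / ζ ^ (e + 1) := by
        rw [lt_div_iff₀ (by positivity)]
        calc ((A w).card : ℝ) ^ (e + 1) * ζ ^ (e + 1) = ζ ^ (e + 1) * ((A w).card : ℝ) ^ (e + 1) := by
              ring
          _ < _ := h6
      have h8 : 0 < (n / (2 * K)) ^ (e + 1) := by positivity
      linarith
    · push Not at hlt
      have h6 : ((A w).card : ℝ) ^ (e + 1) < (n / (2 * K)) ^ (e + 1) :=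
        pow_lt_pow_left₀ hlt (Nat.cast_nonneg _) (by omega)
      have h7 : 0 ≤ (((Fintype.piFinset (fun _ : Fin (e + 1) => A w)).filter bad).card : ℝ) /
          ζ ^ (e + 1) := by positivity
      linarith
  have h6 := sum_lt_sum_of_nonempty hPne h5
  rw [sum_add_distrib, ← sum_div, sum_const, nsmul_eq_mul, hPcard] at h6
  have h7 : (∑ w ∈ P, ((((Fintype.piFinset (fun _ : Fin (e + 1) => A w)).filter bad).card : ℕ) : ℝ))
      / ζ ^ (e + 1) ≤ n ^ (e + 1) * (n / (2 * K)) ^ (e + 1) := by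
    rw [div_le_iff₀ (by positivity)]
    refine h2.trans (le_of_eq ?_)
    have e1 : ζ / (2 * K) * n = n / (2 * K) * ζ := by ring
    rw [e1, mul_pow]
    ring
  have h8 : n ^ (e + 1) * (n / (2 * K)) ^ (e + 1) + n ^ (e + 1) * (n / (2 * K)) ^ (e + 1) ≤
      n ^ (2 * (e + 1)) / K ^ (e + 1) := by
    have e1 : n ^ (e + 1) * (n / (2 * K)) ^ (e + 1) =
        (n ^ (2 * (e + 1)) / K ^ (e + 1)) * (1 / 2) ^ (e + 1) := by
      rw [← mul_pow, pow_mul, ← div_pow, ← mul_pow]
      congr 1
      field_simp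
    rw [e1]
    have e2 : (1 / 2 : ℝ) ^ (e + 1) ≤ 1 / 2 := by
      rw [pow_succ]
      have : (1 / 2 : ℝ) ^ e ≤ 1 := pow_le_one₀ (by norm_num) (by norm_num)
      linarith
    have e3 : 0 < n ^ (2 * (e + 1)) / K ^ (e + 1) := by positivity
    nlinarith
  linarith

end Pool.Agent.H21.Tile
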