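import Pool.Agent.H21.Tile.Bal

/-! Robust perfect matchings from balanced lower regular pairs. -/

namespace Pool.Agent.H21.Tile

open Finset Classical

variable {α β : Type*}

theorem robust_matching (rel : α → β → Prop) (S : Finset α) (T : Finset β) (n g e : ℕ)
    (hS : S.card = n) (hT : T.card = n) (ε γ : ℝ) (hγ : 0 < γ) (he : ε * n ≤ e) (he0 : 0 < e)
    (hreg : ∀ A ⊆ S, ∀ B ⊆ T, ε * n ≤ (A.card : ℝ) → ε * n ≤ (B.card : ℝ) →
          γ * (A.card * B.card) ≤ ed rel A B)
    (hsize : (2 * e + g : ℝ) ≤ γ * n) (hγ1 : γ ≤ 1) :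
    ∃ Q ⊆ S, ∃ Φ ⊆ T, Q.card = n - e - g ∧ Φ.card = n - e ∧ Φ.card = Q.card + g ∧
      ∀ Φ' ⊆ Φ, Φ'.card = Q.card → ∃ ψ : Q → β, Function.Injective ψ ∧
        ∀ x : Q, ψ x ∈ Φ' ∧ rel x (ψ x) := by
  have hnR : (0:ℝ) ≤ n := Nat.cast_nonneg _
  have heR : (0:ℝ) < e := by exact_mod_cast he0
  have hgR : (0:ℝ) ≤ g := Nat.cast_nonneg _
  have hn2 : (2 * e + g : ℝ) ≤ n := hsize.trans (by nlinarith)
  have hn2' : 2 * e + g ≤ n := by exact_mod_cast hn2
  have hnpos : (0:ℝ) < n := by linarith
  -- low degree vertices are few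
  set Sb := S.filter (fun x => ((T.filter (rel x)).card : ℝ) < γ * n) with hSb
  set Tb := T.filter (fun y => ((S.filter (fun x => rel x y)).card : ℝ) < γ * n) with hTb
  have hSbc : Sb.card < e := by
    by_contra hcon
    push Not at hcon
    have hconR : (e:ℝ) ≤ Sb.card := by exact_mod_cast hcon
    have h1 := hreg Sb (filter_subset _ _) T le_rfl (he.trans hconR) (by
      rw [hT]
      calc ε * n ≤ e := he
        _ ≤ n := by linarith)
    have hne : Sb.Nonempty := by rw [← card_pos]; omega
    have h2 : ed rel Sb T < ∑ x ∈ Sb, γ * n := by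
      apply sum_lt_sum_of_nonempty hne
      intro x hx
      rw [hSb, mem_filter] at hx
      exact hx.2
    rw [sum_const, nsmul_eq_mul] at h2
    rw [hT] at h1
    have : γ * (Sb.card * n) = Sb.card * (γ * n) := by ring
    linarith
  have hTbc : Tb.card < e := by
    by_contra hcon
    push Not at hcon
    have hconR : (e:ℝ) ≤ Tb.card := by exact_mod_cast hcon
    have h1 := hreg S le_rfl Tb (filter_subset _ _) (by
      rw [hS]
      calc ε * n ≤ e := he
        _ ≤ n := by linarith) (he.trans hconR)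
    have hne : Tb.Nonempty := by rw [← card_pos]; omega
    rw [ed_comm] at h1
    have h2 : ∑ y ∈ Tb, ((S.filter (fun x => rel x y)).card : ℝ) < ∑ x ∈ Tb, γ * n := by
      apply sum_lt_sum_of_nonempty hne
      intro x hx
      rw [hTb, mem_filter] at hx
      exact hx.2
    rw [sum_const, nsmul_eq_mul] at h2
    rw [hS] at h1
    have : γ * (n * Tb.card) = Tb.card * (γ * n) := by ring
    linarith
  -- choose the sets
  have hc1 : n - e ≤ (T \ Tb).card := by
    have := card_sdiff_add_card_eq_card (filter_subset (fun y =>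
      ((S.filter (fun x => rel x y)).card : ℝ) < γ * n) T)
    rw [← hTb, hT] at this
    omega
  have hc2 : n - e - g ≤ (S \ Sb).card := by
    have := card_sdiff_add_card_eq_card (filter_subset (fun x =>
      ((T.filter (rel x)).card : ℝ) < γ * n) S)
    rw [← hSb, hS] at this
    omega
  obtain ⟨Φ, hΦ, hΦc⟩ := exists_subset_card_eq hc1
  obtain ⟨Q, hQ, hQc⟩ := exists_subset_card_eq hc2
  refine ⟨Q, hQ.trans sdiff_subset, Φ, hΦ.trans sdiff_subset, hQc, hΦc, by omega, ?_⟩
  intro Φ' hΦ' hΦ'c
  have hΦ'T : Φ' ⊆ T := hΦ'.trans (hΦ.trans sdiff_subset)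
  have hQS : Q ⊆ S := hQ.trans sdiff_subset
  -- degrees
  have hdegQ : ∀ x ∈ Q, (e:ℝ) ≤ ((Φ'.filter (rel x)).card : ℝ) := by
    intro x hx
    have h1 := mem_sdiff.mp (hQ hx)
    have h2 : γ * n ≤ ((T.filter (rel x)).card : ℝ) := by
      by_contra hcon
      push Not at hcon
      exact h1.2 (by rw [hSb, mem_filter]; exact ⟨h1.1, hcon⟩)
    have h3 : (T.filter (rel x)).card ≤ (Φ'.filter (rel x)).card + (T \ Φ').card := by
      have : T.filter (rel x) ⊆ Φ'.filter (rel x) ∪ (T \ Φ') := by
        intro y hy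
        rw [mem_filter] at hy
        by_cases hyΦ : y ∈ Φ'
        · exact mem_union_left _ (mem_filter.mpr ⟨hyΦ, hy.2⟩)
        · exact mem_union_right _ (mem_sdiff.mpr ⟨hy.1, hyΦ⟩)
      exact (card_le_card this).trans (card_union_le _ _)
    have h4 : (T \ Φ').card = e + g := by
      rw [card_sdiff_of_subset hΦ'T, hT, hΦ'c, hQc]; omega
    rw [h4] at h3
    have h5 : ((T.filter (rel x)).card : ℝ) ≤ (Φ'.filter (rel x)).card + (e + g) := by
      exact_mod_cast h3
    linarith
  have hdegΦ : ∀ y ∈ Φ', (e:ℝ) ≤ ((Q.filter (fun x => rel x y)).card : ℝ) := by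
    intro y hy
    have h1 := mem_sdiff.mp (hΦ (hΦ' hy))
    have h2 : γ * n ≤ ((S.filter (fun x => rel x y)).card : ℝ) := by
      by_contra hcon
      push Not at hcon
      exact h1.2 (by rw [hTb, mem_filter]; exact ⟨h1.1, hcon⟩)
    have h3 : (S.filter (fun x => rel x y)).card ≤ (Q.filter (fun x => rel x y)).card +
        (S \ Q).card := by
      have : S.filter (fun x => rel x y) ⊆ Q.filter (fun x => rel x y) ∪ (S \ Q) := by
        intro x hx
        rw [mem_filter] at hx
        by_cases hxQ : x ∈ Q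
        · exact mem_union_left _ (mem_filter.mpr ⟨hxQ, hx.2⟩)
        · exact mem_union_right _ (mem_sdiff.mpr ⟨hx.1, hxQ⟩)
      exact (card_le_card this).trans (card_union_le _ _)
    have h4 : (S \ Q).card = e + g := by
      rw [card_sdiff_of_subset hQS, hS, hQc]; omega
    rw [h4] at h3
    have h5 : ((S.filter (fun x => rel x y)).card : ℝ) ≤
        (Q.filter (fun x => rel x y)).card + (e + g) := by
      exact_mod_cast h3
    linarith
  -- Hall
  have hall := (Finset.all_card_le_biUnion_card_iff_exists_injective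
    (fun x : Q => Φ'.filter (rel x))).mp ?_
  · obtain ⟨ψ, hψ, hψ2⟩ := hall
    refine ⟨ψ, hψ, fun x => ?_⟩
    have := hψ2 x
    rw [mem_filter] at this
    exact this
  · intro s
    set A : Finset α := s.map (Function.Embedding.subtype _) with hA
    have hAc : A.card = s.card := card_map _
    have hAQ : A ⊆ Q := by
      intro x hx
      rw [hA, mem_map] at hx
      obtain ⟨y, _, rfl⟩ := hx
      exact y.2
    set N := s.biUnion (fun x : Q => Φ'.filter (rel x)) with hN
    have hNsub : N ⊆ Φ' := by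
      intro y hy
      rw [hN, mem_biUnion] at hy
      obtain ⟨x, _, hx⟩ := hy
      exact (mem_filter.mp hx).1
    rw [← hAc]
    by_cases hAe : A = ∅
    · rw [hAe]; simp
    obtain ⟨x0, hx0⟩ := nonempty_iff_ne_empty.mpr hAe
    have hxs : ∃ x : Q, x ∈ s ∧ (x : α) = x0 := by
      rw [hA, mem_map] at hx0
      obtain ⟨y, hy, hyx⟩ := hx0
      exact ⟨y, hy, hyx⟩
    obtain ⟨x1, hx1s, hx1⟩ := hxs
    have hNe : e ≤ N.card := by
      have h1 : Φ'.filter (rel x1) ⊆ N := by
        rw [hN]; exact subset_biUnion_of_mem (fun x : Q => Φ'.filter (rel x)) hx1s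
      have h2 := hdegQ x1 x1.2
      have h3 : e ≤ (Φ'.filter (rel x1)).card := by exact_mod_cast h2
      exact h3.trans (card_le_card h1)
    by_cases hAsmall : A.card ≤ e
    · exact hAsmall.trans hNe
    push Not at hAsmall
    set B := Φ' \ N with hB
    have hBc : B.card + N.card = Φ'.card := card_sdiff_add_card_eq_card hNsub
    have hzero : ed rel A B = 0 := by
      unfold ed
      apply sum_eq_zero
      intro x hx
      have hx' : ∃ y : Q, y ∈ s ∧ (y : α) = x := by
        rw [hA, mem_map] at hx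
        obtain ⟨y, hy, hyx⟩ := hx
        exact ⟨y, hy, hyx⟩
      obtain ⟨y, hys, rfl⟩ := hx'
      have : B.filter (rel y) = ∅ := by
        rw [filter_eq_empty_iff]
        intro z hz hrel
        rw [hB, mem_sdiff] at hz
        apply hz.2
        rw [hN, mem_biUnion]
        exact ⟨y, hys, mem_filter.mpr ⟨hz.1, hrel⟩⟩
      rw [this]; simp
    have hBlt : B.card < e := by
      by_contra hcon
      push Not at hcon
      have hconR : (e:ℝ) ≤ B.card := by exact_mod_cast hcon
      have hAR : (e:ℝ) ≤ A.card := by exact_mod_cast hAsmall.le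
      have h1 := hreg A (hAQ.trans hQS) B (sdiff_subset.trans hΦ'T) (he.trans hAR) (he.trans hconR)
      rw [hzero] at h1
      have h2 : (0:ℝ) < γ * (A.card * B.card) := by
        have h3 : (0:ℝ) < A.card := lt_of_lt_of_le heR hAR
        have h4 : (0:ℝ) < B.card := lt_of_lt_of_le heR hconR
        positivity
      linarith
    by_cases hBe : B = ∅
    · rw [hBe, card_empty, zero_add, hΦ'c] at hBc
      rw [hBc]; exact card_le_card hAQ
    obtain ⟨y, hy⟩ := nonempty_iff_ne_empty.mpr hBe
    have hyΦ : y ∈ Φ' := (mem_sdiff.mp hy).1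
    have h1 := hdegΦ y hyΦ
    have h2 : e ≤ (Q.filter (fun x => rel x y)).card := by exact_mod_cast h1
    have h3 : Q.filter (fun x => rel x y) ⊆ Q \ A := by
      intro x hx
      rw [mem_filter] at hx
      rw [mem_sdiff]
      refine ⟨hx.1, fun hxA => ?_⟩
      rw [hA, mem_map] at hxA
      obtain ⟨z, hz, hzx⟩ := hxA
      apply (mem_sdiff.mp hy).2
      rw [hN, mem_biUnion]
      refine ⟨z, hz, mem_filter.mpr ⟨hyΦ, ?_⟩⟩

      have : (z : α) = x := hzx
      rw [this]; exact hx.2
    have h4 := card_le_card h3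
    have h5 := card_sdiff_add_card_eq_card hAQ
    omega

end Pool.Agent.H21.Tile
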