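import Pool.Agent.H21.Tile.Greedy
import Pool.Agent.H21.Tile.Robust
import Pool.Agent.H21.Tile.Defs

/-! Flexible sets inside a monochromatic lower regular tuple. -/

namespace Pool.Agent.H21.Tile

open Finset Classical

lemma sdr {X α : Type*} [Nonempty α] (Q : Finset X) (t : X → Finset α)
    (ht : ∀ x ∈ Q, Q.card ≤ (t x).card) : ∃ g : X → α, (∀ x ∈ Q, g x ∈ t x) ∧ Set.InjOn g Q := by
  have hall := (Finset.all_card_le_biUnion_card_iff_exists_injective
    (fun x : Q => t x)).mp ?_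
  · obtain ⟨ψ, hψ, hψ2⟩ := hall
    obtain ⟨a⟩ := ‹Nonempty α›
    refine ⟨fun x => if h : x ∈ Q then ψ ⟨x, h⟩ else a, ?_, ?_⟩
    · intro x hx
      simp only [hx, dite_true]
      exact hψ2 ⟨x, hx⟩
    · intro x hx y hy hxy
      rw [mem_coe] at hx hy
      simp only [hx, hy, dite_true] at hxy
      have := hψ hxy
      simpa using this
  · intro s
    by_cases hs : s = ∅
    · rw [hs]; simp
    obtain ⟨x, hx⟩ := nonempty_iff_ne_empty.mpr hs
    calc s.card ≤ Fintype.card Q := card_le_univ s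
      _ = Q.card := Fintype.card_coe Q
      _ ≤ (t x).card := ht x x.2
      _ ≤ _ := card_le_card (subset_biUnion_of_mem (fun x : Q => t x) hx)

theorem flex_of_tuple {α : Type*} [Nonempty α] {k q Δ K : ℕ} (F : (r : ℕ) → SimpleGraph (Fin r))
    (hdeg : ∀ r x, (univ.filter ((F r).Adj x)).card ≤ Δ)
    (hcol : ∀ r, ∃ f : Fin r → Fin q, ∀ x y, (F r).Adj x y → f x ≠ f y)
    (col : α → α → Fin k) (hsymm : ∀ a b, col a b = col b a) (c : Fin k)
    (A : Fin q → Finset α) (hAd : ∀ i j, i ≠ j → Disjoint (A i) (A j))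
    (ε γ : ℝ) (hε0 : 0 ≤ ε) (hγ : 0 < γ) (hγ1 : γ ≤ 1) (hεγ : ε ≤ γ ^ Δ)
    (hΔε : Δ * ε ≤ γ ^ Δ / 4) (hreg : LowReg (fun a b => col a b = c) A ε γ)
    (n0 : ℝ) (hn0 : ∀ i, n0 ≤ ((A i).card : ℝ)) (r : ℕ) (hr : 0 < r)
    (hr2 : (r : ℝ) ≤ γ ^ Δ * n0 / 4)
    (m2 : ℕ) (hm2 : 1 < (1 + (γ ^ Δ / 16) ^ 2 / 2) ^ m2 * γ ^ Δ)
    (h : ℝ) (hh : h = (γ ^ Δ / 16) ^ m2 * (r / q)) (hh2 : 8 ≤ γ ^ Δ / 2 * h)
    (g : ℕ) (hg : (K + 1) * g ≤ γ ^ Δ / 8 * h) :
    ∃ Φ X : Finset α, (∃ i, Φ ⊆ A i) ∧ X ⊆ univ.biUnion A ∧ Disjoint Φ X ∧ K * g + g ≤ Φ.card ∧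
      h / 2 ≤ Φ.card ∧ ∀ Φ' ⊆ Φ, Φ'.card + g = Φ.card → MonoSet F col (X ∪ Φ') := by
  obtain ⟨f, hf⟩ := hcol r
  have hr0 : (0:ℝ) < r := by exact_mod_cast hr
  set d : ℝ := γ ^ Δ with hd
  have hd0 : 0 < d := by positivity
  have hd1 : d ≤ 1 := pow_le_one₀ hγ.le hγ1
  have hq : 0 < q := Fin.pos (f ⟨0, hr⟩)
  have hqR : (0:ℝ) < q := by exact_mod_cast hq
  have hn0pos : 0 < n0 := by
    by_contra hcon
    push Not at hcon
    have : d * n0 ≤ 0 := by nlinarith
    linarith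
  -- a large colour class
  obtain ⟨i0, hi0⟩ : ∃ i0, (r : ℝ) / q ≤ ((univ.filter (fun x => f x = i0)).card : ℝ) := by
    by_contra hcon
    push Not at hcon
    have h1 : ∑ i : Fin q, ((univ.filter (fun x => f x = i)).card : ℝ) < ∑ i : Fin q, (r : ℝ) / q :=
      sum_lt_sum_of_nonempty ⟨⟨0, hq⟩, mem_univ _⟩ fun i _ => hcon i
    rw [sum_const, nsmul_eq_mul, card_univ, Fintype.card_fin] at h1
    have h2 : (univ : Finset (Fin r)).card = ∑ i : Fin q, (univ.filter (fun x => f x = i)).card :=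
      card_eq_sum_card_fiberwise (fun _ _ => mem_univ _)
    rw [card_univ, Fintype.card_fin] at h2
    have h3 : (r : ℝ) = ∑ i : Fin q, ((univ.filter (fun x => f x = i)).card : ℝ) := by
      exact_mod_cast h2
    rw [← h3] at h1
    have : (q:ℝ) * (r / q) = r := by field_simp
    linarith
  set Q := univ.filter (fun x => f x = i0) with hQ
  set SH := univ.filter (fun x => f x ≠ i0) with hSH
  have hQSH : ∀ x, x ∈ Q ↔ x ∉ SH := by intro x; simp [hQ, hSH]
  have hQr : Q.card ≤ r := by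
    have := card_le_univ Q
    rwa [Fintype.card_fin] at this
  have hSHr : SH.card ≤ r := by
    have := card_le_univ SH
    rwa [Fintype.card_fin] at this
  have hQpos : (0:ℝ) < Q.card := lt_of_lt_of_le (by positivity) hi0
  have hQne : Q.Nonempty := by rw [← card_pos]; exact_mod_cast hQpos
  -- greedy embedding of `SH`
  obtain ⟨φ, hφ1, hφ2, hφ3, hφ4⟩ := greedy_embed (fun a b => col a b = c)
    (fun a b h => by rw [hsymm]; exact h) A ε γ 1 hγ hγ1 one_pos hreg (F r) Δ (hdeg r) f hf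
    (fun x => A (f x)) (fun x => le_rfl) (fun x => by rw [one_mul]) hε0 (by rw [one_mul]; exact hεγ)
    ∅ SH (by
      intro x _
      rw [empty_inter, card_empty, one_mul]
      have h1 := hn0 (f x)
      have h2 : (SH.card : ℝ) ≤ d * n0 / 4 := le_trans (by exact_mod_cast hSHr) hr2
      have h3 : d * n0 ≤ d * (A (f x)).card := by gcongr
      have h4 : Δ * (ε * (A (f x)).card) ≤ d / 4 * (A (f x)).card := by
        rw [← mul_assoc]; gcongr
      push_cast
      rw [← hd]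
      have h5 : 0 ≤ d * (A (f x)).card := by positivity
      linarith)
  simp only [one_mul] at hφ4
  -- the candidate graph
  obtain ⟨rel2, hrel2⟩ : ∃ rel2 : Fin r → α → Prop, ∀ x w, rel2 x w ↔
      ∀ y ∈ SH, (F r).Adj x y → col (φ y) w = c := ⟨_, fun _ _ => Iff.rfl⟩
  have hcand : ∀ x ∈ Q, d * (A i0).card ≤ (((A i0).filter (rel2 x)).card : ℝ) := by
    intro x hx
    have h1 := hφ4 x ((hQSH x).mp hx)
    have h2 : f x = i0 := (mem_filter.mp hx).2
    rw [h2] at h1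
    refine h1.trans (le_of_eq ?_)
    congr 2
    ext w
    simp only [mem_filter, hrel2]
  have hAr : 4 * (r:ℝ) ≤ d * (A i0).card := by
    have : d * n0 ≤ d * (A i0).card := by have := hn0 i0; gcongr
    linarith
  have hArd : (r:ℝ) ≤ (A i0).card := by
    have : d * (A i0).card ≤ 1 * (A i0).card := by gcongr
    linarith
  have hQA : Q.card ≤ (A i0).card := by
    have : ((Q.card : ℕ) : ℝ) ≤ (A i0).card := le_trans (by exact_mod_cast hQr) hArd
    exact_mod_cast this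
  obtain ⟨B1, hB1, hB1c, hB1e⟩ := avg_subset'
    (fun w => ((Q.filter (fun x => rel2 x w)).card : ℝ)) (A i0) hQA
  rw [← ed_comm, ← ed_comm] at hB1e
  have hed1 : Q.card * (d * (A i0).card) ≤ ed rel2 Q (A i0) := by
    unfold ed
    rw [← nsmul_eq_mul, ← sum_const]
    exact sum_le_sum fun x hx => hcand x hx
  have hA0pos : (0:ℝ) < (A i0).card := by linarith
  have hed2 : d * (Q.card * B1.card) ≤ ed rel2 Q B1 := by
    rw [hB1c]
    have h1 : (A i0).card * (d * (Q.card * Q.card)) ≤ (A i0).card * ed rel2 Q B1 := by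
      calc ((A i0).card : ℝ) * (d * (Q.card * Q.card)) = Q.card * (Q.card * (d * (A i0).card)) := by
            ring
        _ ≤ Q.card * ed rel2 Q (A i0) := by gcongr
        _ ≤ _ := hB1e
    exact le_of_mul_le_mul_left h1 hA0pos
  obtain ⟨Q', hQ', B', hB', hQ'ne, hQB', hQ'c, hreg2⟩ := balreg rel2 (d / 16) (by positivity)
    (by linarith) m2 d Q B1 hd0 hQne hB1c.symm hm2 hed2
  set n := Q'.card with hn
  have hhn : h ≤ n := by
    rw [hh]
    refine le_trans ?_ hQ'c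
    gcongr
  have hnpos : (0:ℝ) < n := by
    have : 0 < n := card_pos.mpr hQ'ne
    exact_mod_cast this
  have hdn : d / 2 * h ≤ d / 2 * n := by gcongr
  set e := ⌈d / 16 * n⌉₊ with he
  have he1 : d / 16 * n ≤ e := Nat.le_ceil _
  have he2 : (e : ℝ) < d / 16 * n + 1 := Nat.ceil_lt_add_one (by positivity)
  have he0 : 0 < e := Nat.ceil_pos.mpr (by positivity)
  have hgR : (g : ℝ) ≤ d / 8 * n := by
    have h1 : (g : ℝ) ≤ (K + 1) * g := by
      have : (0:ℝ) ≤ K := Nat.cast_nonneg _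
      have : (0:ℝ) ≤ g := Nat.cast_nonneg _
      nlinarith
    have h2 : d / 8 * h ≤ d / 8 * n := by gcongr
    linarith
  have heg : (2 * e + g : ℝ) ≤ d / 2 * n := by linarith
  obtain ⟨Qf, hQf, Φ, hΦ, hQfc, hΦc, hQΦ, hrob⟩ := robust_matching rel2 Q' B' n g e rfl hQB'.symm
    (d / 16) (d / 2) (by positivity) he1 he0 (by
      intro A' hA' B'' hB'' h1 h2
      exact hreg2 A' hA' B'' hB'' h1 (by rw [← hQB']; exact h2)) heg (by linarith)
  have hnr : n ≤ r := (card_le_card hQ').trans hQr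
  have hen : e ≤ n := by
    have : (e:ℝ) ≤ n := by
      have : d / 2 * n ≤ n := by nlinarith
      have : (0:ℝ) ≤ g := Nat.cast_nonneg _
      have : (0:ℝ) ≤ e := Nat.cast_nonneg _
      linarith
    exact_mod_cast this
  have hΦr : Φ.card ≤ r := by omega
  have hΦA : Φ ⊆ A i0 := hΦ.trans (hB'.trans hB1)
  have hQfQ : Qf ⊆ Q := hQf.trans hQ'
  -- the rest of `Q`
  obtain ⟨ψr, hψr1, hψr2⟩ := sdr (Q \ Qf) (fun x => ((A i0).filter (rel2 x)) \ Φ) (by
    intro x hx
    have hxQ : x ∈ Q := (mem_sdiff.mp hx).1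
    have h1 := hcand x hxQ
    have h2 : ((A i0).filter (rel2 x)).card ≤ (((A i0).filter (rel2 x)) \ Φ).card + Φ.card := by
      have := card_le_card (show (A i0).filter (rel2 x) ⊆ (((A i0).filter (rel2 x)) \ Φ) ∪ Φ by
        intro y hy
        by_cases hyΦ : y ∈ Φ
        · exact mem_union_right _ hyΦ
        · exact mem_union_left _ (mem_sdiff.mpr ⟨hy, hyΦ⟩))
      exact this.trans (card_union_le _ _)
    have h3 : 4 * r ≤ ((A i0).filter (rel2 x)).card := by
      have : (4 * r : ℝ) ≤ (((A i0).filter (rel2 x)).card : ℝ) := hAr.trans h1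
      exact_mod_cast this
    have h4 : (Q \ Qf).card ≤ Q.card := card_le_card sdiff_subset
    omega)
  set X := SH.image φ ∪ (Q \ Qf).image ψr with hX
  have hφA : ∀ x ∈ SH, φ x ∈ A (f x) := fun x hx => (hφ1 x hx).1
  have hφn : ∀ x ∈ SH, φ x ∉ A i0 := by
    intro x hx hcon
    exact (disjoint_left.mp (hAd (f x) i0 (mem_filter.mp hx).2)) (hφA x hx) hcon
  have hψrA : ∀ x ∈ Q \ Qf, ψr x ∈ A i0 ∧ ψr x ∉ Φ ∧ rel2 x (ψr x) := by
    intro x hx
    have h1 := mem_sdiff.mp (hψr1 x hx)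
    have h2 := mem_filter.mp h1.1
    exact ⟨h2.1, h1.2, h2.2⟩
  refine ⟨Φ, X, ⟨i0, hΦA⟩, ?_, ?_, ?_, ?_, ?_⟩
  · intro x hx
    rw [hX, mem_union, mem_image, mem_image] at hx
    rw [mem_biUnion]
    rcases hx with ⟨y, hy, rfl⟩ | ⟨y, hy, rfl⟩
    · exact ⟨f y, mem_univ _, hφA y hy⟩
    · exact ⟨i0, mem_univ _, (hψrA y hy).1⟩
  · rw [disjoint_left]
    intro x hxΦ hx
    rw [hX, mem_union, mem_image, mem_image] at hx
    rcases hx with ⟨y, hy, rfl⟩ | ⟨y, hy, rfl⟩
    · exact hφn y hy (hΦA hxΦ)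
    · exact (hψrA y hy).2.1 hxΦ
  · have h1 : ((K * g + g : ℕ) : ℝ) ≤ (Φ.card : ℝ) := by
      rw [hΦc, Nat.cast_sub hen]
      push_cast
      have h2 : (K * g + g : ℝ) ≤ d / 8 * n := by
        have h2 : d / 8 * h ≤ d / 8 * n := by gcongr
        linarith
      have h3 : d / 8 * n ≤ n / 8 := by nlinarith
      have h4 : (e:ℝ) ≤ n / 4 := by
        have : (g:ℝ) ≥ 0 := Nat.cast_nonneg _
        nlinarith
      linarith
    exact_mod_cast h1
  · rw [hΦc, Nat.cast_sub hen]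
    have h4 : (e:ℝ) ≤ n / 4 := by
      have : (g:ℝ) ≥ 0 := Nat.cast_nonneg _
      nlinarith
    linarith
  · intro Φ' hΦ' hΦ'c
    have hΦ'Q : Φ'.card = Qf.card := by omega
    obtain ⟨ψ, hψinj, hψ⟩ := hrob Φ' hΦ' hΦ'Q
    have hψimg : univ.image ψ = Φ' := by
      apply eq_of_subset_of_card_le
      · intro y hy
        rw [mem_image] at hy
        obtain ⟨x, _, rfl⟩ := hy
        exact (hψ x).1
      · rw [card_image_of_injective _ hψinj, card_univ, Fintype.card_coe, hΦ'Q]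
    set tot : Fin r → α := fun x => if x ∈ SH then φ x else if hx : x ∈ Qf then ψ ⟨x, hx⟩ else ψr x
      with htot
    have htSH : ∀ x ∈ SH, tot x = φ x := fun x hx => by simp [htot, hx]
    have htQf : ∀ x (hx : x ∈ Qf), tot x = ψ ⟨x, hx⟩ := fun x hx => by
      have : x ∉ SH := (hQSH x).mp (hQfQ hx)
      simp [htot, this, hx]
    have htQr : ∀ x ∈ Q \ Qf, tot x = ψr x := fun x hx => by
      rw [mem_sdiff] at hx
      have : x ∉ SH := (hQSH x).mp hx.1
      simp [htot, this, hx.2]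
    have hcases : ∀ x, x ∈ SH ∨ x ∈ Qf ∨ x ∈ Q \ Qf := by
      intro x
      by_cases h1 : x ∈ SH
      · exact Or.inl h1
      · have h2 := (hQSH x).mpr h1
        by_cases h3 : x ∈ Qf
        · exact Or.inr (Or.inl h3)
        · exact Or.inr (Or.inr (mem_sdiff.mpr ⟨h2, h3⟩))
    have htQ : ∀ x ∈ Q, tot x ∈ A i0 ∧ rel2 x (tot x) := by
      intro x hx
      by_cases h3 : x ∈ Qf
      · rw [htQf x h3]
        exact ⟨hΦA (hΦ' (hψ ⟨x, h3⟩).1), (hψ ⟨x, h3⟩).2⟩
      · have h4 := mem_sdiff.mpr ⟨hx, h3⟩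
        rw [htQr x h4]
        exact ⟨(hψrA x h4).1, (hψrA x h4).2.2⟩
    refine ⟨c, r, tot, ?_, ?_, ?_⟩
    · intro x y hxy
      rcases hcases x with hx | hx | hx <;> rcases hcases y with hy | hy | hy
      · rw [htSH x hx, htSH y hy] at hxy; exact hφ2 hx hy hxy
      · rw [htSH x hx] at hxy
        exact absurd (hxy ▸ (htQ y (hQfQ hy)).1) (hφn x hx)
      · rw [htSH x hx] at hxy
        exact absurd (hxy ▸ (htQ y (mem_sdiff.mp hy).1).1) (hφn x hx)
      · rw [htSH y hy] at hxy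
        exact absurd (hxy ▸ (htQ x (hQfQ hx)).1) (hφn y hy)
      · rw [htQf x hx, htQf y hy] at hxy
        have := hψinj hxy
        simpa using this
      · rw [htQf x hx, htQr y hy] at hxy
        exact absurd (hxy ▸ hΦ' (hψ ⟨x, hx⟩).1) (hψrA y hy).2.1
      · rw [htSH y hy] at hxy
        exact absurd (hxy ▸ (htQ x (mem_sdiff.mp hx).1).1) (hφn y hy)
      · rw [htQr x hx, htQf y hy] at hxy
        exact absurd (hxy ▸ hΦ' (hψ ⟨y, hy⟩).1) (hψrA x hx).2.1
      · rw [htQr x hx, htQr y hy] at hxy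
        exact hψr2 hx hy hxy
    · ext y
      rw [mem_image, mem_union, hX, mem_union, mem_image, mem_image]
      constructor
      · rintro ⟨x, _, rfl⟩
        rcases hcases x with hx | hx | hx
        · exact Or.inl (Or.inl ⟨x, hx, (htSH x hx).symm⟩)
        · right; rw [htQf x hx]; exact (hψ ⟨x, hx⟩).1
        · exact Or.inl (Or.inr ⟨x, hx, (htQr x hx).symm⟩)
      · rintro ((⟨x, hx, rfl⟩ | ⟨x, hx, rfl⟩) | hy)
        · exact ⟨x, mem_univ _, htSH x hx⟩
        · exact ⟨x, mem_univ _, htQr x hx⟩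
        · rw [← hψimg, mem_image] at hy
          obtain ⟨x, _, rfl⟩ := hy
          exact ⟨x, mem_univ _, htQf x x.2⟩
    · intro x y hxy
      by_cases hx : x ∈ SH
      · by_cases hy : y ∈ SH
        · rw [htSH x hx, htSH y hy]; exact hφ3 x hx y hy hxy
        · have hyQ := (hQSH y).mpr hy
          rw [htSH x hx]
          exact (hrel2 _ _).mp (htQ y hyQ).2 x hx hxy.symm
      · have hxQ := (hQSH x).mpr hx
        by_cases hy : y ∈ SH
        · rw [htSH y hy, hsymm]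
          exact (hrel2 _ _).mp (htQ x hxQ).2 y hy hxy
        · have hyQ := (hQSH y).mpr hy
          exact absurd ((mem_filter.mp hxQ).2.trans (mem_filter.mp hyQ).2.symm) (hf x y hxy)

end Pool.Agent.H21.Tile
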