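import Pool.Agent.H21.Tile.Types

/-! The stage recursion. -/

namespace Pool.Agent.H21.Tile

open Finset Classical

/-- Existence of flexible sets. -/
def FlexProp {α : Type*} {k : ℕ} (F : (r : ℕ) → SimpleGraph (Fin r)) (col : α → α → Fin k)
    (K : ℕ) (σF : ℝ) : Prop :=
  ∀ S : Finset α, 1 ≤ σF * S.card → ∃ (Φ X : Finset α) (g : ℕ), Φ ⊆ S ∧ X ⊆ S ∧ Disjoint Φ X ∧
    σF * S.card ≤ g ∧ K * g + g ≤ Φ.card ∧
    ∀ Φ' ⊆ Φ, Φ'.card + g = Φ.card → MonoSet F col (X ∪ Φ')

lemma flex_use {α : Type*} {k K : ℕ} {F : (r : ℕ) → SimpleGraph (Fin r)} {col : α → α → Fin k}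
    (hR : LinRam F col K) (Φ X : Finset α) (g : ℕ) (hΦX : Disjoint Φ X) (hKg : K * g + g ≤ Φ.card)
    (hmono : ∀ Φ' ⊆ Φ, Φ'.card + g = Φ.card → MonoSet F col (X ∪ Φ'))
    (V : Finset α) (hV : V ⊆ Φ) (hVc : V.card ≤ g) : Tiles F col (X ∪ (Φ \ V)) 2 := by
  have hc := card_sdiff_add_card_eq_card hV
  by_cases he : V.card = g
  · exact (Tiles.single (hmono (Φ \ V) sdiff_subset (by omega))).mono (by omega)
  · obtain ⟨p, hp, hpc, hpm⟩ := hR (Φ \ V) (g - V.card) (by omega) (by
      have : K * (g - V.card) ≤ K * g := Nat.mul_le_mul_left _ (by omega)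
      omega)
    have hc2 := card_sdiff_add_card_eq_card hp
    have h1 := hmono ((Φ \ V) \ p) (sdiff_subset.trans sdiff_subset) (by omega)
    have h2 : X ∪ (Φ \ V) = (X ∪ ((Φ \ V) \ p)) ∪ p := by
      rw [union_assoc, sdiff_union_of_subset hp]
    rw [h2]
    refine (Tiles.single h1).union (Tiles.single hpm) ?_
    rw [disjoint_union_left]
    refine ⟨?_, sdiff_disjoint⟩
    exact disjoint_of_subset_right (hp.trans sdiff_subset) hΦX.symm

/-- majority colours -/
lemma exists_maj {α : Type*} {k T : ℕ} (hk : 0 < k) (col : α → α → Fin k)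
    (W : Fin T → Finset α) (v : α) : ∃ κ : Fin T → Fin k, ∀ i,
      ((W i).card : ℝ) / k ≤ (((W i).filter (fun w => col v w = κ i)).card : ℝ) := by
  have hkR : (0:ℝ) < k := by exact_mod_cast hk
  have : ∀ i, ∃ c : Fin k, ((W i).card : ℝ) / k ≤
      (((W i).filter (fun w => col v w = c)).card : ℝ) := by
    intro i
    by_contra hcon
    push Not at hcon
    have h1 : ∑ c : Fin k, (((W i).filter (fun w => col v w = c)).card : ℝ) <
        ∑ c : Fin k, ((W i).card : ℝ) / k :=
      sum_lt_sum_of_nonempty ⟨⟨0, hk⟩, mem_univ _⟩ fun c _ => hcon c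
    rw [sum_const, nsmul_eq_mul, card_univ, Fintype.card_fin] at h1
    have h2 : (W i).card = ∑ c : Fin k, ((W i).filter (fun w => col v w = c)).card :=
      card_eq_sum_card_fiberwise (fun _ _ => mem_univ _)
    have h3 : ((W i).card : ℝ) = ∑ c : Fin k, (((W i).filter (fun w => col v w = c)).card : ℝ) := by
      exact_mod_cast h2
    rw [← h3] at h1
    have : (k:ℝ) * ((W i).card / k) = (W i).card := by field_simp
    linarith
  choose κ hκ using this
  exact ⟨κ, hκ⟩

theorem stages {α : Type*} [Nonempty α] {k q Δ M K : ℕ} (F : (r : ℕ) → SimpleGraph (Fin r))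
    (hdeg : ∀ r x, (univ.filter ((F r).Adj x)).card ≤ Δ)
    (hcol : ∀ r, ∃ f : Fin r → Fin q, ∀ x y, (F r).Adj x y → f x ≠ f y)
    (col : α → α → Fin k) (hsymm : ∀ a b, col a b = col b a) (hk : 0 < k) (hK : 0 < K)
    (hram : RamseyProp k (q + 1) M) (hlin : LinRam F col K)
    (Dm ε η : ℝ) (m : ℕ) (hDm : Dm = 1 / (2 * (k : ℝ) ^ M))
    (hε : 0 < ε) (hεk : ε ≤ 1 / k) (hεγ : ε ≤ 1 / k * (Dm ^ M / 2) ^ Δ)
    (hΔε : Δ * ε ≤ 1 / k * (Dm ^ M / 2) ^ Δ / 2)
    (hη0 : 0 < η) (hηε : η ≤ ε) (hη : η * (8 * (M + 1)) ≤ Dm ^ M * ε ^ M)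
    (hm : 1 < (1 + ε ^ M / 4) ^ m * Dm ^ M)
    (σF : ℝ) (hσF0 : 0 < σF) (hσF1 : σF ≤ 1) (hflex : FlexProp F col K σF)
    (τ : ℝ) (hτ0 : 0 ≤ τ)
    (hτ : (M + 1) * (Δ * Δ + Δ + 1) * τ ≤
      1 / k * (Dm ^ M / 2) ^ Δ / 2 * (η ^ m * σF / (k : ℝ) ^ M) ^ M)
    (mg ms : ℕ) (hmg : (1 - 1 / (2 * (K : ℝ))) ^ mg ≤ τ)
    (hms : (1 - 1 / (2 * (K : ℝ))) ^ ms * ((k : ℝ) ^ M / σF) ≤ 1) :
    ∀ (d T : ℕ), T + d = M → ∀ (W : Fin T → Finset α) (χ : Fin T → Fin T → Fin k)
      (R : Finset α), (∀ i, (W i).Nonempty) → (∀ i j, χ i j = χ j i) → NoMono χ (q + 1) →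
      TReg col W χ ε (Dm ^ T) → (∀ i, Disjoint R (W i)) →
      (∀ i, (η ^ m * σF / (k : ℝ) ^ M) ^ T * R.card ≤ ((W i).card : ℝ)) →
      (∀ v ∈ R, ¬ Abs q col W χ v) →
      ∃ U : Finset α, U ⊆ univ.biUnion W ∧ (U.card : ℝ) ≤ d * ((Δ * Δ + Δ) * τ) * R.card ∧
        Tiles F col (R ∪ U) (d * (mg + k * 2 ^ M + 2) + ms) := by
  have hkR : (1:ℝ) ≤ k := by exact_mod_cast hk
  have hKR : (1:ℝ) ≤ K := by exact_mod_cast hK
  have hkM : (1:ℝ) ≤ (k:ℝ) ^ M := one_le_pow₀ hkR
  have hDm0 : 0 < Dm := by rw [hDm]; positivity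
  have hDm1 : Dm ≤ 1 / 2 := by
    rw [hDm]; apply one_div_le_one_div_of_le (by norm_num); linarith
  have hε1 : ε ≤ 1 := hεk.trans (by rw [div_le_one (by positivity)]; exact hkR)
  have hη1 : η ≤ 1 := hηε.trans hε1
  set ω : ℝ := η ^ m * σF / (k : ℝ) ^ M with hω
  have hηm0 : 0 < η ^ m := by positivity
  have hηm1 : η ^ m ≤ 1 := pow_le_one₀ hη0.le hη1
  have hω0 : 0 < ω := by positivity
  have hω1 : ω ≤ 1 := by
    rw [hω, div_le_one (by positivity)]
    calc η ^ m * σF ≤ 1 * 1 := by gcongr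
      _ = 1 := by ring
      _ ≤ _ := hkM
  set γΔ : ℝ := (Dm ^ M / 2) ^ Δ with hγΔ
  intro d
  induction d with
  | zero =>
    intro T hT W χ R hW hχ hNo hreg hRW hsz hnon
    have hTM : T = M := by omega
    subst hTM
    obtain ⟨c, I, hI1, hI2⟩ := hram χ hχ
    exact absurd hI2 (hNo c I hI1)
  | succ d ih =>
    intro T hT W χ R hW hχ hNo hreg hRW hsz hnon
    have hT1 : T + 1 + d = M := by omega
    -- majority colours
    choose κ hκ using fun v => exists_maj hk col W v
    have hkT : (0:ℝ) < (k:ℝ) ^ T := by positivity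
    have hkTM : (k:ℝ) ^ T ≤ (k:ℝ) ^ M := pow_le_pow_right₀ hkR (by omega)
    by_cases hR : R = ∅
    · subst hR
      refine ⟨∅, by simp, by simp, ?_⟩
      rw [union_empty]
      exact Tiles.empty.mono (by omega)
    obtain ⟨κ0, hκ0⟩ : ∃ κ0 : Fin T → Fin k, (R.card : ℝ) / (k:ℝ) ^ T ≤
        ((R.filter (fun v => κ v = κ0)).card : ℝ) := by
      by_contra hcon
      push Not at hcon
      have h1 : ∑ κ0 : Fin T → Fin k, ((R.filter (fun v => κ v = κ0)).card : ℝ) <
          ∑ κ0 : Fin T → Fin k, (R.card : ℝ) / (k:ℝ) ^ T :=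
        sum_lt_sum_of_nonempty ⟨fun _ => ⟨0, hk⟩, mem_univ _⟩ fun c _ => hcon c
      rw [sum_const, nsmul_eq_mul, card_univ, Fintype.card_fun, Fintype.card_fin,
        Fintype.card_fin] at h1
      have h2 : R.card = ∑ κ0 : Fin T → Fin k, (R.filter (fun v => κ v = κ0)).card :=
        card_eq_sum_card_fiberwise (fun _ _ => mem_univ _)
      have h3 : (R.card : ℝ) = ∑ κ0 : Fin T → Fin k, ((R.filter (fun v => κ v = κ0)).card : ℝ) := by
        exact_mod_cast h2
      rw [← h3] at h1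
      push_cast at h1
      have : (k:ℝ) ^ T * (R.card / (k:ℝ) ^ T) = R.card := by field_simp
      linarith
    set Rκ := R.filter (fun v => κ v = κ0) with hRκ
    by_cases hbig : 1 ≤ σF * Rκ.card
    swap
    · -- small case
      push Not at hbig
      refine ⟨∅, by simp, ?_, ?_⟩
      · rw [card_empty, Nat.cast_zero]; positivity
      · rw [union_empty]
        apply (greedy_small hK hlin ms R _).mono (by omega)
        have h1 : σF * (R.card / (k:ℝ) ^ T) < 1 := lt_of_le_of_lt (by gcongr) hbig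
        have h2 : (R.card : ℝ) < (k:ℝ) ^ M / σF := by
          rw [lt_div_iff₀ hσF0]
          have h3 : σF * (R.card / (k:ℝ) ^ T) = R.card * σF / (k:ℝ) ^ T := by ring
          rw [h3, div_lt_one hkT] at h1
          linarith
        have h4 : (0:ℝ) < (1 - 1 / (2 * (K : ℝ))) ^ ms := by
          apply pow_pos
          have : 1 / (2 * (K : ℝ)) ≤ 1 / 2 := by
            apply one_div_le_one_div_of_le (by norm_num); linarith
          linarith
        calc (1 - 1 / (2 * (K : ℝ))) ^ ms * R.card < (1 - 1 / (2 * (K : ℝ))) ^ ms *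
              ((k:ℝ) ^ M / σF) := mul_lt_mul_of_pos_left h2 h4
          _ ≤ 1 := hms
    obtain ⟨Φ, X, g, hΦS, hXS, hΦX, hgσ, hKg, hmono⟩ := hflex Rκ hbig
    have hΦR : Φ ⊆ R := hΦS.trans (filter_subset _ _)
    have hXR : X ⊆ R := hXS.trans (filter_subset _ _)
    have hgpos : (0:ℝ) < g := lt_of_lt_of_le (by linarith) hgσ
    have hgΦ : (g : ℝ) ≤ Φ.card := by
      have : g ≤ Φ.card := (Nat.le_add_left _ _).trans hKg
      exact_mod_cast this
    have hΦne : Φ.Nonempty := by
      rw [← card_pos]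
      have : (0:ℝ) < Φ.card := by linarith
      exact_mod_cast this
    have hRg : σF * (R.card / (k:ℝ) ^ M) ≤ g := by
      refine le_trans ?_ hgσ
      have h1 : (R.card : ℝ) / (k:ℝ) ^ M ≤ R.card / (k:ℝ) ^ T := by gcongr
      have h2 := h1.trans hκ0
      gcongr
    -- the new pattern
    set c0 : Fin k := ⟨0, hk⟩ with hc0
    set W1 : Fin (T + 1) → Finset α := Fin.cons Φ W with hW1
    set χ1 := extχ c0 κ0 χ with hχ1
    have hW1ne : ∀ i, (W1 i).Nonempty := by
      intro i
      refine Fin.cases ?_ (fun j => ?_) i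
      · simpa [hW1] using hΦne
      · simpa [hW1] using hW j
    have hχ1s : ∀ i j, χ1 i j = χ1 j i := extχ_symm c0 κ0 χ hχ
    have hΦκ : ∀ z ∈ Φ, κ z = κ0 := fun z hz => (mem_filter.mp (hΦS hz)).2
    have hNo1 : NoMono χ1 (q + 1) := by
      apply extχ_noMono c0 κ0 χ hNo
      intro c I hIc hImono hIκ
      obtain ⟨z, hz⟩ := hΦne
      apply hnon z (hΦR hz)
      refine ⟨c, I, hIc, hImono, ?_⟩
      intro i hi
      have := hκ z i
      rw [hΦκ z hz, hIκ i hi] at this
      exact this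
    have hcnt1 : Dm ^ (T + 1) * vol W1 ≤ cnt (Patt col χ1) W1 := by
      refine le_trans ?_ (cnt_cons col hsymm W χ c0 κ0 Φ)
      have h1 : ∀ z ∈ Φ, Dm ^ T / 2 * (vol W / (k:ℝ) ^ T) ≤
          cnt (Patt col χ) (fun i => (W i).filter (fun w => col z w = κ0 i)) := by
        intro z hz
        have hmaj : ∀ i, ((W i).card : ℝ) / k ≤
            (((W i).filter (fun w => col z w = κ0 i)).card : ℝ) := by
          intro i
          have := hκ z i
          rwa [hΦκ z hz] at this
        refine le_trans ?_ (hreg (fun i => (W i).filter (fun w => col z w = κ0 i))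
          (fun i => filter_subset _ _) ?_)
        · have h2 : vol W / (k:ℝ) ^ T ≤
              vol (fun i => (W i).filter (fun w => col z w = κ0 i)) := by
            unfold vol
            have h3 : (∏ i : Fin T, ((W i).card : ℝ)) / (k:ℝ) ^ T =
                ∏ i : Fin T, (((W i).card : ℝ) / k) := by
              rw [prod_div_distrib, prod_const, card_univ, Fintype.card_fin]
            rw [h3]
            exact prod_le_prod (fun i _ => by positivity) fun i _ => hmaj i
          have h4 : 0 ≤ Dm ^ T / 2 := by positivity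
          exact mul_le_mul_of_nonneg_left h2 h4
        · intro i
          refine le_trans ?_ (hmaj i)
          have : ε * (W i).card ≤ 1 / k * (W i).card := by gcongr
          refine this.trans (le_of_eq ?_)
          ring
      have h5 := sum_le_sum h1
      refine le_trans ?_ h5
      rw [sum_const, nsmul_eq_mul, hW1, vol_cons, pow_succ]
      have hv : 0 ≤ vol W := vol_nonneg W
      have h6 : Dm ≤ 1 / (2 * (k:ℝ) ^ T) := by
        rw [hDm]
        apply one_div_le_one_div_of_le (by positivity)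
        linarith
      calc Dm ^ T * Dm * (Φ.card * vol W) ≤ Dm ^ T * (1 / (2 * (k:ℝ) ^ T)) * (Φ.card * vol W) := by
            gcongr
        _ = Φ.card * (Dm ^ T / 2 * (vol W / (k:ℝ) ^ T)) := by field_simp
    -- regularise
    have hpowD : Dm ^ M ≤ Dm ^ (T + 1) := pow_le_pow_of_le_one hDm0.le (by linarith) (by omega)
    have hpowε : ε ^ M ≤ ε ^ (T + 1) := pow_le_pow_of_le_one hε.le hε1 (by omega)
    obtain ⟨W', hW'1, hW'2, hW'3, hW'4, hW'5⟩ := tlr (Patt col χ1) ε (Dm ^ (T + 1)) η hε hε1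
      (by positivity) hη0 hηε (by
        rw [Fintype.card_fin]
        have h1 : η * (8 * (((T + 1 : ℕ) : ℝ) + 1)) ≤ η * (8 * (M + 1)) := by
          have : ((T + 1 : ℕ) : ℝ) ≤ M := by exact_mod_cast (by omega : T + 1 ≤ M)
          gcongr
        refine h1.trans (hη.trans ?_)
        gcongr) m (Dm ^ (T + 1)) W1 le_rfl hW1ne (by
        rw [Fintype.card_fin]
        refine lt_of_lt_of_le hm ?_
        gcongr) hcnt1
    have hreg' : TReg col W' χ1 ε (Dm ^ (T + 1)) := hW'5
    -- location of the new sets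
    have hW'0 : W' 0 ⊆ Φ := by
      have := hW'1 0
      rwa [hW1, Fin.cons_zero] at this
    have hW's : ∀ j : Fin T, W' j.succ ⊆ W j := by
      intro j
      have := hW'1 j.succ
      rwa [hW1, Fin.cons_succ] at this
    have hW'size : ∀ i, ω ^ (T + 1) * R.card ≤ ((W' i).card : ℝ) := by
      intro i
      refine le_trans ?_ (hW'3 i)
      refine Fin.cases ?_ (fun j => ?_) i
      · rw [hW1, Fin.cons_zero, pow_succ]
        have h1 : ω ^ T ≤ 1 := pow_le_one₀ hω0.le hω1
        calc ω ^ T * ω * R.card ≤ 1 * ω * R.card := by gcongr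
          _ = η ^ m * (σF * (R.card / (k:ℝ) ^ M)) := by rw [hω]; ring
          _ ≤ η ^ m * g := by gcongr
          _ ≤ η ^ m * Φ.card := by gcongr
      · rw [hW1, Fin.cons_succ, pow_succ]
        have h1 : ω ≤ η ^ m := by
          rw [hω, div_le_iff₀ (by positivity)]
          calc η ^ m * σF ≤ η ^ m * 1 := by gcongr
            _ ≤ η ^ m * (k:ℝ) ^ M := by gcongr
        calc ω ^ T * ω * R.card = ω * (ω ^ T * R.card) := by ring
          _ ≤ η ^ m * (ω ^ T * R.card) := by gcongr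
          _ ≤ η ^ m * (W j).card := by have := hsz j; gcongr
    have hdisj : ∀ Z : Finset α, Z ⊆ R → Disjoint Z Φ → ∀ i, Disjoint Z (W' i) := by
      intro Z hZR hZΦ i
      refine Fin.cases ?_ (fun j => ?_) i
      · exact disjoint_of_subset_right hW'0 hZΦ
      · exact disjoint_of_subset_left hZR (disjoint_of_subset_right (hW's j) (hRW j))
    -- split the rest
    set R1 := R \ (Φ ∪ X) with hR1
    set A := R1.filter (fun v => Abs q col W' χ1 v) with hA
    set R2 := R1.filter (fun v => ¬ Abs q col W' χ1 v) with hR2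
    have hR1R : R1 ⊆ R := sdiff_subset
    have hAR : A ⊆ R := (filter_subset _ _).trans hR1R
    have hR2R : R2 ⊆ R := (filter_subset _ _).trans hR1R
    have hR1Φ : Disjoint R1 Φ := disjoint_of_subset_right subset_union_left sdiff_disjoint
    have hR1X : Disjoint R1 X := disjoint_of_subset_right subset_union_right sdiff_disjoint
    have hAR1 : A ⊆ R1 := filter_subset _ _
    have hR2R1 : R2 ⊆ R1 := filter_subset _ _
    have hR2c : (R2.card : ℝ) ≤ R.card := by exact_mod_cast card_le_card hR2R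
    have hAc : (A.card : ℝ) ≤ R.card := by exact_mod_cast card_le_card hAR
    obtain ⟨U2, hU2W, hU2c, hU2t⟩ := ih (T + 1) hT1 W' χ1 R2 hW'2 hχ1s hNo1 hreg'
      (hdisj R2 hR2R (disjoint_of_subset_left hR2R1 hR1Φ))
      (fun i => le_trans (by gcongr) (hW'size i))
      (fun v hv => (mem_filter.mp hv).2)
    obtain ⟨L, hLA, hLt, hLc⟩ := greedy_cover hK hlin mg A
    have hLR : (L.card : ℝ) ≤ τ * R.card := by
      refine hLc.trans ?_
      gcongr
    have hLR1 : L ⊆ R1 := hLA.trans hAR1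
    have hRpos : (0:ℝ) ≤ R.card := Nat.cast_nonneg _
    have hdM : (d:ℝ) + 1 ≤ M := by exact_mod_cast (by omega : d + 1 ≤ M)
    have hU2c' : (U2.card : ℝ) ≤ d * ((Δ * Δ + Δ) * τ) * R.card := by
      refine hU2c.trans ?_
      gcongr
    have htot : (U2.card : ℝ) + (Δ * Δ + Δ + 1) * L.card ≤ (M + 1) * (Δ * Δ + Δ + 1) * τ * R.card := by
      have h1 : ((Δ:ℝ) * Δ + Δ + 1) * L.card ≤ (Δ * Δ + Δ + 1) * (τ * R.card) := by gcongr
      have h0 : ((Δ:ℝ) * Δ + Δ) * τ ≤ (Δ * Δ + Δ + 1) * τ :=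
        mul_le_mul_of_nonneg_right (by linarith) hτ0
      have h2 : (d:ℝ) * ((Δ * Δ + Δ) * τ) * R.card ≤ d * ((Δ * Δ + Δ + 1) * τ) * R.card :=
        mul_le_mul_of_nonneg_right (mul_le_mul_of_nonneg_left h0 (Nat.cast_nonneg _)) hRpos
      have h3 : 0 ≤ ((Δ:ℝ) * Δ + Δ + 1) * τ * R.card := by positivity
      calc _ ≤ d * ((Δ * Δ + Δ + 1) * τ) * R.card + (Δ * Δ + Δ + 1) * (τ * R.card) :=
            add_le_add (hU2c'.trans h2) h1
        _ = (d + 1) * ((Δ * Δ + Δ + 1) * τ * R.card) := by ring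
        _ ≤ (M + 1) * ((Δ * Δ + Δ + 1) * τ * R.card) :=
            mul_le_mul_of_nonneg_right (by linarith) h3
        _ = _ := by ring
    have hωM : ω ^ M ≤ ω ^ (T + 1) := pow_le_pow_of_le_one hω0.le hω1 (by omega)
    have hγΔ0 : 0 < γΔ := by positivity
    have hbound : (M + 1) * (Δ * Δ + Δ + 1) * τ * R.card ≤ 1 / k * γΔ / 2 * (ω ^ (T + 1) * R.card) := by
      calc (M + 1) * (Δ * Δ + Δ + 1) * τ * R.card ≤ 1 / k * γΔ / 2 * ω ^ M * R.card := by gcongr
        _ ≤ 1 / k * γΔ / 2 * ω ^ (T + 1) * R.card := by gcongr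
        _ = _ := by ring
    have hpowD' : Dm ^ M / 2 ≤ Dm ^ (T + 1) / 2 := by linarith
    have hγ' : γΔ ≤ (Dm ^ (T + 1) / 2) ^ Δ := by
      rw [hγΔ]; exact pow_le_pow_left₀ (by positivity) hpowD' _
    obtain ⟨Y, hYW, hYU, hYc, hYt⟩ := absorb_types F hdeg hcol col hsymm hk W' χ1 ε (Dm ^ (T + 1))
      hW'2 hε.le hε1 (by positivity) (pow_le_one₀ hDm0.le (by linarith))
      (hεγ.trans (by gcongr)) hreg' L U2
      (hdisj L (hLR1.trans hR1R) (disjoint_of_subset_left hLR1 hR1Φ))
      (fun v hv => (mem_filter.mp (hLA hv)).2)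
      (by
        intro i
        have h1 := hW'size i
        have h2 : 1 / k * γΔ / 2 * (ω ^ (T + 1) * R.card) ≤ 1 / k * γΔ / 2 * (W' i).card := by gcongr
        have h3 : Δ * (ε * (W' i).card) ≤ 1 / k * γΔ / 2 * (W' i).card := by
          rw [← mul_assoc]; gcongr
        have h4 : 1 / k * γΔ * (W' i).card ≤ 1 / k * (Dm ^ (T + 1) / 2) ^ Δ * (W' i).card := by
          gcongr
        linarith)
    set Ua := U2 ∪ Y with hUa
    have hUaW : Ua ⊆ univ.biUnion W' := union_subset hU2W hYW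
    have hUac : (Ua.card : ℝ) ≤ U2.card + (Δ * Δ + Δ) * L.card := by
      have : Ua.card ≤ U2.card + (Δ * Δ + Δ) * L.card :=
        (card_union_le _ _).trans (add_le_add le_rfl hYc)
      exact_mod_cast this
    have hUaR1 : Disjoint R1 Ua := by
      rw [disjoint_left]
      intro x hx hxU
      have := hUaW hxU
      rw [mem_biUnion] at this
      obtain ⟨i, _, hi⟩ := this
      exact disjoint_left.mp (hdisj R1 hR1R hR1Φ i) hx hi
    have hUaX : Disjoint X Ua := by
      rw [disjoint_left]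
      intro x hx hxU
      have := hUaW hxU
      rw [mem_biUnion] at this
      obtain ⟨i, _, hi⟩ := this
      exact disjoint_left.mp (hdisj X hXR hΦX.symm i) hx hi
    -- the flexible set
    have hVc : (Ua ∩ Φ).card ≤ g := by
      have h1 : ((Ua ∩ Φ).card : ℝ) ≤ g := by
        calc ((Ua ∩ Φ).card : ℝ) ≤ Ua.card := by exact_mod_cast card_le_card inter_subset_left
          _ ≤ U2.card + (Δ * Δ + Δ) * L.card := hUac
          _ ≤ U2.card + (Δ * Δ + Δ + 1) * L.card := by
              have : (0:ℝ) ≤ L.card := Nat.cast_nonneg _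
              exact add_le_add le_rfl (mul_le_mul_of_nonneg_right (by linarith) this)
          _ ≤ _ := htot
          _ ≤ _ := hbound
          _ ≤ 1 * (ω ^ (T + 1) * R.card) := by
              have : 1 / k * γΔ / 2 ≤ 1 := by
                have h5 : γΔ ≤ 1 := by
                  rw [hγΔ]
                  apply pow_le_one₀ (by positivity)
                  have : Dm ^ M ≤ 1 := pow_le_one₀ hDm0.le (by linarith)
                  linarith
                have h6 : 1 / (k:ℝ) ≤ 1 := by rw [div_le_one (by positivity)]; exact hkR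
                calc 1 / (k:ℝ) * γΔ / 2 ≤ 1 * 1 / 2 := by gcongr
                  _ ≤ 1 := by norm_num
              gcongr
          _ ≤ g := by
              rw [one_mul, pow_succ]
              have h1 : ω ^ T ≤ 1 := pow_le_one₀ hω0.le hω1
              calc ω ^ T * ω * R.card ≤ 1 * ω * R.card := by gcongr
                _ = η ^ m * (σF * (R.card / (k:ℝ) ^ M)) := by rw [hω]; ring
                _ ≤ 1 * g := by gcongr
                _ = g := one_mul _
      exact_mod_cast h1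
    have hflexT := flex_use hlin Φ X g hΦX hKg hmono (Ua ∩ Φ) inter_subset_right hVc
    -- the pieces
    refine ⟨Ua \ Φ, ?_, ?_, ?_⟩
    · intro x hx
      rw [mem_sdiff] at hx
      have := hUaW hx.1
      rw [mem_biUnion] at this ⊢
      obtain ⟨i, _, hi⟩ := this
      revert hi
      refine Fin.cases ?_ (fun j => ?_) i
      · intro hi; exact absurd (hW'0 hi) hx.2
      · intro hi; exact ⟨j, mem_univ _, hW's j hi⟩
    · calc (((Ua \ Φ).card : ℕ) : ℝ) ≤ Ua.card := by exact_mod_cast card_le_card sdiff_subset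
        _ ≤ U2.card + (Δ * Δ + Δ) * L.card := hUac
        _ ≤ d * ((Δ * Δ + Δ) * τ) * R.card + (Δ * Δ + Δ) * (τ * R.card) := by gcongr
        _ = _ := by push_cast; ring
    · have hset : R ∪ (Ua \ Φ) = (R2 ∪ U2) ∪ ((A \ L) ∪ ((L ∪ Y) ∪ (X ∪ (Φ \ (Ua ∩ Φ))))) := by
        ext x
        have e1 : x ∈ R1 ↔ x ∈ R ∧ x ∉ Φ ∧ x ∉ X := by
          rw [hR1, mem_sdiff, mem_union, not_or]
        have e2 : x ∈ A ↔ x ∈ R1 ∧ Abs q col W' χ1 x := by rw [hA, mem_filter]
        have e3 : x ∈ R2 ↔ x ∈ R1 ∧ ¬ Abs q col W' χ1 x := by rw [hR2, mem_filter]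
        have e4 : x ∈ L → x ∈ A := fun h => hLA h
        have e5 : x ∈ Φ → x ∈ R := fun h => hΦR h
        have e6 : x ∈ X → x ∈ R := fun h => hXR h
        have e7 : x ∈ Ua ↔ x ∈ U2 ∨ x ∈ Y := by rw [hUa, mem_union]
        simp only [mem_union, mem_sdiff, mem_inter]
        rw [e3]
        constructor
        · rintro (hx | ⟨hx, hxΦ⟩)
          · by_cases h1 : x ∈ Φ
            · by_cases h2 : x ∈ Ua
              · rcases e7.mp h2 with h3 | h3
                · exact Or.inl (Or.inr h3)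
                · exact Or.inr (Or.inr (Or.inl (Or.inr h3)))
              · exact Or.inr (Or.inr (Or.inr (Or.inr ⟨h1, fun h => h2 h.1⟩)))
            · by_cases h2 : x ∈ X
              · exact Or.inr (Or.inr (Or.inr (Or.inl h2)))
              · have h3 : x ∈ R1 := e1.mpr ⟨hx, h1, h2⟩
                by_cases h4 : Abs q col W' χ1 x
                · by_cases h5 : x ∈ L
                  · exact Or.inr (Or.inr (Or.inl (Or.inl h5)))
                  · exact Or.inr (Or.inl ⟨e2.mpr ⟨h3, h4⟩, h5⟩)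
                · exact Or.inl (Or.inl ⟨h3, h4⟩)
          · rcases e7.mp hx with h3 | h3
            · exact Or.inl (Or.inr h3)
            · exact Or.inr (Or.inr (Or.inl (Or.inr h3)))
        · rintro ((⟨h1, h2⟩ | h1) | ⟨h1, h2⟩ | (h1 | h1) | h1 | ⟨h1, h2⟩)
          · exact Or.inl (e1.mp h1).1
          · by_cases h2 : x ∈ Φ
            · exact Or.inl (e5 h2)
            · exact Or.inr ⟨e7.mpr (Or.inl h1), h2⟩
          · exact Or.inl (e1.mp (e2.mp h1).1).1
          · exact Or.inl (e1.mp (e2.mp (e4 h1)).1).1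
          · by_cases h2 : x ∈ Φ
            · exact Or.inl (e5 h2)
            · exact Or.inr ⟨e7.mpr (Or.inr h1), h2⟩
          · exact Or.inl (e6 h1)
          · exact Or.inl (e5 h1)
      rw [hset]
      -- disjointness facts
      have hU2Ua : U2 ⊆ Ua := subset_union_left
      have hYUa : Y ⊆ Ua := subset_union_right
      have dR2A : Disjoint R2 A := by
        rw [disjoint_left]
        intro x hx hx2
        exact (mem_filter.mp hx).2 (mem_filter.mp hx2).2
      have dR1U : ∀ Z Z' : Finset α, Z ⊆ R1 → Z' ⊆ Ua → Disjoint Z Z' := fun Z Z' h1 h2 =>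
        disjoint_of_subset_left h1 (disjoint_of_subset_right h2 hUaR1)
      have dR1X : ∀ Z : Finset α, Z ⊆ R1 → Disjoint Z X := fun Z h1 =>
        disjoint_of_subset_left h1 hR1X
      have dR1Φ : ∀ Z : Finset α, Z ⊆ R1 → Disjoint Z (Φ \ (Ua ∩ Φ)) := fun Z h1 =>
        disjoint_of_subset_left h1 (disjoint_of_subset_right sdiff_subset hR1Φ)
      have dUΦ : ∀ Z : Finset α, Z ⊆ Ua → Disjoint Z (Φ \ (Ua ∩ Φ)) := by
        intro Z h1
        rw [disjoint_left]
        intro x hx hx2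
        rw [mem_sdiff, mem_inter] at hx2
        exact hx2.2 ⟨h1 hx, hx2.1⟩
      have dUX : ∀ Z : Finset α, Z ⊆ Ua → Disjoint Z X := fun Z h1 =>
        disjoint_of_subset_left h1 hUaX.symm
      have hALR1 : A \ L ⊆ R1 := sdiff_subset.trans hAR1
      have t1 := hYt.union hflexT (by
        rw [disjoint_union_left, disjoint_union_right, disjoint_union_right]
        exact ⟨⟨dR1X L hLR1, dR1Φ L hLR1⟩, dUX Y hYUa, dUΦ Y hYUa⟩)
      have t2 := hLt.union t1 (by
        rw [disjoint_union_right, disjoint_union_right, disjoint_union_right]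
        exact ⟨⟨sdiff_disjoint, dR1U _ _ hALR1 hYUa⟩, dR1X _ hALR1, dR1Φ _ hALR1⟩)
      have t3 := hU2t.union t2 (by
        rw [disjoint_union_left, disjoint_union_right, disjoint_union_right, disjoint_union_right,
          disjoint_union_right, disjoint_union_right, disjoint_union_right, disjoint_union_right,
          disjoint_union_right]
        refine ⟨⟨disjoint_of_subset_right sdiff_subset dR2A, ⟨disjoint_of_subset_right hLA dR2A,
          dR1U _ _ hR2R1 hYUa⟩, dR1X _ hR2R1, dR1Φ _ hR2R1⟩,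
          (dR1U _ _ hALR1 hU2Ua).symm, ⟨(dR1U _ _ hLR1 hU2Ua).symm, hYU.symm⟩,
          dUX _ hU2Ua, dUΦ _ hU2Ua⟩)
      refine t3.mono ?_
      have h2T : k * 2 ^ (T + 1) ≤ k * 2 ^ M :=
        Nat.mul_le_mul_left _ (Nat.pow_le_pow_right (by norm_num) (by omega))
      have : (d + 1) * (mg + k * 2 ^ M + 2) = d * (mg + k * 2 ^ M + 2) + (mg + k * 2 ^ M + 2) := by
        ring
      omega

end Pool.Agent.H21.Tile
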