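import Pool.Agent.H21.Tile.Flex
import Pool.Agent.H21.Tile.Stage

/-! Existence of flexible sets, with explicit constants. -/

namespace Pool.Agent.H21.Tile

open Finset Classical

theorem flexProp_of {α : Type*} [Nonempty α] {k q Δ M K : ℕ} (F : (r : ℕ) → SimpleGraph (Fin r))
    (hdeg : ∀ r x, (univ.filter ((F r).Adj x)).card ≤ Δ)
    (hcol : ∀ r, ∃ f : Fin r → Fin q, ∀ x y, (F r).Adj x y → f x ≠ f y)
    (col : α → α → Fin k) (hsymm : ∀ a b, col a b = col b a) (hk : 0 < k) (hq : 0 < q)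
    (hM : 0 < M) (hram : RamseyProp k q M) (D1 d ε η : ℝ) (m m2 : ℕ)
    (hD1 : D1 = 1 / ((k : ℝ) ^ M) ^ M) (hd : d = (D1 / 2) ^ Δ)
    (hε : 0 < ε) (hε1 : ε ≤ 1) (hη : 0 < η) (hηε : η ≤ ε)
    (hη2 : η * (8 * (M + 1)) ≤ D1 * ε ^ M) (hm : 1 < (1 + ε ^ M / 4) ^ m * D1)
    (hεd : ε ≤ d) (hΔε : Δ * ε ≤ d / 4)
    (hm2 : 1 < (1 + (d / 16) ^ 2 / 2) ^ m2 * d)
    (σF : ℝ) (hσF : σF = d / (16 * (K + 1)) * (d / 16) ^ m2 * (1 / q) * (d / 8) *
      (η ^ m / (2 * M))) :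
    FlexProp F col K σF := by
  intro S hS
  have hkR : (1:ℝ) ≤ k := by exact_mod_cast hk
  have hqR : (1:ℝ) ≤ q := by exact_mod_cast hq
  have hMR : (1:ℝ) ≤ M := by exact_mod_cast hM
  have hK0 : (0:ℝ) ≤ K := Nat.cast_nonneg _
  have hkM : (1:ℝ) ≤ ((k : ℝ) ^ M) ^ M := one_le_pow₀ (one_le_pow₀ hkR)
  have hD10 : 0 < D1 := by rw [hD1]; positivity
  have hD11 : D1 ≤ 1 := by rw [hD1, div_le_one (by positivity)]; exact hkM
  have hd0 : 0 < d := by rw [hd]; positivity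
  have hd1 : d ≤ 1 := by rw [hd]; exact pow_le_one₀ (by positivity) (by linarith)
  have hη1 : η ≤ 1 := hηε.trans hε1
  have hηm0 : 0 < η ^ m := by positivity
  have hηm1 : η ^ m ≤ 1 := pow_le_one₀ hη.le hη1
  have hSc : (0:ℝ) ≤ S.card := Nat.cast_nonneg _
  set e1 : ℝ := (d / 16) ^ m2 with he1
  have he10 : 0 < e1 := by positivity
  have he11 : e1 ≤ 1 := pow_le_one₀ (by positivity) (by linarith)
  set n0 : ℝ := η ^ m / (2 * M) * S.card with hn0
  have hn00 : 0 ≤ n0 := by positivity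
  -- the main product
  have hprod : σF * S.card = d / (16 * (K + 1)) * e1 * (1 / q) * (d / 8) * n0 := by
    rw [hσF, hn0]; ring
  have hq1 : 1 / (q:ℝ) ≤ 1 := by rw [div_le_one (by positivity)]; exact hqR
  have hK1 : d / (16 * (K + 1)) ≤ 1 := by
    rw [div_le_one (by positivity)]; nlinarith
  have hsmall : σF * S.card ≤ d * n0 / 8 := by
    rw [hprod]
    calc d / (16 * (K + 1)) * e1 * (1 / q) * (d / 8) * n0 ≤ 1 * 1 * 1 * (d / 8) * n0 := by gcongr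
      _ = d * n0 / 8 := by ring
  have hdn0 : 8 ≤ d * n0 := by linarith
  have hn0S : n0 ≤ S.card / (2 * M) := by
    rw [hn0]
    calc η ^ m / (2 * M) * S.card ≤ 1 / (2 * M) * S.card := by gcongr
      _ = _ := by ring
  have hMS : M ≤ S.card := by
    have h1 : (8:ℝ) ≤ n0 := by nlinarith
    have h2 : (8:ℝ) ≤ S.card / (2 * M) := h1.trans hn0S
    rw [le_div_iff₀ (by positivity)] at h2
    have h3 : (M:ℝ) ≤ S.card := by nlinarith
    exact_mod_cast h3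
  obtain ⟨c, A, hAS, hAd, hAne, hAc, hreg⟩ := mono_tuple hM hram col hsymm hk ε η m hε hε1 hη hηε
    (by rw [← hD1]; exact hη2) (by rw [← hD1]; exact hm) S hMS
  rw [← hD1] at hreg
  obtain ⟨r, hr⟩ : ∃ r : ℕ, r = ⌊d * n0 / 4⌋₊ := ⟨_, rfl⟩
  have hr1 : (r:ℝ) ≤ d * n0 / 4 := by rw [hr]; exact Nat.floor_le (by positivity)
  have hr2 : d * n0 / 4 < r + 1 := by rw [hr]; exact Nat.lt_floor_add_one _
  have hr3 : d * n0 / 8 ≤ r := by linarith
  have hr0 : 0 < r := by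
    have : (0:ℝ) < r := by linarith
    exact_mod_cast this
  obtain ⟨h, hh⟩ : ∃ h : ℝ, h = e1 * (r / q) := ⟨_, rfl⟩
  have hh0 : 0 < h := by rw [hh]; positivity
  set x : ℝ := d / 8 * h / (K + 1) with hx
  have hx1 : 2 * (σF * S.card) ≤ x := by
    rw [hprod, hx, hh]
    have h1 : 2 * (d / (16 * (K + 1)) * e1 * (1 / q) * (d / 8) * n0) =
        d / 8 * (e1 * ((d * n0 / 8) / q)) / (K + 1) := by field_simp; ring
    rw [h1]
    gcongr
  obtain ⟨g, hg⟩ : ∃ g : ℕ, g = ⌊x⌋₊ := ⟨_, rfl⟩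
  have hx0 : 0 ≤ x := by linarith
  have hg1 : (g:ℝ) ≤ x := by rw [hg]; exact Nat.floor_le hx0
  have hg2 : x < g + 1 := by rw [hg]; exact Nat.lt_floor_add_one _
  obtain ⟨Φ, X, ⟨i, hΦA⟩, hXA, hΦX, hKg, -, hmono⟩ := flex_of_tuple (K := K) F hdeg hcol col hsymm c
    A hAd ε (D1 / 2) hε.le (by positivity) (by linarith) (by rw [← hd]; exact hεd)
    (by rw [← hd]; exact hΔε) hreg n0 hAc r hr0 (by rw [← hd]; exact hr1) m2
    (by rw [← hd]; exact hm2) h (by rw [← hd]; exact hh) (by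
      rw [← hd]
      have h1 : x * (K + 1) = d / 8 * h := by rw [hx]; field_simp
      nlinarith) g (by
      rw [← hd]
      calc ((K:ℝ) + 1) * g ≤ (K + 1) * x := by gcongr
        _ = d / 8 * h := by rw [hx]; field_simp)
  refine ⟨Φ, X, g, hΦA.trans (hAS i), ?_, hΦX, by linarith, hKg, hmono⟩
  intro y hy
  have := hXA hy
  rw [mem_biUnion] at this
  obtain ⟨j, _, hj⟩ := this
  exact hAS j hj

end Pool.Agent.H21.Tile
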