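import Mathlib

/-! Hereditarily good sets. -/

namespace Pool.Agent.H21.Tile

open Finset Classical

variable {α : Type*}

/-- `T` can be extended `s` more times, most extensions by points of `A` being fine; at the end it
has at least `θ` common neighbours in `B`. -/
def Good (rel : α → α → Prop) (B A : Finset α) (θ ρ : ℝ) : ℕ → Finset α → Prop
  | 0, T => θ ≤ ((B.filter (fun w => ∀ x ∈ T, rel x w)).card : ℝ)
  | s + 1, T => Good rel B A θ ρ s T ∧
      ((A.filter (fun x => ¬ Good rel B A θ ρ s (insert x T))).card : ℝ) < ρ * A.card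

variable (rel : α → α → Prop) (B A : Finset α) (θ ρ : ℝ)

lemma Good.anti (s : ℕ) : ∀ T T' : Finset α, T ⊆ T' → Good rel B A θ ρ s T' →
    Good rel B A θ ρ s T := by
  induction s with
  | zero =>
    intro T T' hTT h
    simp only [Good] at h ⊢
    refine h.trans ?_
    apply Nat.cast_le.mpr
    apply card_le_card
    intro w hw
    rw [mem_filter] at hw ⊢
    exact ⟨hw.1, fun x hx => hw.2 x (hTT hx)⟩
  | succ s ih =>
    intro T T' hTT h
    simp only [Good] at h ⊢
    refine ⟨ih T T' hTT h.1, lt_of_le_of_lt ?_ h.2⟩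
    apply Nat.cast_le.mpr
    apply card_le_card
    intro x hx
    rw [mem_filter] at hx ⊢
    exact ⟨hx.1, fun hg => hx.2 (ih _ _ (insert_subset_insert x hTT) hg)⟩

lemma Good.zero_of (s : ℕ) : ∀ T, Good rel B A θ ρ s T → Good rel B A θ ρ 0 T := by
  induction s with
  | zero => intro T h; exact h
  | succ s ih => intro T h; exact ih T h.1

/-- The tuples witnessing that `T` is not good. -/
noncomputable def nb (s : ℕ) (T : Finset α) : ℕ :=
  ((Fintype.piFinset (fun _ : Fin s => A)).filter (fun x =>
    ((B.filter (fun w => (∀ y ∈ T, rel y w) ∧ ∀ i, rel (x i) w)).card : ℝ) < θ)).card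

lemma nb_succ (s : ℕ) (T : Finset α) :
    ∑ x ∈ A, nb rel B A θ s (insert x T) ≤ nb rel B A θ (s + 1) T := by
  unfold nb
  rw [← card_sigma]
  apply card_le_card_of_injOn (fun p : (_ : α) × (Fin s → α) => (Fin.cons p.1 p.2 : Fin (s + 1) → α))
  · intro p hp
    rw [mem_coe, mem_sigma, mem_filter, Fintype.mem_piFinset] at hp
    rw [mem_coe, mem_filter, Fintype.mem_piFinset]
    refine ⟨?_, ?_⟩
    · intro i
      refine Fin.cases ?_ (fun j => ?_) i
      · simpa using hp.1
      · simpa using hp.2.1 j
    · refine lt_of_le_of_lt ?_ hp.2.2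
      apply Nat.cast_le.mpr
      apply card_le_card
      intro w hw
      rw [mem_filter] at hw ⊢
      refine ⟨hw.1, ?_, ?_⟩
      · intro y hy
        rw [mem_insert] at hy
        rcases hy with rfl | hy
        · simpa using hw.2.2 0
        · exact hw.2.1 y hy
      · intro i
        simpa using hw.2.2 i.succ
  · rintro ⟨x, f⟩ _ ⟨y, g⟩ _ h
    simp only at h
    have h1 : x = y := by
      have := congrFun h 0
      simpa using this
    have h2 : f = g := by
      funext i
      have := congrFun h i.succ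
      simpa using this
    subst h1; subst h2; rfl

lemma nb_of_not_good (hρ : 0 ≤ ρ) (hρ1 : ρ ≤ 1) (s : ℕ) : ∀ T, ¬ Good rel B A θ ρ s T →
    (ρ * A.card) ^ s ≤ nb rel B A θ s T := by
  have hA : (0:ℝ) ≤ A.card := Nat.cast_nonneg _
  induction s with
  | zero =>
    intro T hT
    simp only [Good, not_le] at hT
    rw [pow_zero]
    have : 1 ≤ nb rel B A θ 0 T := by
      unfold nb
      rw [Nat.one_le_iff_ne_zero, ← Nat.pos_iff_ne_zero, card_pos]
      refine ⟨Fin.elim0, ?_⟩
      rw [mem_filter, Fintype.mem_piFinset]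
      refine ⟨fun i => i.elim0, ?_⟩
      refine lt_of_le_of_lt ?_ hT
      apply Nat.cast_le.mpr
      apply card_le_card
      intro w hw
      rw [mem_filter] at hw ⊢
      exact ⟨hw.1, hw.2.1⟩
    exact_mod_cast this
  | succ s ih =>
    intro T hT
    have h1 : (∑ x ∈ A, (nb rel B A θ s (insert x T) : ℝ)) ≤ nb rel B A θ (s + 1) T := by
      exact_mod_cast nb_succ rel B A θ s T
    refine le_trans ?_ h1
    rw [pow_succ, mul_comm]
    simp only [Good, not_and_or, not_lt] at hT
    rcases hT with hT | hT
    · have h2 : ∀ x ∈ A, (ρ * A.card) ^ s ≤ (nb rel B A θ s (insert x T) : ℝ) := by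
        intro x _
        apply ih
        intro hg
        exact hT (Good.anti rel B A θ ρ s _ _ (subset_insert x T) hg)
      have h3 := sum_le_sum h2
      rw [sum_const, nsmul_eq_mul] at h3
      refine le_trans ?_ h3
      gcongr
      nlinarith
    · set Bd := A.filter (fun x => ¬ Good rel B A θ ρ s (insert x T)) with hBd
      have h2 : ∑ x ∈ Bd, (ρ * A.card) ^ s ≤ ∑ x ∈ Bd, (nb rel B A θ s (insert x T) : ℝ) := by
        apply sum_le_sum
        intro x hx
        rw [hBd, mem_filter] at hx
        exact ih _ hx.2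
      have h3 : ∑ x ∈ Bd, (nb rel B A θ s (insert x T) : ℝ) ≤
          ∑ x ∈ A, (nb rel B A θ s (insert x T) : ℝ) :=
        sum_le_sum_of_subset_of_nonneg (filter_subset _ _) fun _ _ _ => Nat.cast_nonneg _
      rw [sum_const, nsmul_eq_mul] at h2
      refine le_trans ?_ (h2.trans h3)
      gcongr

end Pool.Agent.H21.Tile
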