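import Mathlib

/-! Greedy embedding of a bounded degree graph into a lower regular tuple of sets. -/

namespace Pool.Agent.H21.Tile

open Finset Classical

/-- Lower regularity of the tuple of sets `A` for the relation `rel`. -/
def LowReg {α ι : Type*} (rel : α → α → Prop) (A : ι → Finset α) (ε γ : ℝ) : Prop :=
  ∀ i j, i ≠ j → ∀ Y ⊆ A i, ∀ C ⊆ A j, ε * (A i).card ≤ (Y.card : ℝ) → ε * (A j).card ≤ (C.card : ℝ) →
    Y.Nonempty → ∃ y ∈ Y, γ * C.card ≤ ((C.filter (rel y)).card : ℝ)

/-- Greedy embedding lemma. -/
theorem greedy_embed {α ι X : Type*} [Fintype X] [Nonempty α]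
    (rel : α → α → Prop) (hsymm : ∀ a b, rel a b → rel b a)
    (A : ι → Finset α) (ε γ δ : ℝ) (hγ : 0 < γ) (hγ1 : γ ≤ 1) (hδ : 0 < δ)
    (hreg : LowReg rel A ε γ)
    (H : SimpleGraph X) (Δ : ℕ) (hdeg : ∀ x, (univ.filter (H.Adj x)).card ≤ Δ)
    (f : X → ι) (hf : ∀ x y, H.Adj x y → f x ≠ f y)
    (C0 : X → Finset α) (hC0 : ∀ x, C0 x ⊆ A (f x))
    (hC0' : ∀ x, δ * (A (f x)).card ≤ ((C0 x).card : ℝ))
    (hε0 : 0 ≤ ε) (hεδ : ε ≤ δ * γ ^ Δ)
    (U : Finset α) (S : Finset X)
    (hsize : ∀ x ∈ S, ((U ∩ A (f x)).card : ℝ) + S.card + Δ * (ε * (A (f x)).card)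
      ≤ δ * γ ^ Δ * (A (f x)).card) :
    ∃ φ : X → α, (∀ x ∈ S, φ x ∈ C0 x ∧ φ x ∉ U) ∧ Set.InjOn φ S ∧
      (∀ x ∈ S, ∀ y ∈ S, H.Adj x y → rel (φ x) (φ y)) ∧
      ∀ x, x ∉ S → δ * γ ^ Δ * (A (f x)).card ≤
        (((C0 x).filter (fun w => ∀ y ∈ S, H.Adj x y → rel (φ y) w)).card : ℝ) := by
  have hdegT : ∀ (T : Finset X) x, (T.filter (H.Adj x)).card ≤ Δ := fun T x =>
    (card_le_card (filter_subset_filter _ (subset_univ T))).trans (hdeg x)
  have hpow : ∀ n, n ≤ Δ → γ ^ Δ ≤ γ ^ n := fun n hn => pow_le_pow_of_le_one hγ.le hγ1 hn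
  have hcardnn : ∀ i, (0 : ℝ) ≤ ((A i).card : ℝ) := fun i => Nat.cast_nonneg _
  -- strengthened induction
  have main : ∀ T : Finset X, T ⊆ S → ∃ φ : X → α, (∀ x ∈ T, φ x ∈ C0 x ∧ φ x ∉ U) ∧
      Set.InjOn φ T ∧ (∀ x ∈ T, ∀ y ∈ T, H.Adj x y → rel (φ x) (φ y)) ∧
      ∀ x, x ∉ T → δ * γ ^ (T.filter (H.Adj x)).card * (A (f x)).card ≤
        (((C0 x).filter (fun w => ∀ y ∈ T, H.Adj x y → rel (φ y) w)).card : ℝ) := by
    intro T
    induction T using Finset.induction_on with
    | empty =>
      intro _
      obtain ⟨a⟩ := ‹Nonempty α›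
      refine ⟨fun _ => a, by simp, by simp, by simp, ?_⟩
      intro x _
      simpa using hC0' x
    | insert a T haT ih =>
      intro hTS
      obtain ⟨φ, h1, h2, h3, h4⟩ := ih ((subset_insert _ _).trans hTS)
      have haS : a ∈ S := hTS (mem_insert_self _ _)
      set Cand : X → Finset α := fun x => (C0 x).filter (fun w => ∀ y ∈ T, H.Adj x y → rel (φ y) w)
        with hCand
      have hCandsub : ∀ x, Cand x ⊆ A (f x) := fun x => (filter_subset _ _).trans (hC0 x)
      have hCandcard : ∀ x, x ∉ T → δ * γ ^ Δ * (A (f x)).card ≤ ((Cand x).card : ℝ) := by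
        intro x hx
        refine le_trans ?_ (h4 x hx)
        have := hpow _ (hdegT T x)
        gcongr
      set Bad : X → Finset α := fun x => (A (f a)).filter
        (fun z => (((Cand x).filter (rel z)).card : ℝ) < γ * (Cand x).card) with hBad
      have hBadcard : ∀ x, H.Adj a x → x ∉ T → ((Bad x).card : ℝ) ≤ ε * (A (f a)).card := by
        intro x hax hxT
        by_contra hcon
        push Not at hcon
        have hne : (Bad x).Nonempty := by
          rw [← card_pos]
          have : (0 : ℝ) < ((Bad x).card : ℝ) := lt_of_le_of_lt (by positivity) hcon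
          exact_mod_cast this
        obtain ⟨y, hy, hy2⟩ := hreg (f a) (f x) (hf a x hax) (Bad x) (filter_subset _ _) (Cand x)
          (hCandsub x) hcon.le (by
            refine le_trans ?_ (hCandcard x hxT)
            gcongr) hne
        rw [hBad, mem_filter] at hy
        exact absurd hy2 (not_le.mpr hy.2)
      set BadU : Finset α := ((univ.filter (H.Adj a)).filter (fun x => x ∉ T)).biUnion Bad with hBadU
      have hBadUcard : (BadU.card : ℝ) ≤ Δ * (ε * (A (f a)).card) := by
        have hle : (BadU.card : ℝ) ≤ ∑ x ∈ (univ.filter (H.Adj a)).filter (fun x => x ∉ T),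
            ((Bad x).card : ℝ) := by
          exact_mod_cast card_biUnion_le
        refine hle.trans ?_
        have : ∑ x ∈ (univ.filter (H.Adj a)).filter (fun x => x ∉ T), ((Bad x).card : ℝ) ≤
            ∑ x ∈ (univ.filter (H.Adj a)).filter (fun x => x ∉ T), ε * (A (f a)).card := by
          apply sum_le_sum
          intro x hx
          rw [mem_filter, mem_filter] at hx
          exact hBadcard x hx.1.2 hx.2
        refine this.trans ?_
        rw [sum_const, nsmul_eq_mul]
        have h5 : (((univ.filter (H.Adj a)).filter (fun x => x ∉ T)).card : ℝ) ≤ Δ := by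
          exact_mod_cast (card_le_card (filter_subset _ _)).trans (hdeg a)
        have : (0:ℝ) ≤ ε * (A (f a)).card := by positivity
        gcongr
      -- choose the image of `a`
      have hex : ∃ z ∈ Cand a, z ∉ (U ∩ A (f a)) ∪ (T.image φ ∪ BadU) := by
        by_contra hcon
        push Not at hcon
        have hsub : Cand a ⊆ (U ∩ A (f a)) ∪ (T.image φ ∪ BadU) := fun z hz => hcon z hz
        have hc1 := card_le_card hsub
        have hc2 : ((U ∩ A (f a)) ∪ (T.image φ ∪ BadU)).card ≤
            (U ∩ A (f a)).card + (T.card + BadU.card) :=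
          (card_union_le _ _).trans (add_le_add le_rfl ((card_union_le _ _).trans
            (add_le_add card_image_le le_rfl)))
        have hc3 : ((Cand a).card : ℝ) ≤ (U ∩ A (f a)).card + (T.card + BadU.card) := by
          exact_mod_cast hc1.trans hc2
        have hc4 : T.card + 1 ≤ S.card := by
          rw [← card_insert_of_notMem haT]
          exact card_le_card hTS
        have hc4' : (T.card : ℝ) + 1 ≤ S.card := by exact_mod_cast hc4
        have hc5 := hCandcard a haT
        have hc6 := hsize a haS
        linarith
      obtain ⟨z, hz, hzn⟩ := hex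
      rw [mem_union, mem_union] at hzn
      push Not at hzn
      obtain ⟨hzU, hzT, hzB⟩ := hzn
      have hzA : z ∈ A (f a) := hCandsub a hz
      have hzC := (mem_filter.mp hz)
      have hup : ∀ y ∈ T, Function.update φ a z y = φ y := by
        intro y hy
        rw [Function.update_of_ne]
        rintro rfl
        exact haT hy
      refine ⟨Function.update φ a z, ?_, ?_, ?_, ?_⟩
      · intro x hx
        rw [mem_insert] at hx
        rcases hx with rfl | hx
        · rw [Function.update_self]
          exact ⟨hzC.1, fun h => hzU (mem_inter.mpr ⟨h, hzA⟩)⟩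
        · rw [hup x hx]; exact h1 x hx
      · intro x hx y hy hxy
        rw [mem_coe, mem_insert] at hx hy
        rcases hx with rfl | hx
        · rcases hy with rfl | hy
          · rfl
          · rw [Function.update_self, hup y hy] at hxy
            exact absurd (mem_image.mpr ⟨y, hy, hxy.symm⟩) hzT
        · rcases hy with rfl | hy
          · rw [Function.update_self, hup x hx] at hxy
            exact absurd (mem_image.mpr ⟨x, hx, hxy⟩) hzT
          · rw [hup x hx, hup y hy] at hxy
            exact h2 hx hy hxy
      · intro x hx y hy hxy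
        rw [mem_insert] at hx hy
        rcases hx with rfl | hx
        · rcases hy with rfl | hy
          · exact absurd hxy (H.irrefl)
          · rw [Function.update_self, hup y hy]
            exact hsymm _ _ (hzC.2 y hy hxy)
        · rcases hy with rfl | hy
          · rw [Function.update_self, hup x hx]
            exact hzC.2 x hx hxy.symm
          · rw [hup x hx, hup y hy]
            exact h3 x hx y hy hxy
      · intro x hx
        rw [mem_insert] at hx
        push Not at hx
        obtain ⟨hxa, hxT⟩ := hx
        by_cases hax : H.Adj x a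
        · have e1 : (insert a T).filter (H.Adj x) = insert a (T.filter (H.Adj x)) := by
            rw [filter_insert, if_pos hax]
          have e2 : a ∉ T.filter (H.Adj x) := fun h => haT (mem_filter.mp h).1
          rw [e1, card_insert_of_notMem e2]
          have hzgood : γ * (Cand x).card ≤ (((Cand x).filter (rel z)).card : ℝ) := by
            by_contra hcon
            push Not at hcon
            apply hzB
            rw [hBadU, mem_biUnion]
            refine ⟨x, ?_, ?_⟩
            · rw [mem_filter, mem_filter]; exact ⟨⟨mem_univ _, hax.symm⟩, hxT⟩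
            · rw [hBad, mem_filter]; exact ⟨hzA, hcon⟩
          have e3 : (Cand x).filter (rel z) ⊆ (C0 x).filter
              (fun w => ∀ y ∈ insert a T, H.Adj x y → rel (Function.update φ a z y) w) := by
            intro w hw
            rw [mem_filter, hCand, mem_filter] at hw
            rw [mem_filter]
            refine ⟨hw.1.1, ?_⟩
            intro y hy hxy
            rw [mem_insert] at hy
            rcases hy with rfl | hy
            · rw [Function.update_self]; exact hw.2
            · rw [hup y hy]; exact hw.1.2 y hy hxy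
          have e4 := card_le_card e3
          have e4' : (((Cand x).filter (rel z)).card : ℝ) ≤ _ := Nat.cast_le.mpr e4
          refine le_trans ?_ e4'
          refine le_trans ?_ hzgood
          have e5 := h4 x hxT
          have e6 : γ * (δ * γ ^ (T.filter (H.Adj x)).card * (A (f x)).card) ≤ γ * (Cand x).card :=
            mul_le_mul_of_nonneg_left e5 hγ.le
          refine le_trans (le_of_eq ?_) e6
          ring
        · have e1 : (insert a T).filter (H.Adj x) = T.filter (H.Adj x) := by
            rw [filter_insert, if_neg hax]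
          rw [e1]
          refine (h4 x hxT).trans ?_
          apply Nat.cast_le.mpr
          apply card_le_card
          intro w hw
          rw [mem_filter] at hw ⊢
          refine ⟨hw.1, ?_⟩
          intro y hy hxy
          rw [mem_insert] at hy
          rcases hy with rfl | hy
          · exact absurd hxy hax
          · rw [hup y hy]; exact hw.2 y hy hxy
  obtain ⟨φ, h1, h2, h3, h4⟩ := main S le_rfl
  refine ⟨φ, h1, h2, h3, ?_⟩
  intro x hx
  refine le_trans ?_ (h4 x hx)
  have := hpow _ (hdegT S x)
  gcongr

end Pool.Agent.H21.Tile
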