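import Pool.Agent.H21.Tile.DRC
import Pool.Agent.H21.Tile.Good

/-! Linear Ramsey numbers of bounded degree graphs of bounded chromatic number. -/

namespace Pool.Agent.H21.Tile

open Finset Classical

lemma chain_exists {α : Type*} {k : ℕ} (col : α → α → Fin k) (S : Finset α) (hS : S.Nonempty)
    (Δ : ℕ) (hΔ : 0 < Δ) (ζ : ℕ → ℝ) (hζ : ∀ i, 0 < ζ i) (hζ1 : ∀ i, 2 * ζ i ≤ 1) :
    ∃ (U : ℕ → Finset α) (c : ℕ → Fin k), U 0 = S ∧ (∀ i, (U i).Nonempty) ∧
      (∀ i, U (i + 1) ⊆ U i) ∧
      (∀ i, ((U i).card : ℝ) / (2 * (k : ℝ) ^ Δ) ≤ (U (i + 1)).card) ∧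
      ∀ i, Good (fun a b => col a b = c i) (U i) (U (i + 1)) (ζ i / (2 * (k : ℝ) ^ Δ) * (U i).card)
        (2 * ζ i) Δ ∅ := by
  obtain ⟨u0, hu0⟩ := hS
  have hkpos : 0 < k := Fin.pos (col u0 u0)
  have hk : (0:ℝ) < k := by exact_mod_cast hkpos
  have step : ∀ (i : ℕ) (V : {V : Finset α // V.Nonempty}), ∃ (c : Fin k)
      (V' : {V : Finset α // V.Nonempty}), V'.1 ⊆ V.1 ∧
      (V.1.card : ℝ) / (2 * (k : ℝ) ^ Δ) ≤ V'.1.card ∧
      Good (fun a b => col a b = c) V.1 V'.1 (ζ i / (2 * (k : ℝ) ^ Δ) * V.1.card)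
        (2 * ζ i) Δ ∅ := by
    intro i V
    obtain ⟨c, V', h1, h2, h3⟩ := drc_step col V.1 V.2 Δ hΔ (ζ i) (hζ i)
    have hVpos : (0:ℝ) < V.1.card := by exact_mod_cast card_pos.mpr V.2
    have hV'pos : (0:ℝ) < V'.card := lt_of_lt_of_le (by positivity) h2
    have hV'ne : V'.Nonempty := by rw [← card_pos]; exact_mod_cast hV'pos
    refine ⟨c, ⟨V', hV'ne⟩, h1, h2, ?_⟩
    by_contra hcon
    have h4 := nb_of_not_good (fun a b => col a b = c) V.1 V' (ζ i / (2 * (k : ℝ) ^ Δ) * V.1.card)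
      (2 * ζ i) (by linarith [hζ i]) (hζ1 i) Δ ∅ hcon
    have h5 : (nb (fun a b => col a b = c) V.1 V' (ζ i / (2 * (k : ℝ) ^ Δ) * V.1.card) Δ ∅ : ℝ) ≤
        ζ i ^ Δ * (V'.card : ℝ) ^ Δ := by
      refine le_trans (le_of_eq ?_) h3
      unfold nb
      simp
    have h6 : ζ i ^ Δ * (V'.card : ℝ) ^ Δ < (2 * ζ i * V'.card) ^ Δ := by
      rw [← mul_pow]
      apply pow_lt_pow_left₀ _ _ (by omega)
      · have := mul_pos (hζ i) hV'pos
        linarith
      · have := hζ i
        positivity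
    linarith
  choose c0 V0 hV0 using step
  let g : ℕ → {V : Finset α // V.Nonempty} := fun n => Nat.rec ⟨S, ⟨u0, hu0⟩⟩ (fun i V => V0 i V) n
  have hg : ∀ i, g (i + 1) = V0 i (g i) := fun i => rfl
  refine ⟨fun i => (g i).1, fun i => c0 i (g i), rfl, fun i => (g i).2, ?_, ?_, ?_⟩
  · intro i; exact (hV0 i (g i)).1
  · intro i; exact (hV0 i (g i)).2.1
  · intro i; exact (hV0 i (g i)).2.2

lemma Good.succ_iff {α : Type*} (rel : α → α → Prop) (B A : Finset α) (θ ρ : ℝ) (s : ℕ)
    (T : Finset α) : Good rel B A θ ρ (s + 1) T ↔ (Good rel B A θ ρ s T ∧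
      ((A.filter (fun x => ¬ Good rel B A θ ρ s (insert x T))).card : ℝ) < ρ * A.card) := Iff.rfl

lemma Good.zero_iff {α : Type*} (rel : α → α → Prop) (B A : Finset α) (θ ρ : ℝ)
    (T : Finset α) : Good rel B A θ ρ 0 T ↔
      θ ≤ ((B.filter (fun w => ∀ x ∈ T, rel x w)).card : ℝ) := Iff.rfl

/-- Embedding with hereditarily good sets. -/
theorem embed_good {α X : Type*} [Nonempty α] [Fintype X] {Δ q : ℕ} (hΔ : 0 < Δ)
    (rel : α → α → Prop) (hrels : ∀ a b, rel a b → rel b a)
    (H : SimpleGraph X) (hdeg : ∀ x, (univ.filter (H.Adj x)).card ≤ Δ)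
    (f : X → Fin q) (hf : ∀ x y, H.Adj x y → f x ≠ f y)
    (Bf Af : X → Finset α) (θ ρ : X → ℝ)
    (hgood0 : ∀ x, Good rel (Bf x) (Af x) (θ x) (ρ x) Δ ∅)
    (hsub : ∀ x a, f x < f a → Bf a ⊆ Af x)
    (hnum1 : ∀ x a, f x < f a → Δ * (ρ x * (Af x).card) ≤ θ a / 2)
    (hnum2 : ∀ a, (Fintype.card X : ℝ) ≤ θ a / 2) :
    ∃ φ : X → α, Function.Injective φ ∧ (∀ x, φ x ∈ Bf x) ∧
      ∀ x y, H.Adj x y → rel (φ x) (φ y) := by
  have hΔR : (1:ℝ) ≤ Δ := by exact_mod_cast hΔ
  have main : ∀ s : Finset X, ∃ φ : X → α, Set.InjOn φ s ∧ (∀ x ∈ s, φ x ∈ Bf x) ∧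
      (∀ x ∈ s, ∀ y ∈ s, H.Adj x y → rel (φ x) (φ y)) ∧
      ∀ x, Good rel (Bf x) (Af x) (θ x) (ρ x)
        (Δ - (s.filter (fun y => H.Adj x y ∧ f x < f y)).card)
        ((s.filter (fun y => H.Adj x y ∧ f x < f y)).image φ) := by
    intro s
    induction s using Finset.induction_on_min_value f with
    | empty =>
      obtain ⟨u⟩ := ‹Nonempty α›
      refine ⟨fun _ => u, by simp, by simp, by simp, ?_⟩
      intro x
      simpa using hgood0 x
    | insert a s has hmin ih =>
      obtain ⟨φ, h1, h2, h3, h4⟩ := ih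
      obtain ⟨Np, hNp⟩ : ∃ Np : X → Finset X, Np = fun x => s.filter
        (fun y => H.Adj x y ∧ f x < f y) := ⟨_, rfl⟩
      have hNpx : ∀ x, s.filter (fun y => H.Adj x y ∧ f x < f y) = Np x := by
        intro x; rw [hNp]
      simp only [hNpx] at h4
      have hNpsub : ∀ x, Np x ⊆ s := by intro x; rw [hNp]; exact filter_subset _ _
      have hNa : ∀ y ∈ s, H.Adj a y → y ∈ Np a := by
        intro y hy hay
        rw [hNp, mem_filter]
        exact ⟨hy, hay, lt_of_le_of_ne (hmin y hy) (hf a y hay)⟩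
      obtain ⟨Cand, hCand⟩ : ∃ Cand, Cand = (Bf a).filter
        (fun w => ∀ t ∈ (Np a).image φ, rel t w) := ⟨_, rfl⟩
      have hCandc : θ a ≤ Cand.card := by
        have := Good.zero_of _ _ _ _ _ _ _ (h4 a)
        rw [Good.zero_iff] at this
        rw [hCand]; exact this
      obtain ⟨Bx, hBx⟩ : ∃ Bx, Bx = univ.filter (fun x => H.Adj a x ∧ f x < f a) := ⟨_, rfl⟩
      have hNpcard : ∀ x ∈ Bx, (Np x).card + 1 ≤ Δ := by
        intro x hx
        rw [hBx, mem_filter] at hx
        have h5 : a ∉ Np x := fun h => has (hNpsub x h)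
        rw [← card_insert_of_notMem h5]
        refine (card_le_card ?_).trans (hdeg x)
        intro y hy
        rw [mem_insert] at hy
        rw [mem_filter]
        refine ⟨mem_univ _, ?_⟩
        rcases hy with rfl | hy
        · exact hx.2.1.symm
        · rw [hNp] at hy; exact (mem_filter.mp hy).2.1
      obtain ⟨Bd, hBd⟩ : ∃ Bd : X → Finset α, Bd = fun x => (Af x).filter (fun z =>
        ¬ Good rel (Bf x) (Af x) (θ x) (ρ x) (Δ - (Np x).card - 1)
          (insert z ((Np x).image φ))) := ⟨_, rfl⟩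
      have hBdc : ∀ x ∈ Bx, ((Bd x).card : ℝ) ≤ ρ x * (Af x).card := by
        intro x hx
        have h5 := hNpcard x hx
        have h6 := h4 x
        obtain ⟨t, ht⟩ : ∃ t, Δ - (Np x).card = t + 1 := ⟨Δ - (Np x).card - 1, by omega⟩
        have h7 : Δ - (Np x).card - 1 = t := by omega
        rw [ht, Good.succ_iff] at h6
        rw [hBd]
        simp only [h7]
        exact h6.2.le
      have hθa : 0 ≤ θ a := by
        have := hnum2 a
        have : (0:ℝ) ≤ Fintype.card X := Nat.cast_nonneg _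
        linarith
      have hBdU : ((Bx.biUnion Bd).card : ℝ) ≤ θ a / 2 := by
        have h5 : ((Bx.biUnion Bd).card : ℝ) ≤ ∑ x ∈ Bx, ((Bd x).card : ℝ) := by
          exact_mod_cast card_biUnion_le
        refine h5.trans ?_
        have h6 : ∑ x ∈ Bx, ((Bd x).card : ℝ) ≤ ∑ x ∈ Bx, θ a / 2 / Δ := by
          apply sum_le_sum
          intro x hx
          refine (hBdc x hx).trans ?_
          rw [le_div_iff₀ (by positivity), mul_comm]
          rw [hBx, mem_filter] at hx
          exact hnum1 _ _ hx.2.2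
        refine h6.trans ?_
        rw [sum_const, nsmul_eq_mul]
        have h7 : (Bx.card : ℝ) ≤ Δ := by
          have : Bx ⊆ univ.filter (H.Adj a) := by
            intro x hx
            rw [hBx, mem_filter] at hx
            rw [mem_filter]; exact ⟨mem_univ _, hx.2.1⟩
          exact_mod_cast (card_le_card this).trans (hdeg a)
        calc (Bx.card : ℝ) * (θ a / 2 / Δ) ≤ Δ * (θ a / 2 / Δ) := by gcongr
          _ = θ a / 2 := by field_simp
      have hscard : (s.card : ℝ) + 1 ≤ Fintype.card X := by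
        have : (insert a s).card ≤ Fintype.card X := card_le_univ _
        rw [card_insert_of_notMem has] at this
        exact_mod_cast this
      have hex : ∃ z ∈ Cand, z ∉ s.image φ ∪ Bx.biUnion Bd := by
        by_contra hcon
        push Not at hcon
        have hsub : Cand ⊆ s.image φ ∪ Bx.biUnion Bd := fun z hz => hcon z hz
        have h5 := (card_le_card hsub).trans (card_union_le _ _)
        have h6 : (Cand.card : ℝ) ≤ s.card + (Bx.biUnion Bd).card := by
          exact_mod_cast h5.trans (add_le_add card_image_le le_rfl)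
        have h7 := hnum2 a
        linarith
      obtain ⟨z, hz, hzn⟩ := hex
      rw [mem_union] at hzn
      push Not at hzn
      obtain ⟨hzs, hzB⟩ := hzn
      rw [hCand, mem_filter] at hz
      have hup : ∀ y ∈ s, Function.update φ a z y = φ y := by
        intro y hy
        rw [Function.update_of_ne]
        rintro rfl
        exact has hy
      have himg : ∀ T ⊆ s, T.image (Function.update φ a z) = T.image φ := by
        intro T hT
        apply image_congr
        intro y hy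
        exact hup y (hT hy)
      refine ⟨Function.update φ a z, ?_, ?_, ?_, ?_⟩
      · intro x hx y hy hxy
        rw [mem_coe, mem_insert] at hx hy
        rcases hx with rfl | hx
        · rcases hy with rfl | hy
          · rfl
          · rw [Function.update_self, hup y hy] at hxy
            exact absurd (mem_image.mpr ⟨y, hy, hxy.symm⟩) hzs
        · rcases hy with rfl | hy
          · rw [Function.update_self, hup x hx] at hxy
            exact absurd (mem_image.mpr ⟨x, hx, hxy⟩) hzs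
          · rw [hup x hx, hup y hy] at hxy
            exact h1 hx hy hxy
      · intro x hx
        rw [mem_insert] at hx
        rcases hx with rfl | hx
        · rw [Function.update_self]; exact hz.1
        · rw [hup x hx]; exact h2 x hx
      · intro x hx y hy hxy
        rw [mem_insert] at hx hy
        rcases hx with rfl | hx
        · rcases hy with rfl | hy
          · exact absurd hxy (H.irrefl)
          · rw [Function.update_self, hup y hy]
            exact hrels _ _ (hz.2 _ (mem_image_of_mem φ (hNa y hy hxy)))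
        · rcases hy with rfl | hy
          · rw [Function.update_self, hup x hx]
            exact hz.2 _ (mem_image_of_mem φ (hNa x hx hxy.symm))
          · rw [hup x hx, hup y hy]
            exact h3 x hx y hy hxy
      · intro x
        by_cases hax : H.Adj x a ∧ f x < f a
        · have e1 : (insert a s).filter (fun y => H.Adj x y ∧ f x < f y) = insert a (Np x) := by
            rw [filter_insert, if_pos hax, hNpx]
          have e2 : a ∉ Np x := fun h => has (hNpsub x h)
          have hxB : x ∈ Bx := by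
            rw [hBx, mem_filter]; exact ⟨mem_univ _, hax.1.symm, hax.2⟩
          rw [e1, card_insert_of_notMem e2, image_insert, Function.update_self,
            himg (Np x) (hNpsub x)]
          have h5 : z ∉ Bd x := fun h => hzB (mem_biUnion.mpr ⟨x, hxB, h⟩)
          have h6 : z ∈ Af x := hsub x a hax.2 hz.1
          rw [hBd, mem_filter] at h5
          push Not at h5
          have h7 := h5 h6
          rw [show Δ - ((Np x).card + 1) = Δ - (Np x).card - 1 by omega]
          exact h7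
        · have e1 : (insert a s).filter (fun y => H.Adj x y ∧ f x < f y) = Np x := by
            rw [filter_insert, if_neg hax, hNpx]
          rw [e1, himg (Np x) (hNpsub x)]
          exact h4 x
  obtain ⟨φ, h1, h2, h3, -⟩ := main univ
  refine ⟨φ, ?_, fun x => h2 x (mem_univ _), fun x y hxy => h3 x (mem_univ _) y (mem_univ _) hxy⟩
  intro x y hxy
  exact h1 (mem_coe.mpr (mem_univ x)) (mem_coe.mpr (mem_univ y)) hxy

theorem linear_ramsey {α : Type*} {k q Δ : ℕ} (hk0 : 0 < k) (hΔ : 0 < Δ) (col : α → α → Fin k)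
    (hsymm : ∀ a b, col a b = col b a) {X : Type*} [Fintype X] [Nonempty X]
    (H : SimpleGraph X) (hdeg : ∀ x, (univ.filter (H.Adj x)).card ≤ Δ)
    (f : X → Fin q) (hf : ∀ x y, H.Adj x y → f x ≠ f y) (S : Finset α)
    (hS : (2 * (16 * Δ * k ^ (2 * Δ)) ^ (k * q + 1)) * Fintype.card X ≤ S.card) :
    ∃ (c : Fin k) (φ : X → α), Function.Injective φ ∧ (∀ x, φ x ∈ S) ∧
      ∀ x y, H.Adj x y → col (φ x) (φ y) = c := by
  have hk : (1:ℝ) ≤ k := by exact_mod_cast hk0
  have hkp : (0:ℝ) < k := by linarith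
  have hΔR : (1:ℝ) ≤ Δ := by exact_mod_cast hΔ
  have hXpos : 0 < Fintype.card X := Fintype.card_pos
  have hSne : S.Nonempty := by
    rw [← card_pos]
    refine lt_of_lt_of_le ?_ hS
    positivity
  set m := k * q with hm
  set lam : ℝ := 1 / (2 * (k : ℝ) ^ Δ) with hlam
  have hlam0 : 0 < lam := by positivity
  have hkΔ : (1:ℝ) ≤ (k : ℝ) ^ Δ := one_le_pow₀ hk
  have hlam1 : lam ≤ 1 / 2 := by
    rw [hlam]
    apply one_div_le_one_div_of_le (by norm_num)
    linarith
  set mu : ℝ := lam / (4 * Δ) with hmu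
  have hmu0 : 0 < mu := by positivity
  have hmulam : mu ≤ lam := by
    rw [hmu, div_le_iff₀ (by positivity)]
    nlinarith
  have hmu1 : mu ≤ 1 / 8 := by
    rw [hmu, div_le_iff₀ (by positivity)]
    linarith
  set ζ : ℕ → ℝ := fun i => mu ^ (m - i + 1) with hζ
  have hζ0 : ∀ i, 0 < ζ i := fun i => by rw [hζ]; positivity
  have hζle : ∀ i, ζ i ≤ 1 / 8 := by
    intro i
    rw [hζ]
    simp only
    rw [pow_succ]
    have : mu ^ (m - i) ≤ 1 := pow_le_one₀ hmu0.le (by linarith)
    nlinarith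
  obtain ⟨U, c, hU0, hUne, hUsub, hUcard, hUgood⟩ := chain_exists col S hSne Δ hΔ ζ hζ0
    (fun i => by linarith [hζle i])
  have hUcard' : ∀ i, lam * (U i).card ≤ (U (i + 1)).card := by
    intro i
    refine le_trans (le_of_eq ?_) (hUcard i)
    rw [hlam]; ring
  -- iterated size bound
  have hUiter : ∀ i j, lam ^ j * (U i).card ≤ (U (i + j)).card := by
    intro i j
    induction j with
    | zero => simp
    | succ j ih =>
      refine le_trans ?_ (hUcard' (i + j))
      calc lam ^ (j + 1) * (U i).card = lam * (lam ^ j * (U i).card) := by ring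
        _ ≤ lam * (U (i + j)).card := by gcongr
  have hUanti : ∀ i j, i ≤ j → U j ⊆ U i := by
    intro i j hij
    obtain ⟨d, rfl⟩ := Nat.exists_eq_add_of_le hij
    clear hij
    induction d with
    | zero => exact le_rfl
    | succ d ih => exact (hUsub (i + d)).trans ih
  -- a repeated colour
  obtain ⟨cc, -, hcc⟩ := exists_le_card_fiber_of_mul_le_card_of_maps_to (s := range m)
    (t := (univ : Finset (Fin k))) (f := c) (n := q) (fun _ _ => mem_univ _)
    ⟨⟨0, hk0⟩, mem_univ _⟩ (by rw [card_univ, Fintype.card_fin, card_range])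
  obtain ⟨I, hI, hIc⟩ := exists_subset_card_eq hcc
  set ℓ := I.orderEmbOfFin hIc with hℓ
  have hℓm : ∀ a, ℓ a < m := by
    intro a
    have := hI (orderEmbOfFin_mem I hIc a)
    rw [mem_filter, mem_range] at this
    exact this.1
  have hℓc : ∀ a, c (ℓ a) = cc := by
    intro a
    have := hI (orderEmbOfFin_mem I hIc a)
    rw [mem_filter] at this
    exact this.2
  have hℓmono : ∀ a b, a < b → ℓ a < ℓ b := fun a b hab => (OrderEmbedding.lt_iff_lt ℓ).mpr hab
  set rel : α → α → Prop := fun a b => col a b = cc with hrel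
  have hrels : ∀ a b, rel a b → rel b a := fun a b h => by rw [hrel] at *; rw [hsymm]; exact h
  set θ : ℕ → ℝ := fun i => ζ i / (2 * (k : ℝ) ^ Δ) * (U i).card with hθ
  have hθ' : ∀ i, θ i = ζ i * lam * (U i).card := by
    intro i; rw [hθ, hlam]; ring
  have hgood0 : ∀ a, Good rel (U (ℓ a)) (U (ℓ a + 1)) (θ (ℓ a)) (2 * ζ (ℓ a)) Δ ∅ := by
    intro a
    have := hUgood (ℓ a)
    rw [hℓc a] at this
    exact this
  -- numerical facts
  have hnum1 : ∀ a b, a < b → Δ * (2 * ζ (ℓ a) * (U (ℓ a + 1)).card) ≤ θ (ℓ b) / 2 := by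
    intro a b hab
    have h1 := hℓmono a b hab
    obtain ⟨d, hd⟩ : ∃ d, ℓ b = ℓ a + 1 + d := ⟨ℓ b - (ℓ a + 1), by omega⟩
    have h2 := hUiter (ℓ a + 1) d
    rw [← hd] at h2
    have h3 : ζ (ℓ a) = mu ^ (d + 1) * ζ (ℓ b) := by
      rw [hζ]
      simp only
      rw [← pow_add]
      congr 1
      have := hℓm b
      omega
    rw [hθ', h3]
    have h4 : mu ^ (d + 1) ≤ lam ^ (d + 1) / (4 * Δ) := by
      rw [hmu, div_pow]
      apply div_le_div_of_nonneg_left (by positivity) (by positivity)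
      rw [pow_succ]
      have : (1:ℝ) ≤ (4 * Δ) ^ d := one_le_pow₀ (by linarith)
      nlinarith
    have hz := (hζ0 (ℓ b)).le
    have hUa : (0:ℝ) ≤ (U (ℓ a + 1)).card := Nat.cast_nonneg _
    calc (Δ:ℝ) * (2 * (mu ^ (d + 1) * ζ (ℓ b)) * (U (ℓ a + 1)).card)
        ≤ Δ * (2 * (lam ^ (d + 1) / (4 * Δ) * ζ (ℓ b)) * (U (ℓ a + 1)).card) := by gcongr
      _ = ζ (ℓ b) * lam * (lam ^ d * (U (ℓ a + 1)).card) / 2 := by
          rw [pow_succ]; field_simp; ring
      _ ≤ ζ (ℓ b) * lam * (U (ℓ b)).card / 2 := by gcongr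
  have hnum2 : ∀ a, (Fintype.card X : ℝ) ≤ θ (ℓ a) / 2 := by
    intro a
    rw [hθ']
    have h1 := hUiter 0 (ℓ a)
    rw [zero_add, hU0] at h1
    have h2 : mu ^ (m + 1) ≤ ζ (ℓ a) := by
      rw [hζ]
      exact pow_le_pow_of_le_one hmu0.le (by linarith) (by omega)
    have h3 : lam ^ m ≤ lam ^ (ℓ a) :=
      pow_le_pow_of_le_one hlam0.le (by linarith) (hℓm a).le
    have h4 : (2 * (16 * Δ * (k:ℝ) ^ (2 * Δ)) ^ (m + 1)) * Fintype.card X ≤ S.card := by
      exact_mod_cast hS
    have h5 : (mu * lam) * (16 * Δ * (k:ℝ) ^ (2 * Δ)) = 1 := by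
      rw [hmu, hlam, mul_comm 2 Δ, pow_mul]
      field_simp
      ring
    have h6 : (mu * lam) ^ (m + 1) * (16 * Δ * (k:ℝ) ^ (2 * Δ)) ^ (m + 1) = 1 := by
      rw [← mul_pow, h5, one_pow]
    have h7 : (Fintype.card X : ℝ) * 2 ≤ (mu * lam) ^ (m + 1) * S.card := by
      calc (Fintype.card X : ℝ) * 2 = ((mu * lam) ^ (m + 1) * (16 * Δ * (k:ℝ) ^ (2 * Δ)) ^ (m + 1)) *
            (Fintype.card X * 2) := by rw [h6, one_mul]
        _ = (mu * lam) ^ (m + 1) * ((2 * (16 * Δ * (k:ℝ) ^ (2 * Δ)) ^ (m + 1)) * Fintype.card X) := by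
            ring
        _ ≤ _ := by gcongr
    have h8 : (mu * lam) ^ (m + 1) * S.card ≤ ζ (ℓ a) * lam * (U (ℓ a)).card := by
      calc (mu * lam) ^ (m + 1) * S.card = mu ^ (m + 1) * lam * (lam ^ m * S.card) := by
            rw [mul_pow]; ring
        _ ≤ ζ (ℓ a) * lam * (lam ^ (ℓ a) * S.card) := by gcongr
        _ ≤ _ := by
            have := hζ0 (ℓ a)
            gcongr
    linarith
  -- the embedding
  have : Nonempty α := ⟨hSne.choose⟩
  obtain ⟨φ, h1, h2, h3⟩ := embed_good hΔ rel hrels H hdeg f hf (fun x => U (ℓ (f x)))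
    (fun x => U (ℓ (f x) + 1)) (fun x => θ (ℓ (f x))) (fun x => 2 * ζ (ℓ (f x)))
    (fun x => hgood0 (f x)) (fun x a hxa => hUanti _ _ (hℓmono _ _ hxa))
    (fun x a hxa => hnum1 _ _ hxa) (fun a => hnum2 _)
  refine ⟨cc, φ, h1, ?_, h3⟩
  intro x
  have := hUanti 0 _ (Nat.zero_le _) (h2 x)
  rwa [hU0] at this

end Pool.Agent.H21.Tile
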