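import Pool.Agent.H21.Tile.Mono

/-! The finite Ramsey theorem for cliques, with any number of colours. -/

namespace Pool.Agent.H21.Tile

open Finset Classical

lemma ramsey_aux (k : ℕ) (t : ℕ) : ∀ n : Fin k → ℕ, ∑ c, n c = t →
    ∀ (V : Type) (S : Finset V) (χ : V → V → Fin k), (∀ x y, χ x y = χ y x) →
      (k + 1) ^ t ≤ S.card → ∃ c, ∃ I ⊆ S, I.card = n c ∧ ∀ x ∈ I, ∀ y ∈ I, x ≠ y → χ x y = c := by
  induction t with
  | zero =>
    intro n hn V S χ _ hS
    obtain ⟨x, _⟩ := card_pos.mp (show 0 < S.card by rw [pow_zero] at hS; omega)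
    refine ⟨χ x x, ∅, empty_subset _, ?_, by simp⟩
    have := (sum_eq_zero_iff.mp hn) (χ x x) (mem_univ _)
    simp [this]
  | succ t ih =>
    intro n hn V S χ hχ hS
    have hp : 1 ≤ (k + 1) ^ t := Nat.one_le_pow _ _ (by omega)
    have hp1 : (k + 1) ^ (t + 1) = k * (k + 1) ^ t + (k + 1) ^ t := by ring
    obtain ⟨x, hx⟩ := card_pos.mp (show 0 < S.card by omega)
    by_cases hz : ∃ c, n c = 0
    · obtain ⟨c, hc⟩ := hz
      exact ⟨c, ∅, empty_subset _, by simp [hc], by simp⟩
    push Not at hz
    have hupd : ∀ c, ∑ c', (Function.update n c (n c - 1)) c' = t := by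
      intro c
      have h1 : ∑ c', (Function.update n c (n c - 1)) c' + 1 = ∑ c', n c' := by
        rw [← add_sum_erase univ _ (mem_univ c), ← add_sum_erase univ n (mem_univ c),
          Function.update_self]
        have h2 : ∑ x ∈ univ.erase c, Function.update n c (n c - 1) x = ∑ x ∈ univ.erase c, n x := by
          apply sum_congr rfl
          intro x hx
          rw [Function.update_of_ne (ne_of_mem_erase hx)]
        rw [h2]
        have := hz c
        omega
      omega
    have hpig : ∃ c, (k + 1) ^ t ≤ ((S.erase x).filter (fun y => χ x y = c)).card := by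
      by_contra hcon
      push Not at hcon
      have h1 : (S.erase x).card = ∑ c, ((S.erase x).filter (fun y => χ x y = c)).card :=
        card_eq_sum_card_fiberwise (fun _ _ => mem_univ _)
      have h2 : ∑ c, ((S.erase x).filter (fun y => χ x y = c)).card < ∑ c : Fin k, (k + 1) ^ t :=
        sum_lt_sum_of_nonempty ⟨χ x x, mem_univ _⟩ (fun c _ => hcon c)
      rw [sum_const, card_univ, Fintype.card_fin, smul_eq_mul] at h2
      rw [card_erase_of_mem hx] at h1
      omega
    obtain ⟨c, hc⟩ := hpig
    obtain ⟨c', I, hI, hIc, hImono⟩ := ih (Function.update n c (n c - 1)) (hupd c) V _ χ hχ hc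
    have hIS : I ⊆ S := hI.trans ((filter_subset _ _).trans (erase_subset _ _))
    by_cases hcc : c' = c
    · subst hcc
      rw [Function.update_self] at hIc
      have hxI : x ∉ I := fun h => by
        have := hI h
        rw [mem_filter, mem_erase] at this
        exact this.1.1 rfl
      refine ⟨c', insert x I, insert_subset hx hIS, ?_, ?_⟩
      · rw [card_insert_of_notMem hxI, hIc]
        have := hz c'
        omega
      · intro y hy z hz' hyz
        rw [mem_insert] at hy hz'
        rcases hy with rfl | hy
        · rcases hz' with rfl | hz'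
          · exact absurd rfl hyz
          · exact (mem_filter.mp (hI hz')).2
        · rcases hz' with rfl | hz'
          · rw [hχ]; exact (mem_filter.mp (hI hy)).2
          · exact hImono y hy z hz' hyz
    · rw [Function.update_of_ne hcc] at hIc
      exact ⟨c', I, hIS, hIc, hImono⟩

theorem ramsey (k q : ℕ) : RamseyProp k q ((k + 1) ^ (k * q)) := by
  intro χ hχ
  obtain ⟨c, I, _, h1, h2⟩ := ramsey_aux k (k * q) (fun _ => q) (by simp) (Fin ((k + 1) ^ (k * q)))
    univ χ hχ (by simp)
  exact ⟨c, I, h1, h2⟩

end Pool.Agent.H21.Tile
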