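import Pool.Agent.H21.Tile.FlexProp
import Pool.Agent.H21.Tile.LinRam
import Pool.Agent.H21.Tile.Ramsey
import Pool.Agent.H21.Tile.Asym

/-! The main theorem: tilings with singly exponentially many monochromatic copies. -/

namespace Pool.Agent.H21.Tile

open Finset Classical

lemma RamseyProp.pred {k q M : ℕ} (h : RamseyProp k (q + 1) M) : RamseyProp k q M := by
  intro χ hχ
  obtain ⟨c, I, hI, hm⟩ := h χ hχ
  obtain ⟨J, hJ, hJc⟩ := exists_subset_card_eq (show q ≤ I.card by omega)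
  exact ⟨c, J, hJc, fun x hx y hy hxy => hm x (hJ hx) y (hJ hy) hxy⟩

lemma RamseyProp.pos {k q M : ℕ} (hk : 0 < k) (h : RamseyProp k (q + 1) M) : 0 < M := by
  by_contra hM
  have hM0 : M = 0 := by omega
  subst hM0
  obtain ⟨c, I, hI, -⟩ := h (fun _ _ => ⟨0, hk⟩) (fun _ _ => rfl)
  have : I = ∅ := by
    ext x; exact x.elim0
  rw [this] at hI
  simp at hI

lemma linRam_of {α : Type*} [Nonempty α] {k q Δ : ℕ} (F : (r : ℕ) → SimpleGraph (Fin r))
    (hdeg : ∀ r x, (univ.filter ((F r).Adj x)).card ≤ Δ)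
    (hcol : ∀ r, ∃ f : Fin r → Fin q, ∀ x y, (F r).Adj x y → f x ≠ f y)
    (col : α → α → Fin k) (hsymm : ∀ a b, col a b = col b a) (hk : 0 < k) (hΔ : 0 < Δ) :
    LinRam F col (2 * (16 * Δ * k ^ (2 * Δ)) ^ (k * q + 1)) := by
  intro S b hb hS
  obtain ⟨f, hf⟩ := hcol b
  have : Nonempty (Fin b) := ⟨⟨0, hb⟩⟩
  obtain ⟨c, φ, h1, h2, h3⟩ := linear_ramsey hk hΔ col hsymm (F b) (hdeg b) f hf S
    (by rw [Fintype.card_fin]; exact hS)
  refine ⟨univ.image φ, ?_, ?_, c, b, φ, h1, rfl, h3⟩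
  · intro y hy
    rw [mem_image] at hy
    obtain ⟨x, _, rfl⟩ := hy
    exact h2 x
  · rw [card_image_of_injective _ h1, card_univ, Fintype.card_fin]

lemma Mf_le {k : ℕ} : ∃ c, ∀ q, 1 ≤ q → (k + 1) ^ (k * (q + 1)) ≤ 2 ^ (c * q) := by
  refine ⟨2 * k * k, fun q hq => ?_⟩
  calc (k + 1) ^ (k * (q + 1)) ≤ (2 ^ k) ^ (k * (q + 1)) :=
        Nat.pow_le_pow_left Nat.lt_two_pow_self _
    _ = 2 ^ (k * (k * (q + 1))) := by rw [← pow_mul]
    _ ≤ 2 ^ (2 * k * k * q) := by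
        apply Nat.pow_le_pow_right (by norm_num)
        have : q + 1 ≤ 2 * q := by omega
        calc k * (k * (q + 1)) ≤ k * (k * (2 * q)) := by gcongr
          _ = 2 * k * k * q := by ring

theorem main_tiles (k : ℕ) (hk : 0 < k) : ∃ C : ℕ, ∀ q Δ : ℕ, 1 ≤ q → 1 ≤ Δ →
    ∀ {α : Type} [Nonempty α] (F : (r : ℕ) → SimpleGraph (Fin r)),
    (∀ r x, (univ.filter ((F r).Adj x)).card ≤ Δ) →
    (∀ r, ∃ f : Fin r → Fin q, ∀ x y, (F r).Adj x y → f x ≠ f y) →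
    ∀ (col : α → α → Fin k), (∀ a b, col a b = col b a) → ∀ V : Finset α,
    Tiles F col V (2 ^ (2 ^ (C * q) * Δ)) := by
  have hkR : (1:ℝ) ≤ k := by exact_mod_cast hk
  -- constants depending on the chromatic number
  obtain ⟨Mf, hMf⟩ : ∃ f : ℕ → ℕ, f = fun q => (k + 1) ^ (k * (q + 1)) := ⟨_, rfl⟩
  have hMe : ∃ c, ∀ q, 1 ≤ q → Mf q ≤ 2 ^ (c * q) := by rw [hMf]; exact Mf_le
  have hMpos : ∀ q, 0 < Mf q := by intro q; rw [hMf]; positivity
  have hMposR : ∀ q, (1:ℝ) ≤ Mf q := fun q => by exact_mod_cast hMpos q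
  have hkMf : ∀ q, (1:ℝ) ≤ (k:ℝ) ^ Mf q := fun q => one_le_pow₀ hkR
  have hkMMf : ∀ q, (1:ℝ) ≤ ((k:ℝ) ^ Mf q) ^ Mf q := fun q => one_le_pow₀ (hkMf q)
  obtain ⟨D1f, hD1f⟩ : ∃ f : ℕ → ℝ, f = fun q => 1 / ((k : ℝ) ^ Mf q) ^ Mf q := ⟨_, rfl⟩
  obtain ⟨Dmf, hDmf⟩ : ∃ f : ℕ → ℝ, f = fun q => 1 / (2 * (k : ℝ) ^ Mf q) := ⟨_, rfl⟩
  obtain ⟨Dsf, hDsf⟩ : ∃ f : ℕ → ℝ, f = fun q => Dmf q ^ Mf q * D1f q := ⟨_, rfl⟩
  obtain ⟨βf, hβf⟩ : ∃ f : ℕ → ℝ, f = fun q => (D1f q / 2) * (Dmf q ^ Mf q / 2) / (8 * k) :=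
    ⟨_, rfl⟩
  have hD1f0 : ∀ q, 0 < D1f q := fun q => by rw [hD1f]; have := hkMMf q; positivity
  have hD1f1 : ∀ q, D1f q ≤ 1 := fun q => by
    rw [hD1f]; beta_reduce
    rw [div_le_one (by have := hkMMf q; positivity)]; exact hkMMf q
  have hDmf0 : ∀ q, 0 < Dmf q := fun q => by rw [hDmf]; have := hkMf q; positivity
  have hDmf1 : ∀ q, Dmf q ≤ 1 := fun q => by
    rw [hDmf]; beta_reduce
    rw [div_le_one (by have := hkMf q; positivity)]; have := hkMf q; linarith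
  have hDmMf0 : ∀ q, 0 < Dmf q ^ Mf q := fun q => pow_pos (hDmf0 q) _
  have hDmMf1 : ∀ q, Dmf q ^ Mf q ≤ 1 := fun q => pow_le_one₀ (hDmf0 q).le (hDmf1 q)
  have hDsf0 : ∀ q, 0 < Dsf q := fun q => by rw [hDsf]; exact mul_pos (hDmMf0 q) (hD1f0 q)
  have hDsf1 : ∀ q, Dsf q ≤ 1 := fun q => by
    rw [hDsf]; exact mul_le_one₀ (hDmMf1 q) (hD1f0 q).le (hD1f1 q)
  have hβf0 : ∀ q, 0 < βf q := fun q => by
    rw [hβf]; have := hDmMf0 q; have := hD1f0 q; positivity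
  have hβf1 : ∀ q, βf q ≤ 1 := fun q => by
    rw [hβf]; beta_reduce
    have h1 := hDmMf0 q; have h2 := hD1f0 q
    have h3 := hDmMf1 q; have h4 := hD1f1 q
    rw [div_le_one (by positivity)]
    have h5 : D1f q / 2 * (Dmf q ^ Mf q / 2) ≤ 1 * 1 :=
      mul_le_mul (by linarith) (by linarith) (by positivity) (by norm_num)
    linarith
  -- functions of the degree
  obtain ⟨εf, hεf⟩ : ∃ f : ℕ → ℕ → ℝ, f = fun q D => βf q ^ D := ⟨_, rfl⟩
  obtain ⟨ηf, hηf⟩ : ∃ f : ℕ → ℕ → ℝ, f = fun q D => Dsf q * εf q D ^ Mf q / (8 * (Mf q + 1)) :=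
    ⟨_, rfl⟩
  obtain ⟨mf, hmf⟩ : ∃ f : ℕ → ℕ → ℕ, f = fun q D => ⌈4 / (Dsf q * εf q D ^ Mf q)⌉₊ := ⟨_, rfl⟩
  obtain ⟨df, hdf⟩ : ∃ f : ℕ → ℕ → ℝ, f = fun q D => (D1f q / 2) ^ D := ⟨_, rfl⟩
  obtain ⟨m2f, hm2f⟩ : ∃ f : ℕ → ℕ → ℕ, f = fun q D => ⌈512 / df q D ^ 3⌉₊ := ⟨_, rfl⟩
  obtain ⟨Kf, hKf⟩ : ∃ f : ℕ → ℕ → ℕ, f = fun q D =>
    2 * (16 * D * k ^ (2 * D)) ^ (k * q + 1) := ⟨_, rfl⟩
  obtain ⟨σf, hσf⟩ : ∃ f : ℕ → ℕ → ℝ, f = fun q D => df q D / (16 * (Kf q D + 1)) *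
    (df q D / 16) ^ m2f q D * (1 / q) * (df q D / 8) * (ηf q D ^ mf q D / (2 * Mf q)) := ⟨_, rfl⟩
  obtain ⟨ωf, hωf⟩ : ∃ f : ℕ → ℕ → ℝ, f = fun q D =>
    ηf q D ^ mf q D * σf q D / (k : ℝ) ^ Mf q := ⟨_, rfl⟩
  obtain ⟨τf, hτf⟩ : ∃ f : ℕ → ℕ → ℝ, f = fun q D => 1 / k * (Dmf q ^ Mf q / 2) ^ D / 2 *
    ωf q D ^ Mf q / ((Mf q + 1) * (D * D + D + 1)) := ⟨_, rfl⟩
  obtain ⟨mgf, hmgf⟩ : ∃ f : ℕ → ℕ → ℕ, f = fun q D =>
    ⌈2 * Kf q D * (- Real.log (τf q D))⌉₊ := ⟨_, rfl⟩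
  obtain ⟨msf, hmsf⟩ : ∃ f : ℕ → ℕ → ℕ, f = fun q D =>
    ⌈2 * Kf q D * (- Real.log (σf q D / (k : ℝ) ^ Mf q))⌉₊ := ⟨_, rfl⟩
  -- exponential bounds
  have EBM : EB (fun q _ => (Mf q : ℝ)) := EB.ofNat hMe
  have EBkM : EB (fun q _ => (k:ℝ) ^ Mf q) := (EB.const _).pow (fun _ _ _ _ => by positivity) Mf hMe
  have EB2M : EB (fun q _ => (2:ℝ) ^ Mf q) := (EB.const _).pow (fun _ _ _ _ => by positivity) Mf hMe
  have EBkMM : EB (fun q _ => ((k:ℝ) ^ Mf q) ^ Mf q) :=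
    EBkM.pow (fun _ _ _ _ => by positivity) Mf hMe
  have EBD1 : EB (fun q _ => 1 / (D1f q / 2)) := by
    refine ((EB.const 2).mul EBkMM (fun _ _ _ _ => by positivity)).mono fun q D _ _ => le_of_eq ?_
    rw [hD1f]
    field_simp
  have EBDm : EB (fun q _ => 1 / Dmf q) := by
    refine ((EB.const 2).mul EBkM (fun _ _ _ _ => by positivity)).mono fun q D _ _ => le_of_eq ?_
    rw [hDmf]
    field_simp
  have EBDmM : EB (fun q _ => (1 / Dmf q) ^ Mf q) :=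
    EBDm.pow (fun q _ _ _ => by have := hDmf0 q; positivity) Mf hMe
  have EBDs : EB (fun q _ => 1 / Dsf q) := by
    refine (EBDmM.mul EBkMM (fun _ _ _ _ => by positivity)).mono fun q D _ _ => le_of_eq ?_
    have e1 := hDmf0 q
    rw [hDsf, hD1f]
    beta_reduce
    rw [one_div_pow]
    field_simp
  have EBDm2 : EB (fun q _ => 1 / (Dmf q ^ Mf q / 2)) := by
    refine (EBDmM.mul (EB.const 2) (fun _ _ _ _ => by positivity)).mono fun q D _ _ => le_of_eq ?_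
    have e1 := hDmf0 q
    rw [one_div_pow]
    field_simp
  have EBβ : EB (fun q _ => 1 / βf q) := by
    refine ((EBD1.mul EBDm2 (fun q _ _ _ => by have := hDmMf0 q; positivity)).mul
      (EB.const (8 * k)) (fun _ _ _ _ => by positivity)).mono fun q D _ _ => le_of_eq ?_
    have e1 := hDmMf0 q
    have e2 := hD1f0 q
    rw [hβf]
    beta_reduce
    field_simp
  have EBε : EB (fun q D => 1 / εf q D) := by
    refine (EB.cpow EBβ (fun q _ => by have := hβf0 q; positivity)).mono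
      fun q D _ _ => le_of_eq ?_
    rw [hεf]
    beta_reduce
    rw [one_div_pow]
  have LBε : LB εf := by rw [hεf]; exact LB.cpow EBβ (fun q _ => hβf0 q) (fun q _ => hβf1 q)
  have EBd : EB (fun q D => 1 / df q D) := by
    refine (EB.cpow EBD1 (fun q _ => by have := hD1f0 q; positivity)).mono
      fun q D _ _ => le_of_eq ?_
    rw [hdf]
    beta_reduce
    rw [one_div_pow]
  have LBd : LB df := by
    rw [hdf]
    exact LB.cpow EBD1 (fun q _ => by have := hD1f0 q; positivity)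
      (fun q _ => by have := hD1f1 q; linarith)
  have EBm : EB (fun q D => (mf q D : ℝ)) := by
    rw [hmf]
    apply EB.ceil
    · have h2 : EB (fun q D => (1 / εf q D) ^ Mf q) :=
        EBε.pow (fun q D hq hD => by have := LBε.1 q D hq hD; positivity) Mf hMe
      have h1 : EB (fun q D => 4 * (1 / Dsf q) * ((1 / εf q D) ^ Mf q)) :=
        ((EB.const 4).mul EBDs (fun q _ _ _ => by have := hDsf0 q; positivity)).mul h2
          (fun q D hq hD => by have := LBε.1 q D hq hD; positivity)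
      refine h1.mono fun q D hq hD => le_of_eq ?_
      have e1 := LBε.1 q D hq hD
      have e2 := hDsf0 q
      beta_reduce
      rw [one_div_pow]
      field_simp
    · intro q D hq hD
      have := LBε.1 q D hq hD
      have := hDsf0 q
      positivity
  have EBm2 : EB (fun q D => (m2f q D : ℝ)) := by
    rw [hm2f]
    apply EB.ceil
    · have h2 : EB (fun q D => (1 / df q D) ^ 3) :=
        EBd.pow (fun q D hq hD => by have := LBd.1 q D hq hD; positivity) (fun _ => 3)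
          ⟨2, fun q hq => by
            calc 3 ≤ 2 ^ 2 := by norm_num
              _ ≤ 2 ^ (2 * q) := Nat.pow_le_pow_right (by norm_num) (by omega)⟩
      have h1 : EB (fun q D => 512 * (1 / df q D) ^ 3) :=
        (EB.const _).mul h2 (fun q D hq hD => by have := LBd.1 q D hq hD; positivity)
      refine h1.mono fun q D hq hD => le_of_eq ?_
      beta_reduce
      rw [one_div_pow]
      ring
    · intro q D hq hD
      have := LBd.1 q D hq hD
      positivity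
  have EBK : EB (fun q D => (Kf q D : ℝ)) := by
    have h1 : EB (fun _ D : ℕ => (16 * (D:ℝ) * ((k:ℝ) ^ 2) ^ D)) := by
      have h2 : EB (fun _ D : ℕ => (16 * (D:ℝ))) :=
        (EB.const 16).mul EB.id (fun _ _ _ _ => Nat.cast_nonneg _)
      exact h2.mul (EB.cpow (EB.const _) (fun _ _ => by positivity)) (fun _ _ _ _ => by positivity)
    have h2 := h1.pow (fun q D _ _ => by positivity) (fun q => k * q + 1)
      ⟨k, fun q _ => Nat.lt_two_pow_self⟩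
    have h3 := (EB.const 2).mul h2 (fun _ _ _ _ => by positivity)
    refine h3.mono fun q D _ _ => le_of_eq ?_
    rw [hKf]
    push_cast
    rw [← pow_mul]
  have LBη : LB ηf := by
    rw [hηf]
    apply LB.div _ _ (fun q _ _ _ => by have := hMposR q; nlinarith)
    · refine LB.mul ?_ (LBε.pow EBM)
      have h2 := LB.inv EBDs (fun q D _ _ => by
        have := hDsf0 q
        rw [le_div_iff₀ this]; have := hDsf1 q; linarith)
      simpa using h2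
    · exact (EB.const 8).mul (EBM.add (EB.const 1)) (fun _ _ _ _ => by positivity)
  have LBηm : LB (fun q D => ηf q D ^ mf q D) := LBη.pow EBm
  have LBd16 : LB (fun q D => df q D / 16) := LBd.div (EB.const _) (fun _ _ _ _ => by norm_num)
  have LBσ : LB σf := by
    rw [hσf]
    refine LB.mul (LB.mul (LB.mul (LB.mul ?_ ?_) ?_) ?_) ?_
    · apply LBd.div
      · exact (EB.const 16).mul (EBK.add (EB.const 1)) (fun _ _ _ _ => by positivity)
      · intro q D _ _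
        have : (0:ℝ) ≤ Kf q D := Nat.cast_nonneg _
        linarith
    · exact LBd16.pow EBm2
    · exact LB.inv (EB.ofNat ⟨1, fun q _ => by rw [one_mul]; exact Nat.lt_two_pow_self.le⟩)
        (fun q _ hq _ => by exact_mod_cast hq)
    · exact LBd.div (EB.const _) (fun _ _ _ _ => by norm_num)
    · exact LBηm.div ((EB.const 2).mul EBM (fun _ _ _ _ => Nat.cast_nonneg _))
        (fun q _ _ _ => by have := hMposR q; linarith)
  have LBω : LB ωf := by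
    rw [hωf]
    exact (LBηm.mul LBσ).div EBkM (fun q _ _ _ => hkMf q)
  have LBτ : LB τf := by
    rw [hτf]
    refine LB.div (LB.mul (LB.div (LB.mul ?_ ?_) (EB.const _) (fun _ _ _ _ => by norm_num)) ?_) ?_ ?_
    · exact LB.const (by positivity) (by rw [div_le_one (by positivity)]; exact hkR)
    · exact LB.cpow EBDm2 (fun q _ => by have := hDmMf0 q; positivity)
        (fun q _ => by have := hDmMf1 q; linarith)
    · exact LBω.pow EBM
    · refine (EBM.add (EB.const 1)).mul ?_ (fun _ _ _ _ => by positivity)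
      exact ((EB.id.mul EB.id (fun _ _ _ _ => Nat.cast_nonneg _)).add EB.id).add (EB.const 1)
    · intro q D _ _
      have h1 : (1:ℝ) ≤ Mf q + 1 := by have := hMposR q; linarith
      have h2 : (1:ℝ) ≤ (D:ℝ) * D + D + 1 := by
        have : (0:ℝ) ≤ (D:ℝ) * D := by positivity
        have : (0:ℝ) ≤ (D:ℝ) := by positivity
        linarith
      nlinarith
  have LBσk : LB (fun q D => σf q D / (k : ℝ) ^ Mf q) := LBσ.div EBkM (fun q _ _ _ => hkMf q)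
  have EB2K : EB (fun q D => 2 * (Kf q D : ℝ)) :=
    (EB.const 2).mul EBK (fun _ _ _ _ => Nat.cast_nonneg _)
  have EBmg : EB (fun q D => (mgf q D : ℝ)) := by
    rw [hmgf]
    apply EB.ceil (EB2K.mul LBτ.2.2 LBτ.neglog_nonneg)
    intro q D hq hD
    have := LBτ.neglog_nonneg q D hq hD
    positivity
  have EBms : EB (fun q D => (msf q D : ℝ)) := by
    rw [hmsf]
    apply EB.ceil (EB2K.mul LBσk.2.2 LBσk.neglog_nonneg)
    intro q D hq hD
    have := LBσk.neglog_nonneg q D hq hD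
    positivity
  obtain ⟨C, hC⟩ : EB (fun q D =>
      ((Mf q * (mgf q D + k * 2 ^ Mf q + 2) + msf q D : ℕ) : ℝ)) := by
    have h1 : EB (fun q D => (Mf q:ℝ) * ((mgf q D : ℝ) + k * 2 ^ Mf q + 2) + msf q D) := by
      apply EB.add _ EBms
      apply EBM.mul _ (fun _ _ _ _ => by positivity)
      exact (EBmg.add ((EB.const _).mul EB2M (fun _ _ _ _ => by positivity))).add (EB.const _)
    refine h1.mono fun q D _ _ => le_of_eq ?_
    push_cast; ring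
  refine ⟨C, ?_⟩
  intro q Δ hq hΔ α _ F hdeg hcol col hsymm V
  have hqR : (1:ℝ) ≤ q := by exact_mod_cast hq
  obtain ⟨M, hMdef⟩ : ∃ M, M = Mf q := ⟨_, rfl⟩
  have hM : 0 < M := by rw [hMdef]; exact hMpos q
  have hMR : (1:ℝ) ≤ M := by exact_mod_cast hM
  have hram' : RamseyProp k (q + 1) M := by rw [hMdef, hMf]; exact ramsey k (q + 1)
  obtain ⟨D1, hD1⟩ : ∃ D1 : ℝ, D1 = 1 / ((k : ℝ) ^ M) ^ M := ⟨_, rfl⟩
  obtain ⟨Dm, hDm⟩ : ∃ Dm : ℝ, Dm = 1 / (2 * (k : ℝ) ^ M) := ⟨_, rfl⟩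
  obtain ⟨Ds, hDs⟩ : ∃ Ds : ℝ, Ds = Dm ^ M * D1 := ⟨_, rfl⟩
  obtain ⟨β, hβ⟩ : ∃ β : ℝ, β = (D1 / 2) * (Dm ^ M / 2) / (8 * k) := ⟨_, rfl⟩
  have eD1 : D1f q = D1 := by rw [hD1f, hD1, hMdef]
  have eDm : Dmf q = Dm := by rw [hDmf, hDm, hMdef]
  have eDs : Dsf q = Ds := by rw [hDsf, hDs, ← eD1, ← eDm, hMdef]
  have eβ : βf q = β := by rw [hβf, hβ, ← eD1, ← eDm, hMdef]
  have hkM : (1:ℝ) ≤ (k:ℝ) ^ M := one_le_pow₀ hkR
  have hD10 : 0 < D1 := by rw [← eD1]; exact hD1f0 q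
  have hD11 : D1 ≤ 1 := by rw [← eD1]; exact hD1f1 q
  have hDm0 : 0 < Dm := by rw [← eDm]; exact hDmf0 q
  have hDm1 : Dm ≤ 1 := by rw [← eDm]; exact hDmf1 q
  have hDmM0 : 0 < Dm ^ M := by positivity
  have hDmM1 : Dm ^ M ≤ 1 := pow_le_one₀ hDm0.le hDm1
  have hDs0 : 0 < Ds := by rw [hDs]; positivity
  have hDsm : Ds ≤ Dm ^ M := by rw [hDs]; exact mul_le_of_le_one_right hDmM0.le hD11
  have hDs1 : Ds ≤ D1 := by rw [hDs]; exact mul_le_of_le_one_left hD10.le hDmM1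
  have hβ0 : 0 < β := by rw [← eβ]; exact hβf0 q
  have hβ1 : β ≤ 1 := by rw [← eβ]; exact hβf1 q
  have hfin : M * (mgf q Δ + k * 2 ^ M + 2) + msf q Δ ≤ 2 ^ (2 ^ (C * q) * Δ) := by
    have h1 := hC q Δ hq hΔ
    beta_reduce at h1
    rw [hMdef]
    exact_mod_cast h1
  refine Tiles.mono ?_ hfin
  -- instantiate
  have hΔR : (1:ℝ) ≤ Δ := by exact_mod_cast hΔ
  obtain ⟨ε, hε⟩ : ∃ ε, ε = εf q Δ := ⟨_, rfl⟩
  obtain ⟨η, hη⟩ : ∃ η, η = ηf q Δ := ⟨_, rfl⟩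
  obtain ⟨m, hm⟩ : ∃ m, m = mf q Δ := ⟨_, rfl⟩
  obtain ⟨d, hd⟩ : ∃ d, d = df q Δ := ⟨_, rfl⟩
  obtain ⟨m2, hm2⟩ : ∃ m2, m2 = m2f q Δ := ⟨_, rfl⟩
  obtain ⟨K, hK⟩ : ∃ K, K = Kf q Δ := ⟨_, rfl⟩
  obtain ⟨σ, hσ⟩ : ∃ σ, σ = σf q Δ := ⟨_, rfl⟩
  obtain ⟨ω, hω⟩ : ∃ ω, ω = ωf q Δ := ⟨_, rfl⟩
  obtain ⟨τ, hτ⟩ : ∃ τ, τ = τf q Δ := ⟨_, rfl⟩
  obtain ⟨γs, hγs⟩ : ∃ γs, γs = (Dm ^ M / 2) ^ Δ := ⟨_, rfl⟩
  have hε0 : 0 < ε := by rw [hε]; exact LBε.1 q Δ hq hΔ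
  have hε1 : ε ≤ 1 := by rw [hε]; exact LBε.2.1 q Δ hq hΔ
  have hη0 : 0 < η := by rw [hη]; exact LBη.1 q Δ hq hΔ
  have hη1 : η ≤ 1 := by rw [hη]; exact LBη.2.1 q Δ hq hΔ
  have hd0 : 0 < d := by rw [hd]; exact LBd.1 q Δ hq hΔ
  have hd1 : d ≤ 1 := by rw [hd]; exact LBd.2.1 q Δ hq hΔ
  have hσ0 : 0 < σ := by rw [hσ]; exact LBσ.1 q Δ hq hΔ
  have hσ1 : σ ≤ 1 := by rw [hσ]; exact LBσ.2.1 q Δ hq hΔ
  have hω0 : 0 < ω := by rw [hω]; exact LBω.1 q Δ hq hΔ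
  have hτ0 : 0 < τ := by rw [hτ]; exact LBτ.1 q Δ hq hΔ
  have hγs0 : 0 < γs := by rw [hγs]; positivity
  have hγs1 : γs ≤ 1 := by rw [hγs]; exact pow_le_one₀ (by positivity) (by linarith)
  have hddef : d = (D1 / 2) ^ Δ := by rw [hd, hdf, ← eD1]
  have hεdef : ε = β ^ Δ := by rw [hε, hεf, ← eβ]
  have hηdef : η = Ds * ε ^ M / (8 * (M + 1)) := by rw [hη, hηf, hε, ← eDs, hMdef]
  have hεM0 : 0 < ε ^ M := by positivity
  have hεM : ε ^ M ≤ ε := by
    calc ε ^ M ≤ ε ^ 1 := pow_le_pow_of_le_one hε0.le hε1 hM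
      _ = ε := pow_one ε
  -- the key smallness of `ε`
  have hkey : Δ * ε ≤ d * γs / (8 * k) := by
    have h1 : ε = d * γs / (8 * k) ^ Δ := by
      rw [hεdef, hβ, hddef, hγs, div_pow, mul_pow]
    have h2 : (8 * k : ℝ) * Δ ≤ (8 * k) ^ Δ := by
      obtain ⟨e, rfl⟩ : ∃ e, Δ = e + 1 := ⟨Δ - 1, by omega⟩
      rw [pow_succ, mul_comm]
      have h3 : ((e + 1 : ℕ) : ℝ) ≤ (8 * k) ^ e := by
        have h4 : (e + 1 : ℕ) ≤ 2 ^ e := Nat.lt_two_pow_self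
        calc ((e + 1 : ℕ) : ℝ) ≤ 2 ^ e := by exact_mod_cast h4
          _ ≤ (8 * k) ^ e := pow_le_pow_left₀ (by norm_num) (by linarith) e
      gcongr
    rw [h1, ← mul_div_assoc, div_le_div_iff₀ (by positivity) (by positivity)]
    have h5 : 0 < d * γs := by positivity
    calc Δ * (d * γs) * (8 * k) = d * γs * (8 * k * Δ) := by ring
      _ ≤ d * γs * (8 * k) ^ Δ := mul_le_mul_of_nonneg_left h2 h5.le
  have hεΔ : ε ≤ Δ * ε := le_mul_of_one_le_left hε0.le hΔR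
  have hstage1 : Δ * ε ≤ 1 / k * γs / 2 := by
    refine hkey.trans ?_
    rw [div_le_iff₀ (by positivity)]
    have h1 : 1 / (k:ℝ) * γs / 2 * (8 * k) = 4 * γs := by field_simp; ring
    rw [h1]
    exact mul_le_mul_of_nonneg_right (hd1.trans (by norm_num)) hγs0.le
  have hstage2 : ε ≤ 1 / k * γs := by
    have h1 : 0 ≤ 1 / (k:ℝ) * γs := by positivity
    linarith
  have hstage3 : ε ≤ 1 / k := by
    refine hstage2.trans ?_
    have : 0 < 1 / (k:ℝ) := by positivity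
    exact mul_le_of_le_one_right this.le hγs1
  have hflex1 : Δ * ε ≤ d / 4 := by
    refine hkey.trans ?_
    rw [div_le_iff₀ (by positivity)]
    have h1 : d * γs ≤ d * 1 := by gcongr
    have h2 : d * 1 ≤ d * k := mul_le_mul_of_nonneg_left hkR hd0.le
    have h3 : d / 4 * (8 * k) = 2 * (d * k) := by ring
    rw [h3]
    have h4 : 0 < d * k := by positivity
    linarith
  have hflex2 : ε ≤ d := by linarith
  have hηM : η * (8 * (M + 1)) = Ds * ε ^ M := by rw [hηdef]; field_simp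
  have hηε : η ≤ ε := by
    rw [hηdef, div_le_iff₀ (by positivity)]
    calc Ds * ε ^ M ≤ 1 * ε := by
          have := hDs1.trans hD11
          gcongr
      _ ≤ ε * (8 * (M + 1)) := by
        have h9 : (1:ℝ) ≤ 8 * (M + 1) := by linarith
        rw [one_mul]
        exact le_mul_of_one_le_right hε0.le h9
  have hη2a : η * (8 * (M + 1)) ≤ Dm ^ M * ε ^ M := by rw [hηM]; gcongr
  have hη2b : η * (8 * (M + 1)) ≤ D1 * ε ^ M := by rw [hηM]; gcongr
  have hmle : 4 / (Ds * ε ^ M) ≤ m := by rw [hm, hmf, hε, ← eDs, hMdef]; exact Nat.le_ceil _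
  have hma : 1 < (1 + ε ^ M / 4) ^ m * Dm ^ M := by
    apply bernoulli_big _ _ (by positivity) hDmM0
    refine le_trans ?_ hmle
    rw [show Dm ^ M * (ε ^ M / 4) = (Dm ^ M * ε ^ M) / 4 by ring, one_div_div]
    gcongr
  have hmb : 1 < (1 + ε ^ M / 4) ^ m * D1 := by
    apply bernoulli_big _ _ (by positivity) hD10
    refine le_trans ?_ hmle
    rw [show D1 * (ε ^ M / 4) = (D1 * ε ^ M) / 4 by ring, one_div_div]
    gcongr
  have hm2c : 1 < (1 + (d / 16) ^ 2 / 2) ^ m2 * d := by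
    apply bernoulli_big _ _ (by positivity) hd0
    have h1 : 512 / d ^ 3 ≤ m2 := by rw [hm2, hm2f, hd]; exact Nat.le_ceil _
    refine le_trans (le_of_eq ?_) h1
    field_simp
    ring
  have hKpos : 0 < K := by
    rw [hK, hKf]
    positivity
  have hlin : LinRam F col K := by
    rw [hK, hKf]
    exact linRam_of F hdeg hcol col hsymm hk hΔ
  have hσdef : σ = d / (16 * (K + 1)) * (d / 16) ^ m2 * (1 / q) * (d / 8) *
      (η ^ m / (2 * M)) := by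
    rw [hσ, hσf, hd, hK, hm2, hη, hm, hMdef]
  have hflex : FlexProp F col K σ := flexProp_of F hdeg hcol col hsymm hk hq hM hram'.pred D1 d ε η
    m m2 hD1 hddef hε0 hε1 hη0 hηε hη2b hmb hflex2 hflex1 hm2c σ hσdef
  have hωdef : ω = η ^ m * σ / (k : ℝ) ^ M := by rw [hω, hωf, hη, hm, hσ, hMdef]
  have hτdef : τ = 1 / k * γs / 2 * ω ^ M / ((M + 1) * (Δ * Δ + Δ + 1)) := by
    rw [hτ, hτf, hγs, hω, ← eDm, hMdef]
  have hKR : (1:ℝ) ≤ K := by exact_mod_cast hKpos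
  have hmgc : (1 - 1 / (2 * (K : ℝ))) ^ (mgf q Δ) ≤ τ := by
    apply pow_small K hKR τ hτ0
    rw [hmgf, hK, hτ]
    exact Nat.le_ceil _
  have hmsc : (1 - 1 / (2 * (K : ℝ))) ^ (msf q Δ) * ((k : ℝ) ^ M / σ) ≤ 1 := by
    have h1 : (1 - 1 / (2 * (K : ℝ))) ^ (msf q Δ) ≤ σ / (k : ℝ) ^ M := by
      apply pow_small K hKR _ (by positivity)
      rw [hmsf, hK, hσ, hMdef]
      exact Nat.le_ceil _
    calc (1 - 1 / (2 * (K : ℝ))) ^ (msf q Δ) * ((k : ℝ) ^ M / σ) ≤ σ / (k : ℝ) ^ M *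
          ((k : ℝ) ^ M / σ) := by gcongr
      _ = 1 := by field_simp
  obtain ⟨U, hU1, hU2, hU3⟩ := stages F hdeg hcol col hsymm hk hKpos hram' hlin Dm ε η m hDm hε0
    hstage3 (by rw [← hγs]; exact hstage2) (by rw [← hγs]; exact hstage1) hη0 hηε hη2a hma σ hσ0
    hσ1 hflex τ hτ0.le (by
      rw [← hγs, ← hωdef, hτdef]
      apply le_of_eq
      field_simp) (mgf q Δ) (msf q Δ) hmgc hmsc M 0 (by omega) (fun i => i.elim0) (fun i => i.elim0) V
    (fun i => i.elim0) (fun i => i.elim0) (by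
      intro c I hI _
      have : I = ∅ := by ext x; exact x.elim0
      rw [this] at hI
      simp at hI) (by
      intro X _ _
      have h1 : vol X = 1 := by unfold vol; simp
      have h2 : cnt (Patt col (fun i : Fin 0 => i.elim0)) X = 1 := by
        unfold cnt
        rw [filter_true_of_mem]
        · rw [Fintype.card_piFinset]; simp
        · intro w _ i; exact i.elim0
      rw [h1, h2, pow_zero]; norm_num) (fun i => i.elim0) (fun i => i.elim0) (by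
      rintro v _ ⟨c, I, hI, _⟩
      have : I = ∅ := by ext x; exact x.elim0
      rw [this] at hI
      simp at hI
      omega)
  have hUe : U = ∅ := by
    rw [← subset_empty]
    refine hU1.trans ?_
    intro x hx
    rw [mem_biUnion] at hx
    obtain ⟨i, _⟩ := hx
    exact i.elim0
  rw [hUe, union_empty] at hU3
  exact hU3

end Pool.Agent.H21.Tile
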