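import Pool.Agent.H21.Tile.Pair

/-! Monochromatic lower regular tuples. -/

namespace Pool.Agent.H21.Tile

open Finset Classical

/-- The Ramsey property used below. -/
def RamseyProp (k q M : ℕ) : Prop := ∀ (χ : Fin M → Fin M → Fin k), (∀ x y, χ x y = χ y x) →
    ∃ c, ∃ I : Finset (Fin M), I.card = q ∧ ∀ x ∈ I, ∀ y ∈ I, x ≠ y → χ x y = c

/-- Colour pattern. -/
def Patt {α : Type*} {k M : ℕ} (col : α → α → Fin k) (χ : Fin M → Fin M → Fin k)
    (w : Fin M → α) : Prop := ∀ i j, i ≠ j → col (w i) (w j) = χ i j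

lemma exists_blocks {α : Type*} (S : Finset α) (M s : ℕ) (h : M * s ≤ S.card) :
    ∃ B : Fin M → Finset α, (∀ i, B i ⊆ S) ∧ (∀ i, (B i).card = s) ∧
      ∀ i j, i ≠ j → Disjoint (B i) (B j) := by
  obtain ⟨f⟩ : Nonempty (Fin M × Fin s ↪ S) := by
    apply Function.Embedding.nonempty_of_card_le
    simpa using h
  refine ⟨fun i => univ.image (fun j => (f (i, j) : α)), ?_, ?_, ?_⟩
  · intro i x hx
    rw [mem_image] at hx
    obtain ⟨j, _, rfl⟩ := hx
    exact (f (i, j)).2
  · intro i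
    rw [card_image_of_injective, card_univ, Fintype.card_fin]
    intro a b hab
    have := f.injective (Subtype.ext hab)
    simpa using this
  · intro i j hij
    rw [disjoint_left]
    intro x hx hx2
    rw [mem_image] at hx hx2
    obtain ⟨a, _, rfl⟩ := hx
    obtain ⟨b, _, hb⟩ := hx2
    have := f.injective (Subtype.ext hb)
    simp only [Prod.mk.injEq] at this
    exact hij this.1.symm

theorem mono_tuple {α : Type*} {k q M : ℕ} (hM : 0 < M) (hram : RamseyProp k q M)
    (col : α → α → Fin k) (hsymm : ∀ a b, col a b = col b a) (hk : 0 < k)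
    (ε η : ℝ) (m : ℕ) (hε : 0 < ε) (hε1 : ε ≤ 1) (hη : 0 < η) (hηε : η ≤ ε)
    (hη2 : η * (8 * (M + 1)) ≤ 1 / ((k : ℝ) ^ M) ^ M * ε ^ M)
    (hm : 1 < (1 + ε ^ M / 4) ^ m * (1 / ((k : ℝ) ^ M) ^ M))
    (S : Finset α) (hS : M ≤ S.card) :
    ∃ (c : Fin k) (A : Fin q → Finset α), (∀ i, A i ⊆ S) ∧ (∀ i j, i ≠ j → Disjoint (A i) (A j)) ∧
      (∀ i, (A i).Nonempty) ∧ (∀ i, η ^ m / (2 * M) * S.card ≤ ((A i).card : ℝ)) ∧
      LowReg (fun a b => col a b = c) A ε (1 / ((k : ℝ) ^ M) ^ M / 2) := by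
  have hkR : (0:ℝ) < k := by exact_mod_cast hk
  have hMR : (0:ℝ) < M := by exact_mod_cast hM
  set s := S.card / M with hs
  have hspos : 0 < s := Nat.div_pos hS hM
  obtain ⟨B, hBS, hBc, hBd⟩ := exists_blocks S M s (Nat.mul_div_le _ _)
  have hBne : ∀ i, (B i).Nonempty := fun i => by rw [← card_pos, hBc]; exact hspos
  set D1 : ℝ := 1 / ((k : ℝ) ^ M) ^ M with hD1
  have hD1pos : 0 < D1 := by positivity
  -- popular pattern
  obtain ⟨χ, hχ⟩ : ∃ χ : Fin M → Fin M → Fin k, D1 * vol B ≤ cnt (Patt col χ) B := by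
    by_contra hcon
    push Not at hcon
    have h1 : ∑ χ : Fin M → Fin M → Fin k, cnt (Patt col χ) B <
        ∑ χ : Fin M → Fin M → Fin k, D1 * vol B := by
      apply sum_lt_sum_of_nonempty
      · exact ⟨fun _ _ => ⟨0, hk⟩, mem_univ _⟩
      · exact fun χ _ => hcon χ
    rw [sum_const, nsmul_eq_mul, card_univ] at h1
    have h2 : (Fintype.card (Fin M → Fin M → Fin k) : ℝ) * (D1 * vol B) = vol B := by
      rw [Fintype.card_fun, Fintype.card_fun, Fintype.card_fin, Fintype.card_fin, hD1]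
      push_cast
      field_simp
    rw [h2] at h1
    have h3 : vol B ≤ ∑ χ : Fin M → Fin M → Fin k, cnt (Patt col χ) B := by
      rw [vol_eq]
      unfold cnt
      have : Fintype.piFinset B ⊆ (univ : Finset (Fin M → Fin M → Fin k)).biUnion
          (fun χ => (Fintype.piFinset B).filter (Patt col χ)) := by
        intro w hw
        rw [mem_biUnion]
        exact ⟨fun i j => col (w i) (w j), mem_univ _, mem_filter.mpr ⟨hw, fun i j _ => rfl⟩⟩
      exact_mod_cast (card_le_card this).trans card_biUnion_le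
    linarith
  have hχs : ∀ i j, χ i j = χ j i := by
    have hpos : 0 < cnt (Patt col χ) B := lt_of_lt_of_le (mul_pos hD1pos (vol_pos hBne)) hχ
    unfold cnt at hpos
    have hpos' : 0 < ((Fintype.piFinset B).filter (Patt col χ)).card := by exact_mod_cast hpos
    obtain ⟨w, hw⟩ := card_pos.mp hpos'
    have hw2 := (mem_filter.mp hw).2
    intro i j
    by_cases hij : i = j
    · rw [hij]
    · rw [← hw2 i j hij, ← hw2 j i (Ne.symm hij), hsymm]
  obtain ⟨W', hW1, hW2, hW3, hW4, hW5⟩ := tlr (Patt col χ) ε D1 η hε hε1 hD1pos hη hηε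
    (by rw [Fintype.card_fin]; exact hη2) m D1 B le_rfl hBne
    (by rw [Fintype.card_fin]; exact hm) hχ
  obtain ⟨c, I, hIc, hI⟩ := hram χ hχs
  have hIinj : ∀ a b : Fin q, a ≠ b → I.orderEmbOfFin hIc a ≠ I.orderEmbOfFin hIc b :=
    fun a b hab h => hab ((I.orderEmbOfFin hIc).injective h)
  refine ⟨c, fun a => W' (I.orderEmbOfFin hIc a), ?_, ?_, ?_, ?_, ?_⟩
  · intro a; exact (hW1 _).trans (hBS _)
  · intro a b hab
    exact disjoint_of_subset_left (hW1 _) (disjoint_of_subset_right (hW1 _)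
      (hBd _ _ (hIinj a b hab)))
  · intro a; exact hW2 _
  · intro a
    refine le_trans ?_ (hW3 _)
    rw [hBc]
    have h1 : S.card < M * s + M := by
      have := Nat.mod_lt S.card hM
      have h2 := Nat.div_add_mod S.card M
      rw [hs]; omega
    have h4 : S.card ≤ 2 * M * s := by nlinarith
    have h5 : (S.card : ℝ) ≤ 2 * M * s := by exact_mod_cast h4
    calc η ^ m / (2 * M) * (S.card : ℝ) ≤ η ^ m / (2 * M) * (2 * M * s) := by gcongr
      _ = η ^ m * s := by field_simp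
  · intro a b hab Y hY C hC hYε hCε hYne
    apply pair_reg (Patt col χ) W' ε D1 hε1 hW2 hW5 _ (hIinj a b hab) _ Y C hY hC hYε hCε hYne
    intro w hw
    rw [hw _ _ (hIinj a b hab)]
    exact hI _ (orderEmbOfFin_mem I hIc a) _ (orderEmbOfFin_mem I hIc b) (hIinj a b hab)

end Pool.Agent.H21.Tile
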