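import Pool.Agent.H21.Tile.TLR
import Pool.Agent.H21.Tile.Greedy

namespace Pool.Agent.H21.Tile

open Finset Classical

set_option linter.unusedSectionVars false

variable {ι α : Type*} [Fintype ι] [LinearOrder ι]

lemma vol_update2 (W : ι → Finset α) {i j : ι} (hij : i ≠ j) (A B : Finset α) :
    vol (Function.update (Function.update W i A) j B) =
      A.card * (B.card * ∏ l ∈ (univ.erase i).erase j, ((W l).card : ℝ)) := by
  unfold vol
  rw [← mul_prod_erase univ _ (mem_univ i), ← mul_prod_erase (univ.erase i) _
    (show j ∈ univ.erase i by simp [hij.symm])]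
  rw [Function.update_of_ne hij, Function.update_self, Function.update_self]
  congr 2
  apply prod_congr rfl
  intro l hl
  simp only [mem_erase, mem_univ, and_true] at hl
  rw [Function.update_of_ne hl.1, Function.update_of_ne hl.2]

/-- From tuple lower regularity to lower regularity of one pair. -/
theorem pair_reg (Pat : (ι → α) → Prop) (W : ι → Finset α) (ε D : ℝ) (hε1 : ε ≤ 1)
    (hW : ∀ i, (W i).Nonempty)
    (hreg : ∀ X : ι → Finset α, (∀ i, X i ⊆ W i) → (∀ i, ε * (W i).card ≤ ((X i).card : ℝ)) →
          D / 2 * vol X ≤ cnt Pat X)
    (rel : α → α → Prop) {i j : ι} (hij : i ≠ j) (hpat : ∀ w, Pat w → rel (w i) (w j))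
    (Y C : Finset α) (hY : Y ⊆ W i) (hC : C ⊆ W j) (hYε : ε * (W i).card ≤ (Y.card : ℝ))
    (hCε : ε * (W j).card ≤ (C.card : ℝ)) (hYne : Y.Nonempty) :
    ∃ y ∈ Y, D / 2 * C.card ≤ ((C.filter (rel y)).card : ℝ) := by
  by_contra hcon
  push Not at hcon
  set X := Function.update (Function.update W i Y) j C with hX
  set P := ∏ l ∈ (univ.erase i).erase j, ((W l).card : ℝ) with hP
  have hP0 : 0 < P := prod_pos fun l _ => by exact_mod_cast card_pos.mpr (hW l)
  have h1 := hreg X (by
    intro l
    rw [hX]
    by_cases hl : l = j
    · subst hl; rw [Function.update_self]; exact hC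
    · rw [Function.update_of_ne hl]
      by_cases hl2 : l = i
      · subst hl2; rw [Function.update_self]; exact hY
      · rw [Function.update_of_ne hl2]) (by
    intro l
    rw [hX]
    by_cases hl : l = j
    · subst hl; rw [Function.update_self]; exact hCε
    · rw [Function.update_of_ne hl]
      by_cases hl2 : l = i
      · subst hl2; rw [Function.update_self]; exact hYε
      · rw [Function.update_of_ne hl2]
        have : (0:ℝ) ≤ (W l).card := Nat.cast_nonneg _
        nlinarith)
  have h2 : cnt Pat X ≤ ∑ y ∈ Y, vol (Function.update (Function.update W i {y}) j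
      (C.filter (rel y))) := by
    have hsub : (Fintype.piFinset X).filter Pat ⊆ Y.biUnion (fun y => Fintype.piFinset
        (Function.update (Function.update W i {y}) j (C.filter (rel y)))) := by
      intro w hw
      rw [mem_filter, Fintype.mem_piFinset] at hw
      rw [mem_biUnion]
      have hwi : w i ∈ Y := by
        have := hw.1 i
        rwa [hX, Function.update_of_ne hij, Function.update_self] at this
      have hwj : w j ∈ C := by
        have := hw.1 j
        rwa [hX, Function.update_self] at this
      refine ⟨w i, hwi, ?_⟩
      rw [Fintype.mem_piFinset]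
      intro l
      by_cases hl : l = j
      · subst hl; rw [Function.update_self, mem_filter]; exact ⟨hwj, hpat w hw.2⟩
      · rw [Function.update_of_ne hl]
        by_cases hl2 : l = i
        · subst hl2; rw [Function.update_self, mem_singleton]
        · rw [Function.update_of_ne hl2]
          have := hw.1 l
          rwa [hX, Function.update_of_ne hl, Function.update_of_ne hl2] at this
    unfold cnt
    simp only [vol_eq]
    have := (card_le_card hsub).trans card_biUnion_le
    exact_mod_cast this
  simp only [vol_update2 W hij] at h2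
  rw [hX, vol_update2 W hij] at h1
  have h3 : ∑ y ∈ Y, ((({y} : Finset α).card : ℝ) * (((C.filter (rel y)).card : ℝ) * P)) <
      ∑ y ∈ Y, (D / 2 * C.card * P) := by
    apply sum_lt_sum_of_nonempty hYne
    intro y hy
    rw [card_singleton]
    have := hcon y hy
    push_cast
    nlinarith
  rw [sum_const, nsmul_eq_mul] at h3
  have h4 : D / 2 * (Y.card * (C.card * P)) ≤ _ := h1.trans h2
  have h5 : D / 2 * (Y.card * (C.card * P)) = Y.card * (D / 2 * C.card * P) := by ring
  rw [h5] at h4
  exact absurd (lt_of_le_of_lt h4 h3) (lt_irrefl _)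

end Pool.Agent.H21.Tile
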