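import Mathlib

/-! Lower regularity of pattern counts in products of finite sets, by density increment. -/

namespace Pool.Agent.H21.Tile

open Finset Classical

set_option linter.unusedSectionVars false

variable {ι α : Type*} [Fintype ι] [LinearOrder ι]

/-- The number of tuples of the box `W` satisfying `Pat`. -/
noncomputable def cnt (Pat : (ι → α) → Prop) (W : ι → Finset α) : ℝ :=
  (((Fintype.piFinset W).filter Pat).card : ℝ)

/-- The volume of a box. -/
noncomputable def vol (W : ι → Finset α) : ℝ := ∏ i, ((W i).card : ℝ)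

lemma vol_eq (W : ι → Finset α) : vol W = ((Fintype.piFinset W).card : ℝ) := by
  rw [Fintype.card_piFinset]; push_cast; rfl

lemma vol_nonneg (W : ι → Finset α) : 0 ≤ vol W := prod_nonneg fun _ _ => Nat.cast_nonneg _

lemma cnt_nonneg (Pat : (ι → α) → Prop) (W : ι → Finset α) : 0 ≤ cnt Pat W := Nat.cast_nonneg _

lemma cnt_le_vol (Pat : (ι → α) → Prop) (W : ι → Finset α) : cnt Pat W ≤ vol W := by
  rw [vol_eq]; unfold cnt; exact_mod_cast card_le_card (filter_subset _ _)

lemma vol_pos {W : ι → Finset α} (h : ∀ i, (W i).Nonempty) : 0 < vol W :=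
  prod_pos fun i _ => by exact_mod_cast card_pos.mpr (h i)

lemma vol_mono {W X : ι → Finset α} (h : ∀ i, X i ⊆ W i) : vol X ≤ vol W :=
  prod_le_prod (fun _ _ => Nat.cast_nonneg _) fun i _ => by exact_mod_cast card_le_card (h i)

/-- the boxes of the ordered decomposition -/
noncomputable def box (W X : ι → Finset α) (i : ι) : ι → Finset α :=
  fun j => if j < i then W j else if i < j then X j else W j \ X j

lemma box_self (W X : ι → Finset α) (i : ι) : box W X i i = W i \ X i := by
  simp [box]

lemma box_sub {W X : ι → Finset α} (h : ∀ i, X i ⊆ W i) (i j : ι) :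
    box W X i j ⊆ W j := by
  unfold box
  split_ifs
  · exact le_rfl
  · exact h j
  · exact sdiff_subset

lemma vol_box (W X : ι → Finset α) (hX : ∀ i, X i ⊆ W i) :
    vol W = vol X + ∑ i, vol (box W X i) := by
  have h := prod_add_ordered (univ : Finset ι) (fun i => ((X i).card : ℝ))
    (fun i => ((W i \ X i).card : ℝ))
  have h1 : ∀ i, ((X i).card : ℝ) + ((W i \ X i).card : ℝ) = (W i).card := by
    intro i
    have := card_sdiff_add_card_eq_card (hX i)
    rw [← this]; push_cast; ring
  simp only [h1] at h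
  unfold vol
  rw [h]
  congr 1
  apply sum_congr rfl
  intro i _
  have h2 : ∀ j, ((box W X i j).card : ℝ) = (if j < i then ((W j).card : ℝ) else 1) *
      ((if i < j then ((X j).card : ℝ) else 1) * (if i = j then ((W j \ X j).card : ℝ) else 1)) := by
    intro j
    unfold box
    rcases lt_trichotomy j i with hlt | heq | hgt
    · have hn : ¬ i < j := not_lt.mpr hlt.le
      have hne : ¬ i = j := fun h => absurd hlt (h ▸ lt_irrefl _)
      simp [hlt, hn, hne]
    · subst heq; simp
    · have hn : ¬ j < i := not_lt.mpr hgt.le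
      have hne : ¬ i = j := fun h => absurd hgt (h ▸ lt_irrefl _)
      simp [hgt, hn, hne]
  rw [prod_congr rfl fun j _ => h2 j, prod_mul_distrib, prod_mul_distrib,
    Finset.prod_ite_eq, if_pos (mem_univ _), prod_filter, prod_filter]
  ring

lemma cnt_box (Pat : (ι → α) → Prop) (W X : ι → Finset α) :
    cnt Pat W ≤ cnt Pat X + ∑ i, cnt Pat (box W X i) := by
  unfold cnt
  have hsub : (Fintype.piFinset W).filter Pat ⊆ (Fintype.piFinset X).filter Pat ∪
      univ.biUnion (fun i => (Fintype.piFinset (box W X i)).filter Pat) := by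
    intro w hw
    rw [mem_filter, Fintype.mem_piFinset] at hw
    rw [mem_union, mem_biUnion]
    by_cases hall : ∀ j, w j ∈ X j
    · left
      rw [mem_filter, Fintype.mem_piFinset]; exact ⟨hall, hw.2⟩
    · right
      push Not at hall
      have hne : (univ.filter (fun j => w j ∉ X j)).Nonempty := by
        obtain ⟨j, hj⟩ := hall; exact ⟨j, by simp [hj]⟩
      set i := (univ.filter (fun j => w j ∉ X j)).max' hne with hi
      have himem : i ∈ univ.filter (fun j => w j ∉ X j) := max'_mem _ _
      rw [mem_filter] at himem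
      refine ⟨i, mem_univ _, ?_⟩
      rw [mem_filter, Fintype.mem_piFinset]
      refine ⟨?_, hw.2⟩
      intro j
      unfold box
      rcases lt_trichotomy j i with hlt | heq | hgt
      · rw [if_pos hlt]; exact hw.1 j
      · rw [heq, if_neg (lt_irrefl _), if_neg (lt_irrefl _), mem_sdiff]
        exact ⟨hw.1 i, himem.2⟩
      · rw [if_neg (not_lt.mpr hgt.le), if_pos hgt]
        by_contra hcon
        have : j ≤ i := le_max' _ _ (by rw [mem_filter]; exact ⟨mem_univ _, hcon⟩)
        exact absurd hgt (not_lt.mpr this)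
  have h1 := card_le_card hsub
  have h2 := (h1.trans (card_union_le _ _)).trans (add_le_add le_rfl card_biUnion_le)
  exact_mod_cast h2

/-- One increment step. -/
lemma tlr_step (Pat : (ι → α) → Prop) (W X : ι → Finset α)
    (hW : ∀ i, (W i).Nonempty) (hX : ∀ i, X i ⊆ W i) (ε D η : ℝ) (hε : 0 < ε) (hD : 0 < D)
    (hη0 : 0 ≤ η)
    (hη : η * (8 * (Fintype.card ι + 1)) ≤ D * ε ^ (Fintype.card ι))
    (hXε : ∀ i, ε * (W i).card ≤ ((X i).card : ℝ))
    (hcW : D * vol W ≤ cnt Pat W) (hcX : cnt Pat X < D / 2 * vol X) :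
    ∃ i, η * (W i).card ≤ ((W i \ X i).card : ℝ) ∧
      (1 + ε ^ (Fintype.card ι) / 4) * D * vol (box W X i) ≤ cnt Pat (box W X i) := by
  by_contra hcon
  push Not at hcon
  set T := Fintype.card ι with hT
  set ξ := ε ^ T / 4 with hξ
  have hvW : 0 < vol W := vol_pos hW
  have hεT : 0 < ε ^ T := by positivity
  have hξ0 : 0 < ξ := by positivity
  have hbox : ∀ i, cnt Pat (box W X i) ≤ (1 + ξ) * D * vol (box W X i) + η * vol W := by
    intro i
    have hnn : 0 ≤ (1 + ξ) * D * vol (box W X i) := by
      have := vol_nonneg (box W X i); positivity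
    by_cases h : η * (W i).card ≤ ((W i \ X i).card : ℝ)
    · have := hcon i h
      have h2 : 0 ≤ η * vol W := by positivity
      linarith
    · push Not at h
      have h3 : vol (box W X i) ≤ η * vol W := by
        unfold vol
        rw [← mul_prod_erase univ _ (mem_univ i), ← mul_prod_erase univ _ (mem_univ i), box_self,
          ← mul_assoc]
        apply mul_le_mul h.le _ (prod_nonneg fun _ _ => Nat.cast_nonneg _)
          (by positivity)
        exact prod_le_prod (fun _ _ => Nat.cast_nonneg _) fun j _ => by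
          exact_mod_cast card_le_card (box_sub hX i j)
      have h4 := cnt_le_vol Pat (box W X i)
      linarith
  have h1 := cnt_box Pat W X
  have h2 : ∑ i, cnt Pat (box W X i) ≤ (1 + ξ) * D * (vol W - vol X) + T * (η * vol W) := by
    have h3 := sum_le_sum fun i (_ : i ∈ univ) => hbox i
    rw [sum_add_distrib, ← mul_sum, sum_const, nsmul_eq_mul, card_univ] at h3
    have h4 : ∑ i, vol (box W X i) = vol W - vol X := by
      rw [vol_box W X hX]; ring
    rw [h4] at h3
    exact h3
  have h5 : ε ^ T * vol W ≤ vol X := by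
    unfold vol
    rw [hT, ← card_univ, ← prod_const, ← prod_mul_distrib]
    exact prod_le_prod (fun i _ => by positivity) fun i _ => hXε i
  have h6 : T * (η * vol W) ≤ D * ε ^ T / 8 * vol W := by
    have h7 : (T:ℝ) * η ≤ D * ε ^ T / 8 := by nlinarith
    nlinarith
  have h8 : D * ε ^ T * vol W ≤ D * vol X := by nlinarith
  have h9 : ξ * D * vol W = D * ε ^ T * vol W / 4 := by rw [hξ]; ring
  have h10 : 0 ≤ ξ * D * vol X := by have := vol_nonneg X; positivity
  have h11 : 0 < D * ε ^ T * vol W := by positivity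
  nlinarith

/-- Tuple lower regularity. -/
theorem tlr (Pat : (ι → α) → Prop) (ε D₀ η : ℝ) (hε : 0 < ε) (hε1 : ε ≤ 1)
    (hD₀ : 0 < D₀) (hη0 : 0 < η) (hηε : η ≤ ε)
    (hη : η * (8 * (Fintype.card ι + 1)) ≤ D₀ * ε ^ (Fintype.card ι)) (m : ℕ) :
    ∀ (D : ℝ) (W : ι → Finset α), D₀ ≤ D → (∀ i, (W i).Nonempty) →
      1 < (1 + ε ^ (Fintype.card ι) / 4) ^ m * D → D * vol W ≤ cnt Pat W →
      ∃ W' : ι → Finset α, (∀ i, W' i ⊆ W i) ∧ (∀ i, (W' i).Nonempty) ∧
        (∀ i, η ^ m * (W i).card ≤ ((W' i).card : ℝ)) ∧ D * vol W' ≤ cnt Pat W' ∧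
        ∀ X : ι → Finset α, (∀ i, X i ⊆ W' i) → (∀ i, ε * (W' i).card ≤ ((X i).card : ℝ)) →
          D / 2 * vol X ≤ cnt Pat X := by
  induction m with
  | zero =>
    intro D W hD hW hDm hcW
    exfalso
    have h1 := cnt_le_vol Pat W
    have h2 := vol_pos hW
    simp only [pow_zero, one_mul] at hDm
    nlinarith
  | succ m ih =>
    intro D W hD hW hDm hcW
    have hDpos : 0 < D := lt_of_lt_of_le hD₀ hD
    have hη1 : η ≤ 1 := hηε.trans hε1
    by_cases hreg : ∀ X : ι → Finset α, (∀ i, X i ⊆ W i) → (∀ i, ε * (W i).card ≤ ((X i).card : ℝ)) →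
          D / 2 * vol X ≤ cnt Pat X
    · refine ⟨W, fun _ => le_rfl, hW, ?_, hcW, hreg⟩
      intro i
      have : η ^ (m + 1) ≤ 1 := pow_le_one₀ hη0.le hη1
      have h2 : (0:ℝ) ≤ (W i).card := Nat.cast_nonneg _
      nlinarith
    · push Not at hreg
      obtain ⟨X, hX, hXε, hcX⟩ := hreg
      obtain ⟨i, hi1, hi2⟩ := tlr_step Pat W X hW hX ε D η hε hDpos hη0.le
        (hη.trans (by gcongr)) hXε hcW hcX
      set B := box W X i with hB
      have hBsub : ∀ j, B j ⊆ W j := box_sub hX i
      have hBsize : ∀ j, η * (W j).card ≤ ((B j).card : ℝ) := by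
        intro j
        have hWj : (0:ℝ) ≤ (W j).card := Nat.cast_nonneg _
        rw [hB]
        rcases lt_trichotomy j i with hlt | heq | hgt
        · have : box W X i j = W j := by unfold box; rw [if_pos hlt]
          rw [this]; nlinarith
        · rw [heq, box_self]; exact hi1
        · have : box W X i j = X j := by
            unfold box; rw [if_neg (not_lt.mpr hgt.le), if_pos hgt]
          rw [this]
          exact le_trans (by gcongr) (hXε j)
      have hBne : ∀ j, (B j).Nonempty := by
        intro j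
        rw [← card_pos]
        have h1 : (0:ℝ) < (W j).card := by exact_mod_cast card_pos.mpr (hW j)
        have h2 : (0:ℝ) < ((B j).card : ℝ) := lt_of_lt_of_le (by positivity) (hBsize j)
        exact_mod_cast h2
      have hξ0 : 0 < ε ^ (Fintype.card ι) / 4 := by positivity
      obtain ⟨W', h1, h2, h3, h4, h5⟩ := ih ((1 + ε ^ (Fintype.card ι) / 4) * D) B
        (by nlinarith) hBne (by
          have : (1 + ε ^ (Fintype.card ι) / 4) ^ m * ((1 + ε ^ (Fintype.card ι) / 4) * D) =
            (1 + ε ^ (Fintype.card ι) / 4) ^ (m + 1) * D := by ring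
          rw [this]; exact hDm) hi2
      refine ⟨W', fun j => (h1 j).trans (hBsub j), h2, ?_, ?_, ?_⟩
      · intro j
        refine le_trans ?_ (h3 j)
        have := hBsize j
        have h6 : η ^ m * (η * (W j).card) ≤ η ^ m * (B j).card :=
          mul_le_mul_of_nonneg_left this (by positivity)
        refine le_trans (le_of_eq ?_) h6
        ring
      · refine le_trans ?_ h4
        have := vol_nonneg W'
        have h6 : D ≤ (1 + ε ^ (Fintype.card ι) / 4) * D := by nlinarith
        nlinarith
      · intro Y hY hYε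
        refine le_trans ?_ (h5 Y hY hYε)
        have := vol_nonneg Y
        have h6 : D ≤ (1 + ε ^ (Fintype.card ι) / 4) * D := by nlinarith
        nlinarith

end Pool.Agent.H21.Tile
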