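import Pool.Agent.H21.Tile.Absorb
import Pool.Agent.H21.Tile.Mono

/-! Absorbing a set of vertices of several types; adding one set to a pattern. -/

namespace Pool.Agent.H21.Tile

open Finset Classical

/-- Every set of `n` indices fails to be monochromatic. -/
def NoMono {T k : ℕ} (χ : Fin T → Fin T → Fin k) (n : ℕ) : Prop :=
  ∀ (c : Fin k) (I : Finset (Fin T)), I.card = n → ¬ ∀ x ∈ I, ∀ y ∈ I, x ≠ y → χ x y = c

/-- `v` can be absorbed. -/
def Abs {α : Type*} {T k : ℕ} (q : ℕ) (col : α → α → Fin k) (W : Fin T → Finset α)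
    (χ : Fin T → Fin T → Fin k) (v : α) : Prop :=
  ∃ (c : Fin k) (I : Finset (Fin T)), I.card = q ∧ (∀ x ∈ I, ∀ y ∈ I, x ≠ y → χ x y = c) ∧
    ∀ i ∈ I, ((W i).card : ℝ) / k ≤ (((W i).filter (fun w => col v w = c)).card : ℝ)

/-- Tuple lower regularity of the pattern. -/
def TReg {α : Type*} {T k : ℕ} (col : α → α → Fin k) (W : Fin T → Finset α)
    (χ : Fin T → Fin T → Fin k) (ε D : ℝ) : Prop :=
  ∀ X : Fin T → Finset α, (∀ i, X i ⊆ W i) → (∀ i, ε * (W i).card ≤ ((X i).card : ℝ)) →
    D / 2 * vol X ≤ cnt (Patt col χ) X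

theorem absorb_types {α : Type*} [Nonempty α] {k q Δ T : ℕ} (F : (r : ℕ) → SimpleGraph (Fin r))
    (hdeg : ∀ r x, (univ.filter ((F r).Adj x)).card ≤ Δ)
    (hcol : ∀ r, ∃ f : Fin r → Fin q, ∀ x y, (F r).Adj x y → f x ≠ f y)
    (col : α → α → Fin k) (hsymm : ∀ a b, col a b = col b a) (hk : 0 < k)
    (W : Fin T → Finset α) (χ : Fin T → Fin T → Fin k) (ε D : ℝ)
    (hW : ∀ i, (W i).Nonempty)
    (hε0 : 0 ≤ ε) (hε1 : ε ≤ 1) (hD : 0 < D) (hD1 : D ≤ 1)
    (hεγ : ε ≤ 1 / k * (D / 2) ^ Δ) (hreg : TReg col W χ ε D)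
    (L U : Finset α) (hLW : ∀ i, Disjoint L (W i)) (hL : ∀ v ∈ L, Abs q col W χ v)
    (hsize : ∀ i, (U.card : ℝ) + (Δ * Δ + Δ + 1) * L.card + Δ * (ε * (W i).card)
      ≤ 1 / k * (D / 2) ^ Δ * (W i).card) :
    ∃ Y : Finset α, (Y ⊆ univ.biUnion W) ∧ Disjoint Y U ∧ Y.card ≤ (Δ * Δ + Δ) * L.card ∧
      Tiles F col (L ∪ Y) (k * 2 ^ T) := by
  have hkR : (1:ℝ) ≤ k := by exact_mod_cast hk
  choose tc tI htI1 htI2 htI3 using hL
  -- total type function
  obtain ⟨tp, htp⟩ : ∃ tp : α → Fin k × Finset (Fin T), ∀ v (hv : v ∈ L), tp v = (tc v hv, tI v hv) :=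
    ⟨fun v => if hv : v ∈ L then (tc v hv, tI v hv) else (⟨0, hk⟩, ∅), fun v hv => by simp [hv]⟩
  have main : ∀ Ts : Finset (Fin k × Finset (Fin T)), ∃ Y : Finset α, (Y ⊆ univ.biUnion W) ∧
      Disjoint Y U ∧ Y.card ≤ (Δ * Δ + Δ) * (L.filter (fun v => tp v ∈ Ts)).card ∧
      Tiles F col (L.filter (fun v => tp v ∈ Ts) ∪ Y) Ts.card := by
    intro Ts
    induction Ts using Finset.induction_on with
    | empty => exact ⟨∅, by simp, by simp, by simp, by simpa using Tiles.empty⟩
    | insert t Ts ht ih =>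
      obtain ⟨Y, hY1, hY2, hY3, hY4⟩ := ih
      set L0 := L.filter (fun v => tp v = t) with hL0
      set L1 := L.filter (fun v => tp v ∈ Ts) with hL1
      have hL01 : Disjoint L0 L1 := by
        rw [disjoint_left]
        intro v hv hv1
        rw [hL0, mem_filter] at hv
        rw [hL1, mem_filter] at hv1
        exact ht (hv.2 ▸ hv1.2)
      have hLu : L.filter (fun v => tp v ∈ insert t Ts) = L0 ∪ L1 := by
        ext v
        rw [hL0, hL1, mem_filter, mem_union, mem_filter, mem_filter, mem_insert]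
        tauto
      have hcard : (L.filter (fun v => tp v ∈ insert t Ts)).card = L0.card + L1.card := by
        rw [hLu, card_union_of_disjoint hL01]
      have hcardL : L0.card + L1.card ≤ L.card := by
        rw [← hcard]; exact card_le_card (filter_subset _ _)
      rw [card_insert_of_notMem ht, hcard, hLu]
      by_cases hne : L0 = ∅
      · rw [hne, empty_union, card_empty, zero_add]
        exact ⟨Y, hY1, hY2, hY3, hY4.mono (by omega)⟩
      obtain ⟨v0, hv0⟩ := nonempty_iff_ne_empty.mpr hne
      have hv0L : v0 ∈ L := (mem_filter.mp hv0).1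
      have hv0t : t = (tc v0 hv0L, tI v0 hv0L) := by
        rw [← htp v0 hv0L]; exact (mem_filter.mp hv0).2.symm
      obtain ⟨c, I⟩ := t
      rw [Prod.mk.injEq] at hv0t
      have hIc : I.card = q := by rw [hv0t.2]; exact htI1 v0 hv0L
      have hImono : ∀ x ∈ I, ∀ y ∈ I, x ≠ y → χ x y = c := by
        rw [hv0t.2, hv0t.1]; exact htI2 v0 hv0L
      have hIdeg : ∀ v ∈ L0, ∀ i ∈ I, ((W i).card : ℝ) / k ≤
          (((W i).filter (fun w => col v w = c)).card : ℝ) := by
        intro v hv i hi
        have hvL : v ∈ L := (mem_filter.mp hv).1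
        have h1 : (c, I) = (tc v hvL, tI v hvL) := by
          rw [← htp v hvL]; exact (mem_filter.mp hv).2.symm
        rw [Prod.mk.injEq] at h1
        rw [h1.1]
        exact htI3 v hvL i (by rw [← h1.2]; exact hi)
      have hIinj : ∀ a b : Fin q, a ≠ b → I.orderEmbOfFin hIc a ≠ I.orderEmbOfFin hIc b :=
        fun a b hab h => hab ((I.orderEmbOfFin hIc).injective h)
      obtain ⟨Y0, h1, h2, h3, h4⟩ := absorb F hdeg hcol col hsymm c
        (fun a => W (I.orderEmbOfFin hIc a)) ε (D / 2) (1 / k) hε0 (by linarith) (by linarith)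
        (by positivity) (by rw [div_le_one (by positivity)]; exact hkR) hεγ
        (by
          intro a b hab Z hZ C hC hZε hCε hZne
          apply pair_reg (Patt col χ) W ε D hε1 hW hreg _ (hIinj a b hab) _ Z C hZ hC hZε hCε hZne
          intro w hw
          rw [hw _ _ (hIinj a b hab)]
          exact hImono _ (orderEmbOfFin_mem I hIc a) _ (orderEmbOfFin_mem I hIc b) (hIinj a b hab))
        L0 (U ∪ Y) (fun i => disjoint_of_subset_left (filter_subset _ _) (hLW _))
        (by
          intro v hv i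
          have := hIdeg v hv _ (orderEmbOfFin_mem I hIc i)
          refine le_trans (le_of_eq ?_) this
          ring)
        (by
          intro i
          refine le_trans ?_ (hsize (I.orderEmbOfFin hIc i))
          have e1 : (((U ∪ Y) ∩ W (I.orderEmbOfFin hIc i)).card : ℝ) ≤ U.card +
              (Δ * Δ + Δ) * L1.card := by
            have h5 : ((U ∪ Y) ∩ W (I.orderEmbOfFin hIc i)).card ≤ U.card +
                (Δ * Δ + Δ) * L1.card :=
              ((card_le_card inter_subset_left).trans (card_union_le _ _)).trans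
                (add_le_add le_rfl hY3)
            exact_mod_cast h5
          have e2 : (L0.card : ℝ) + L1.card ≤ L.card := by exact_mod_cast hcardL
          have e3 : (0:ℝ) ≤ L1.card := Nat.cast_nonneg _
          have e4 : ((Δ:ℝ) * Δ + Δ + 1) * (L0.card + L1.card) ≤ (Δ * Δ + Δ + 1) * L.card := by
            gcongr
          nlinarith)
      have hY0U : Disjoint Y0 U := disjoint_of_subset_right subset_union_left h2
      have hY0Y : Disjoint Y0 Y := disjoint_of_subset_right subset_union_right h2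
      refine ⟨Y0 ∪ Y, ?_, ?_, ?_, ?_⟩
      · apply union_subset _ hY1
        intro y hy
        have := h1 hy
        rw [mem_biUnion] at this ⊢
        obtain ⟨a, _, ha⟩ := this
        exact ⟨_, mem_univ _, ha⟩
      · rw [disjoint_union_left]; exact ⟨hY0U, hY2⟩
      · refine (card_union_le _ _).trans ?_
        rw [mul_add]
        exact add_le_add h3 hY3
      · have hYW : ∀ Z ⊆ univ.biUnion W, Disjoint L Z := by
          intro Z hZ
          rw [disjoint_left]
          intro x hx hxZ
          have := hZ hxZ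
          rw [mem_biUnion] at this
          obtain ⟨i, _, hi⟩ := this
          exact disjoint_left.mp (hLW i) hx hi
        have hY0W : Y0 ⊆ univ.biUnion W := by
          intro y hy
          have := h1 hy
          rw [mem_biUnion] at this ⊢
          obtain ⟨a, _, ha⟩ := this
          exact ⟨_, mem_univ _, ha⟩
        have e1 : L0 ∪ L1 ∪ (Y0 ∪ Y) = (L0 ∪ Y0) ∪ (L1 ∪ Y) := by
          ext x; simp only [mem_union]; tauto
        rw [e1, add_comm]
        apply (Tiles.single h4).union hY4
        rw [disjoint_union_left, disjoint_union_right, disjoint_union_right]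
        exact ⟨⟨hL01, disjoint_of_subset_left (filter_subset _ _) (hYW Y hY1)⟩,
          (disjoint_of_subset_left (filter_subset _ _) (hYW Y0 hY0W)).symm, hY0Y⟩
  obtain ⟨Y, h1, h2, h3, h4⟩ := main univ
  have h5 : L.filter (fun v => tp v ∈ (univ : Finset (Fin k × Finset (Fin T)))) = L := by
    apply filter_true_of_mem; intro _ _; exact mem_univ _
  rw [h5] at h3 h4
  refine ⟨Y, h1, h2, h3, h4.mono ?_⟩
  rw [card_univ, Fintype.card_prod, Fintype.card_fin, Fintype.card_finset, Fintype.card_fin]

/-- Extending a pattern by a new vertex of colours `κ`. -/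
def extχ {T k : ℕ} (c0 : Fin k) (κ : Fin T → Fin k) (χ : Fin T → Fin T → Fin k) :
    Fin (T + 1) → Fin (T + 1) → Fin k :=
  fun i j => Fin.cases (motive := fun _ => Fin k) (Fin.cases (motive := fun _ => Fin k) c0 κ j)
    (fun i' => Fin.cases (motive := fun _ => Fin k) (κ i') (fun j' => χ i' j') j) i

lemma extχ_symm {T k : ℕ} (c0 : Fin k) (κ : Fin T → Fin k) (χ : Fin T → Fin T → Fin k)
    (hχ : ∀ i j, χ i j = χ j i) (i j) : extχ c0 κ χ i j = extχ c0 κ χ j i := by
  refine Fin.cases ?_ (fun i' => ?_) i <;> refine Fin.cases ?_ (fun j' => ?_) j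
  · rfl
  · rfl
  · rfl
  · exact hχ i' j'

lemma extχ_noMono {T k q : ℕ} (c0 : Fin k) (κ : Fin T → Fin k) (χ : Fin T → Fin T → Fin k)
    (h : NoMono χ (q + 1))
    (hκ : ∀ (c : Fin k) (I : Finset (Fin T)), I.card = q →
      (∀ x ∈ I, ∀ y ∈ I, x ≠ y → χ x y = c) → ¬ ∀ i ∈ I, κ i = c) :
    NoMono (extχ c0 κ χ) (q + 1) := by
  intro c I hI hmono
  set I' : Finset (Fin T) := univ.filter (fun i => i.succ ∈ I) with hI'
  have hmap : I'.map (Fin.succEmb T) = I.erase 0 := by
    ext x
    rw [mem_map, mem_erase]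
    constructor
    · rintro ⟨y, hy, rfl⟩
      rw [hI', mem_filter] at hy
      exact ⟨Fin.succ_ne_zero y, hy.2⟩
    · rintro ⟨h1, h2⟩
      obtain ⟨y, rfl⟩ := Fin.exists_succ_eq.mpr h1
      exact ⟨y, by rw [hI', mem_filter]; exact ⟨mem_univ _, h2⟩, rfl⟩
  have hcard : I'.card = (I.erase 0).card := by rw [← hmap, card_map]
  have hmono' : ∀ x ∈ I', ∀ y ∈ I', x ≠ y → χ x y = c := by
    intro x hx y hy hxy
    rw [hI', mem_filter] at hx hy
    have := hmono x.succ hx.2 y.succ hy.2 (fun h => hxy (Fin.succ_injective _ h))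
    exact this
  by_cases h0 : (0 : Fin (T + 1)) ∈ I
  · rw [card_erase_of_mem h0, hI] at hcard
    apply hκ c I' (by omega) hmono'
    intro i hi
    rw [hI', mem_filter] at hi
    exact hmono 0 h0 i.succ hi.2 (Fin.succ_ne_zero i).symm
  · rw [erase_eq_of_notMem h0, hI] at hcard
    exact h c I' hcard hmono'

lemma cnt_cons {α : Type*} {T k : ℕ} (col : α → α → Fin k) (hsymm : ∀ a b, col a b = col b a)
    (W : Fin T → Finset α) (χ : Fin T → Fin T → Fin k) (c0 : Fin k) (κ : Fin T → Fin k)
    (Φ : Finset α) :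
    ∑ z ∈ Φ, cnt (Patt col χ) (fun i => (W i).filter (fun w => col z w = κ i)) ≤
      cnt (Patt col (extχ c0 κ χ)) (Fin.cons Φ W : Fin (T + 1) → Finset α) := by
  unfold cnt
  have h : ∑ z ∈ Φ, ((Fintype.piFinset (fun i => (W i).filter (fun w => col z w = κ i))).filter
      (Patt col χ)).card ≤ ((Fintype.piFinset (Fin.cons Φ W : Fin (T + 1) → Finset α)).filter
      (Patt col (extχ c0 κ χ))).card := by
    rw [← card_sigma]
    apply card_le_card_of_injOn
      (fun p : (_ : α) × (Fin T → α) => (Fin.cons p.1 p.2 : Fin (T + 1) → α))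
    · intro p hp
      rw [mem_coe, mem_sigma, mem_filter, Fintype.mem_piFinset] at hp
      rw [mem_coe, mem_filter, Fintype.mem_piFinset]
      have hp2 : ∀ i, p.2 i ∈ W i ∧ col p.1 (p.2 i) = κ i := by
        intro i
        have := hp.2.1 i
        rwa [mem_filter] at this
      refine ⟨?_, ?_⟩
      · intro i
        refine Fin.cases ?_ (fun j => ?_) i
        · simpa using hp.1
        · simpa using (hp2 j).1
      · intro i j hij
        revert hij
        refine Fin.cases ?_ (fun i' => ?_) i <;> refine Fin.cases ?_ (fun j' => ?_) j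
        · intro h; exact absurd rfl h
        · intro _
          simp only [Fin.cons_zero, Fin.cons_succ]
          exact (hp2 j').2
        · intro _
          simp only [Fin.cons_zero, Fin.cons_succ]
          rw [hsymm]
          exact (hp2 i').2
        · intro hij
          simp only [Fin.cons_succ]
          exact hp.2.2 i' j' (fun h => hij (by rw [h]))
    · rintro ⟨x, f⟩ _ ⟨y, g⟩ _ h
      simp only at h
      have h1 : x = y := by
        have := congrFun h 0
        simpa using this
      have h2 : f = g := by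
        funext i
        have := congrFun h i.succ
        simpa using this
      subst h1; subst h2; rfl
  exact_mod_cast h

lemma vol_cons {α : Type*} {T : ℕ} (Φ : Finset α) (W : Fin T → Finset α) :
    vol (Fin.cons Φ W : Fin (T + 1) → Finset α) = Φ.card * vol W := by
  unfold vol
  rw [Fin.prod_univ_succ]
  simp

end Pool.Agent.H21.Tile
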